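import Pool.Agent.Lib.MP_c1a8e2_al.h31.Near2

/-!
# Two variables: the window property for small `N`
-/

set_option autoImplicit false

open Polynomial Finset

namespace Pool.Agent.Lib.MP_c1a8e2_al

/-- The coefficients of the powers of `1 + x + x ^ 2`. -/
def tri : ℕ → ℕ → ℤ
  | 0, 0 => 1
  | 0, _ + 1 => 0
  | i + 1, 0 => tri i 0
  | i + 1, 1 => tri i 1 + tri i 0
  | i + 1, n + 2 => tri i (n + 2) + tri i (n + 1) + tri i n

theorem coeff_tri (i n : ℕ) : ((X ^ 2 + X + 1 : ℤ[X]) ^ i).coeff n = tri i n := by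
  induction i generalizing n with
  | zero =>
    rcases n with _ | n
    · simp [tri]
    · simp [tri, coeff_one]
  | succ i ih =>
    have h : (X ^ 2 + X + 1 : ℤ[X]) ^ (i + 1) = (X ^ 2 + X + 1) ^ i * X ^ 2 +
        (X ^ 2 + X + 1) ^ i * X ^ 1 + (X ^ 2 + X + 1) ^ i := by ring
    rw [h, coeff_add, coeff_add, coeff_mul_X_pow', coeff_mul_X_pow']
    rcases n with _ | _ | n
    · simp [tri, ih]
    · simp [tri, ih]
      ring
    · rw [if_pos (by omega), if_pos (by omega), ih, ih, ih]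
      simp only [tri, show n + 1 + 1 - 2 = n by omega,
        show n + 1 + 1 - 1 = n + 1 by omega]
      ring

theorem toep_tri (i t : ℕ) (a b : Fin (t - i)) :
    toep i t a b = if (b : ℕ) ≤ i + a then tri i (i + a - b) else 0 := by
  rw [toep, coeff_tri]

theorem det_1_4 : (toep 1 4).det = -1 := by
  change Matrix.det (n := Fin 3) (toep 1 4) = -1
  rw [Matrix.det_fin_three]
  simp [toep_tri, tri]

theorem det_2_4 : (toep 2 4).det = 5 := by
  change Matrix.det (n := Fin 2) (toep 2 4) = 5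
  rw [Matrix.det_fin_two]
  simp [toep_tri, tri]

theorem det_3_4 : (toep 3 4).det = 7 := by
  change Matrix.det (n := Fin 1) (toep 3 4) = 7
  rw [Matrix.det_fin_one]
  simp [toep_tri, tri]

theorem det_1_5 : (toep 1 5).det = -1 := by
  change Matrix.det (n := Fin 4) (toep 1 5) = -1
  rw [Matrix.det_succ_row_zero]
  simp [Fin.sum_univ_succ, Matrix.det_fin_three, Fin.succAbove, toep_tri, tri]

theorem det_2_5 : (toep 2 5).det = 8 := by
  change Matrix.det (n := Fin 3) (toep 2 5) = 8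
  rw [Matrix.det_fin_three]
  simp [toep_tri, tri]

theorem det_3_5 : (toep 3 5).det = 13 := by
  change Matrix.det (n := Fin 2) (toep 3 5) = 13
  rw [Matrix.det_fin_two]
  simp [toep_tri, tri]

theorem det_4_5 : (toep 4 5).det = 19 := by
  change Matrix.det (n := Fin 1) (toep 4 5) = 19
  rw [Matrix.det_fin_one]
  simp [toep_tri, tri]

theorem det_3_6 : (toep 3 6).det = -8 := by
  change Matrix.det (n := Fin 3) (toep 3 6) = -8
  rw [Matrix.det_fin_three]
  simp [toep_tri, tri]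

theorem det_5_6 : (toep 5 6).det = 51 := by
  change Matrix.det (n := Fin 1) (toep 5 6) = 51
  rw [Matrix.det_fin_one]
  simp [toep_tri, tri]

theorem win_zero (L : Type) [Field L] (N : ℕ) : Win L N 0 := by
  intro G _ h1 h2
  ext n
  rw [coeff_zero]
  by_cases h : n < N
  · exact h2 n (Nat.zero_le n) h
  · exact h1 n (by omega)

theorem win_self (L : Type) [Field L] (N : ℕ) : Win L N N := by
  intro G hdvd h1 _
  obtain ⟨D, rfl⟩ := hdvd
  have hm : (X ^ 2 + X + 1 : L[X]).Monic := by monicity!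
  have hd : (X ^ 2 + X + 1 : L[X]).natDegree = 2 := by compute_degree!
  by_contra hc
  have hD0 : D ≠ 0 := by
    rintro rfl
    simp at hc
  have h2 : ((X ^ 2 + X + 1 : L[X]) ^ N * D).natDegree = N * 2 + D.natDegree := by
    rw [(hm.pow N).natDegree_mul' hD0, natDegree_pow, hd]
  have h3 := h1 ((X ^ 2 + X + 1 : L[X]) ^ N * D).natDegree (by rw [h2]; omega)
  rw [coeff_natDegree, leadingCoeff_eq_zero] at h3
  exact hc h3

section

variable (L : Type) [Field L] (p : ℕ) [hp : Fact p.Prime] [CharP L p]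

omit hp in
theorem win_det_ne (t s : ℕ) (d : ℤ) (hd : (toep s t).det = d) (h : ¬ (p : ℤ) ∣ d) :
    Win L t s := by
  refine win_of_det L t s ?_
  rw [hd]
  rwa [ne_eq, CharP.intCast_eq_zero_iff L p]

theorem prime_dvd_two_pow (k : ℕ) (hp2 : p ≠ 2) : ¬ (p : ℤ) ∣ 2 ^ k := by
  intro h
  have h1 : p ∣ 2 ^ k := by exact_mod_cast h
  have h2 : p ∣ 2 := hp.out.dvd_of_dvd_pow h1
  exact hp2 ((Nat.prime_dvd_prime_iff_eq hp.out Nat.prime_two).mp h2)

theorem prime_not_dvd (q : ℕ) (hq : q.Prime) (h : p ≠ q) : ¬ (p : ℤ) ∣ q := by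
  intro h1
  have h2 : p ∣ q := by exact_mod_cast h1
  exact h ((Nat.prime_dvd_prime_iff_eq hp.out hq).mp h2)

theorem prime_not_dvd_neg_one : ¬ (p : ℤ) ∣ -1 := by
  intro h
  have h1 : (p : ℤ) ∣ 1 := by
    have := (dvd_neg (a := (p : ℤ)) (b := 1)).mp h
    exact this
  have h2 : p ∣ 1 := by exact_mod_cast h1
  exact hp.out.one_lt.ne' (Nat.dvd_one.mp h2)

/-- `N = 4` -/
theorem win_four (hp5 : p ≠ 5) (hp7 : p ≠ 7) (i : ℕ) (hi : i ≤ 4) : Win L 4 i := by
  interval_cases i
  · exact win_zero L 4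
  · exact win_det_ne L p 4 1 _ det_1_4 (prime_not_dvd_neg_one p)
  · exact win_det_ne L p 4 2 _ det_2_4 (prime_not_dvd p 5 (by norm_num) hp5)
  · exact win_det_ne L p 4 3 _ det_3_4 (prime_not_dvd p 7 (by norm_num) hp7)
  · exact win_self L 4

/-- `N = 5` -/
theorem win_five (hp2 : p ≠ 2) (hp13 : p ≠ 13) (hp19 : p ≠ 19) (i : ℕ) (hi : i ≤ 5) :
    Win L 5 i := by
  interval_cases i
  · exact win_zero L 5
  · exact win_det_ne L p 5 1 _ det_1_5 (prime_not_dvd_neg_one p)
  · exact win_det_ne L p 5 2 _ det_2_5 (prime_dvd_two_pow p 3 hp2)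
  · exact win_det_ne L p 5 3 _ det_3_5 (prime_not_dvd p 13 (by norm_num) hp13)
  · exact win_det_ne L p 5 4 _ det_4_5 (prime_not_dvd p 19 (by norm_num) hp19)
  · exact win_self L 5

/-- multiplicity one, every field of characteristic not two -/
theorem palWin_one' (h2 : (2 : L) ≠ 0) (w : L) (hw : w ^ 2 + w + 1 = 0) (N : ℕ) (hN : 1 ≤ N) :
    PalWin L N 1 := by
  intro G hdvd hhigh hmid hpal
  obtain ⟨A, B, hA, hB, hG⟩ := split_window G 1 N hhigh hmid
  have h0 : G.coeff 0 = G.coeff (N + 0) := hpal 0 (N + 0) (by omega)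
  have hA' : A = C (G.coeff 0) := by
    ext n
    rw [hA, coeff_C]
    by_cases hn : n = 0
    · subst hn
      rw [if_pos (by omega), if_pos rfl]
    · rw [if_neg (by omega), if_neg hn]
  have hB' : B = C (G.coeff 0) := by
    ext n
    rw [hB, coeff_C]
    by_cases hn : n = 0
    · subst hn
      rw [if_pos (by omega), if_pos rfl, h0]
    · rw [if_neg (by omega), if_neg hn]
  have h1 : G.eval w = 0 := by
    rw [pow_one] at hdvd
    obtain ⟨K, hK⟩ := hdvd
    rw [hK, eval_mul]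
    simp [hw]
  have h2' : G.coeff 0 * (w ^ 0 + w ^ N) = 0 := by
    have h3 : G.eval w = G.coeff 0 + w ^ N * G.coeff 0 := by
      conv_lhs => rw [hG, hA', hB']
      simp
      ring
    rw [h1] at h3
    linear_combination -h3
  have h3 : G.coeff 0 = 0 := (mul_eq_zero.mp h2').resolve_right
    (add_root_ne w (cube_root L w hw) h2 _ _)
  rw [hG, hA', hB', h3]
  simp

/-- `N = 5` -/
theorem palWin_five_one : PalWin L 5 1 :=
  (win_of_det L 5 1 (by rw [det_1_5]; simp)).pal

theorem palWin_five_three (hp13 : p ≠ 13) : PalWin L 5 3 :=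
  (win_det_ne L p 5 3 _ det_3_5 (prime_not_dvd p 13 (by norm_num) hp13)).pal

/-- `N = 6` -/
theorem palWin_six_one (hp2 : p ≠ 2) (w : L) (hw : w ^ 2 + w + 1 = 0) : PalWin L 6 1 :=
  palWin_one' L (two_ne L p hp2) w hw 6 (by norm_num)

theorem palWin_six_three (hp2 : p ≠ 2) : PalWin L 6 3 := by
  refine (win_det_ne L p 6 3 _ det_3_6 ?_).pal
  intro h
  exact prime_dvd_two_pow p 3 hp2 ((dvd_neg (a := (p : ℤ)) (b := 8)).mp h)

theorem palWin_six_five (hp3 : p ≠ 3) (hp17 : p ≠ 17) : PalWin L 6 5 := by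
  refine (win_det_ne L p 6 5 _ det_5_6 ?_).pal
  intro h
  have h1 : p ∣ 3 * 17 := by exact_mod_cast h
  rcases hp.out.dvd_mul.mp h1 with h2 | h2
  · exact hp3 ((Nat.prime_dvd_prime_iff_eq hp.out Nat.prime_three).mp h2)
  · exact hp17 ((Nat.prime_dvd_prime_iff_eq hp.out (by norm_num)).mp h2)

end

end Pool.Agent.Lib.MP_c1a8e2_al
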