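import Pool.Agent.Lib.MP_c1a8e2_al.h31.Near2

/-!
# Two variables: `m + 1 = t q + 1`, `q` a power of a prime `p ≥ 5`
-/

set_option autoImplicit false

open Polynomial Finset

namespace Pool.Agent.Lib.MP_c1a8e2_al

/-- If `(X - v) ^ s ∣ ∑_{j ≤ s} X ^ j A_j(X ^ q)`, `q = p ^ a ≥ s`, then the values `A_j(v ^ q)`
are proportional to the coefficients of `(X - v) ^ s`. -/
theorem block_root' (L : Type) [Field L] (p a : ℕ) [Fact p.Prime] [CharP L p] (v : L)
    (A : ℕ → L[X]) (s : ℕ) (hs : s ≤ p ^ a)
    (h : (X - C v) ^ s ∣ ∑ j ∈ range (s + 1), X ^ j * expand L (p ^ a) (A j)) :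
    ∀ j ≤ s, (A j).eval (v ^ (p ^ a)) =
      ((X - C v) ^ s : L[X]).coeff j * (A s).eval (v ^ (p ^ a)) := by
  have h1 : (X : L[X]) ^ (p ^ a) - C (v ^ (p ^ a)) = (X - C v) ^ (p ^ a) := by
    rw [sub_pow_char_pow, C_pow]
  have h2 : ∀ j, (X - C v) ^ s ∣
      expand L (p ^ a) (A j) - C ((A j).eval (v ^ (p ^ a))) := by
    intro j
    obtain ⟨B, hB⟩ := X_sub_C_dvd_sub_C_eval (a := v ^ (p ^ a)) (p := A j)
    have h3 := congrArg (expand L (p ^ a)) hB
    rw [map_sub, map_mul, map_sub, expand_X, expand_C, expand_C, h1] at h3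
    rw [h3]
    exact Dvd.dvd.mul_right (pow_dvd_pow _ hs) _
  set R : L[X] := ∑ j ∈ range (s + 1), C ((A j).eval (v ^ (p ^ a))) * X ^ j with hR
  have h3 : (X - C v) ^ s ∣ R := by
    have h4 : R = ∑ j ∈ range (s + 1), X ^ j * expand L (p ^ a) (A j) -
        ∑ j ∈ range (s + 1),
          X ^ j * (expand L (p ^ a) (A j) - C ((A j).eval (v ^ (p ^ a)))) := by
      rw [hR, ← Finset.sum_sub_distrib]
      refine Finset.sum_congr rfl fun j _ => ?_
      ring
    rw [h4]
    exact dvd_sub h (Finset.dvd_sum fun j _ => Dvd.dvd.mul_left (h2 j) _)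
  have hcoef : ∀ n, R.coeff n = if n < s + 1 then (A n).eval (v ^ (p ^ a)) else 0 := by
    intro n
    rw [hR, Polynomial.finsetSum_coeff]
    simp only [coeff_C_mul_X_pow]
    rw [Finset.sum_ite_eq (range (s + 1)) n]
    simp only [Finset.mem_range]
  obtain ⟨K, hK, hE⟩ := quot_deg v s 0 R (by
    intro n hn
    rw [hcoef, if_neg (by omega)]) h3
  rw [Nat.le_zero, natDegree_eq_zero] at hK
  obtain ⟨k, rfl⟩ := hK
  have hk : (A s).eval (v ^ (p ^ a)) = k := by
    have h5 := hcoef s
    rw [hE, coeff_mul_C, pow_coeff_top, one_mul, if_pos (by omega)] at h5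
    exact h5.symm
  intro j hj
  have h5 := hcoef j
  rw [hE, coeff_mul_C, if_pos (by omega)] at h5
  rw [← h5, hk]

theorem eval_reflect (L : Type) [Field L] (c d : L) (hcd : c * d = 1) (N : ℕ) (B : L[X])
    (hB : B.natDegree ≤ N) : (reflect N B).eval c = c ^ N * B.eval d := by
  let inst : Invertible d := ⟨c, hcd, by rw [mul_comm]; exact hcd⟩
  have h := eval₂_reflect_mul_pow (RingHom.id L) d N B hB
  have h1 : (⅟d : L) = c := rfl
  rw [h1] at h
  have h2 : eval₂ (RingHom.id L) c (reflect N B) = (reflect N B).eval c := rfl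
  have h3 : eval₂ (RingHom.id L) d B = B.eval d := rfl
  rw [h2, h3] at h
  rw [← h]
  have h4 : c ^ N * d ^ N = 1 := by rw [← mul_pow, hcd, one_pow]
  linear_combination (-((reflect N B).eval c)) * h4

/-- `f ^ i` is palindromic -/
theorem reflect_fpow (L : Type) [Field L] (i : ℕ) :
    reflect (2 * i) ((X ^ 2 + X + 1 : L[X]) ^ i) = (X ^ 2 + X + 1) ^ i := by
  have hf : reflect 2 (X ^ 2 + X + 1 : L[X]) = X ^ 2 + X + 1 := by
    ext n
    rw [coeff_reflect]
    rcases n with _ | _ | _ | n
    · rw [revAt_le (by norm_num)]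
      simp [coeff_one, coeff_X]
    · rw [revAt_le (by norm_num)]
    · rw [revAt_le (by norm_num)]
      simp [coeff_one, coeff_X]
    · rw [revAt_eq_self_of_lt (by omega)]
  have hd : (X ^ 2 + X + 1 : L[X]).natDegree ≤ 2 := by compute_degree
  induction i with
  | zero => simp
  | succ i ih =>
    rw [pow_succ, mul_add, mul_one, reflect_mul _ _ ?_ hd, ih, hf]
    exact (natDegree_pow_le).trans (by nlinarith)

/-- The window property for palindromic polynomials passes from `t` to `t q + 1`. -/
theorem pal_block (L : Type) [Field L] (p a : ℕ) [hp : Fact p.Prime] [CharP L p] (hp2 : p ≠ 2)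
    (hp3 : p ≠ 3) (w : L) (hw : w ^ 2 + w + 1 = 0) (t s : ℕ) (hs : Odd s) (hst : s ≤ t * p ^ a)
    (hW : ∀ i ≤ t, Win L t i) (hP : ∀ i ≤ t, Odd i → PalWin L (t + 1) i)
    (hX : ∀ i < t, ∀ B : L[X], B.natDegree ≤ t - i →
      (∀ l, i ≤ l → l < t → ((X ^ 2 + X + 1) ^ i * B).coeff l = 0) →
      ∀ c : L, c ^ 2 + c + 1 = 0 →
      (B.eval c) ^ 3 = (-1) ^ (i + 1) * (B.eval (c ^ 2)) ^ 3 → B = 0) :
    PalWin L (t * p ^ a + 1) s := by
  intro G hdvd hhigh hmid hpal
  have hq0 : 0 < p ^ a := pow_pos hp.out.pos a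
  have hqodd : p ^ a % 2 = 1 := Nat.odd_iff.mp ((hp.out.odd_of_ne_two hp2).pow)
  have hs2 : s % 2 = 1 := Nat.odd_iff.mp hs
  have hne := ne_frob L p a hp3 w hw
  have hbr := block_root' L p a
  have hfr := frob_f L p a
  have hrf := root_frob L p a
  generalize p ^ a = q at hst hhigh hmid hpal hq0 hqodd hne hbr hfr hrf
  set f : L[X] := X ^ 2 + X + 1 with hf
  have hfdeg : f.natDegree = 2 := by rw [hf]; compute_degree!
  have hf0 : f ≠ 0 := by
    intro h1
    rw [h1] at hfdeg
    simp at hfdeg
  obtain ⟨P, rfl⟩ := hdvd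
  set s1 := s / q with hs1
  set s' := s % q with hs'
  have hs'q : s' < q := Nat.mod_lt s hq0
  have hseq : s = s' + q * s1 := (Nat.mod_add_div s q).symm
  obtain ⟨A, hA⟩ := exists_block hq0 (f ^ s' * P)
  have hG : f ^ s * P = ∑ j ∈ range q, X ^ j * expand L q (f ^ s1 * A j) := by
    have h1 : f ^ s * P = expand L q (f ^ s1) * (f ^ s' * P) := by
      rw [hseq, pow_add, pow_mul, hfr, map_pow]
      ring
    rw [h1, hA, Finset.mul_sum]
    refine Finset.sum_congr rfl fun j _ => ?_
    rw [map_mul]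
    ring
  have hco : ∀ i < q, ∀ l, (f ^ s * P).coeff (i + q * l) = (f ^ s1 * A i).coeff l := by
    intro i hi l
    rw [hG, coeff_block hq0 _ _ _ hi]
  have hNt : t * q = q * t := mul_comm t q
  have hs1t : s1 ≤ t := by
    rw [hs1]
    exact Nat.div_le_of_le_mul (by rw [← hNt]; exact hst)
  -- the blocks with `s' < i`
  have hbig : ∀ i, s' < i → i < q → A i = 0 := by
    intro i hi hiq
    have h1 : f ^ s1 * A i = 0 := by
      refine hW s1 hs1t _ (dvd_mul_right _ _) ?_ ?_
      · intro l hl
        rw [← hco i hiq l]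
        apply hhigh
        have : q * (s1 + t) ≤ q * l := Nat.mul_le_mul_left q hl
        rw [hseq, hNt]
        rw [mul_add] at this
        omega
      · intro l hl hlt
        rw [← hco i hiq l]
        apply hmid
        · have : q * s1 ≤ q * l := Nat.mul_le_mul_left q hl
          omega
        · have : q * (l + 1) ≤ q * t := Nat.mul_le_mul_left q hlt
          rw [mul_add, mul_one] at this
          omega
    exact (mul_eq_zero.mp h1).resolve_left (pow_ne_zero _ hf0)
  have hH : f ^ s' * P = ∑ j ∈ range (s' + 1), X ^ j * expand L q (A j) := by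
    rw [hA]
    refine (Finset.sum_subset (Finset.range_subset_range.mpr hs'q) ?_).symm
    intro j hj hj'
    rw [Finset.mem_range] at hj hj'
    rw [hbig j (by omega) hj, map_zero, mul_zero]
  -- it suffices that the blocks up to `s'` vanish
  suffices hall : ∀ i ≤ s', A i = 0 by
    rw [hG]
    refine Finset.sum_eq_zero fun j hj => ?_
    rw [Finset.mem_range] at hj
    have h1 : A j = 0 := by
      by_cases h : j ≤ s'
      · exact hall j h
      · exact hbig j (by omega) hj
    rw [h1, mul_zero, map_zero, mul_zero]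
  rcases Nat.eq_zero_or_pos s' with h0 | hpos
  · -- `s = q * s1`
    have hs1odd : Odd s1 := by
      rw [h0, zero_add] at hseq
      rw [hseq] at hs
      exact (Nat.odd_mul.mp hs).2
    intro i hi
    have hi0 : i = 0 := by omega
    subst hi0
    have h1 : f ^ s1 * A 0 = 0 := by
      refine hP s1 hs1t hs1odd _ (dvd_mul_right _ _) ?_ ?_ ?_
      · intro l hl
        rw [← hco 0 hq0 l]
        apply hhigh
        have : q * (s1 + (t + 1)) ≤ q * l := Nat.mul_le_mul_left q hl
        rw [hseq, hNt]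
        rw [mul_add, mul_add, mul_one] at this
        omega
      · intro l hl hlt
        rw [← hco 0 hq0 l]
        apply hmid
        · have : q * s1 ≤ q * l := Nat.mul_le_mul_left q hl
          omega
        · have : q * l ≤ q * t := Nat.mul_le_mul_left q (by omega)
          omega
      · intro i j hij
        rw [← hco 0 hq0 i, ← hco 0 hq0 j]
        apply hpal
        have : q * (i + j) = q * (s1 + t) := by
          congr 1
          omega
        rw [mul_add, mul_add] at this
        omega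
    exact (mul_eq_zero.mp h1).resolve_left (pow_ne_zero _ hf0)
  -- `0 < s' < q`
  have hs1t' : s1 < t := by
    by_contra hc
    have h6 : q * t ≤ q * s1 := Nat.mul_le_mul_left q (by omega)
    rw [hNt] at hst
    omega
  have hTd : (f ^ s1 * A s').natDegree ≤ s1 + t := by
    rw [natDegree_le_iff_coeff_eq_zero]
    intro l hl
    rw [← hco s' hs'q l]
    apply hhigh
    have : q * (s1 + t + 1) ≤ q * l := Nat.mul_le_mul_left q hl
    rw [hseq, hNt]
    rw [mul_add, mul_add, mul_one] at this
    omega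
  have hTdeg : (A s').natDegree ≤ t - s1 := by
    by_cases h1 : A s' = 0
    · rw [h1, natDegree_zero]
      exact Nat.zero_le _
    · rw [natDegree_mul (pow_ne_zero _ hf0) h1, natDegree_pow, hfdeg] at hTd
      omega
  have hrefl : f ^ s1 * A 0 = reflect (s1 + t) (f ^ s1 * A s') := by
    ext l
    rw [coeff_reflect]
    by_cases hl : l ≤ s1 + t
    · rw [revAt_le hl, ← hco 0 hq0 l, ← hco s' hs'q (s1 + t - l)]
      apply hpal
      have : q * l + q * (s1 + t - l) = q * (s1 + t) := by
        rw [← mul_add]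
        congr 1
        omega
      rw [mul_add q s1 t] at this
      omega
    · rw [revAt_eq_self_of_lt (by omega), ← hco 0 hq0 l,
        coeff_eq_zero_of_natDegree_lt (lt_of_le_of_lt hTd (by omega))]
      apply hhigh
      have : q * (s1 + t + 1) ≤ q * l := Nat.mul_le_mul_left q (by omega)
      rw [hseq, hNt]
      rw [mul_add, mul_add, mul_one] at this
      omega
  have hA0 : A 0 = reflect (t - s1) (A s') := by
    have h1 : reflect (s1 + t) (f ^ s1 * A s') = f ^ s1 * reflect (t - s1) (A s') := by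
      rw [show s1 + t = 2 * s1 + (t - s1) by omega, reflect_mul _ _ ?_ hTdeg, hf,
        reflect_fpow L s1]
      rw [natDegree_pow, hfdeg, mul_comm]
    rw [h1] at hrefl
    exact mul_left_cancel₀ (pow_ne_zero _ hf0) hrefl
  -- the values at the roots
  have hval : ∀ v : L, v ^ 2 + v + 1 = 0 → ∀ j ≤ s', (A j).eval (v ^ q) =
      ((X - C v) ^ s' : L[X]).coeff j * (A s').eval (v ^ q) := by
    intro v hv
    refine hbr v A s' hs'q.le ?_
    rw [← hH]
    have h1 : X - C v ∣ f := by
      rw [dvd_iff_isRoot]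
      rw [hf]
      simpa using hv
    exact Dvd.dvd.mul_right (pow_dvd_pow_of_dvd h1 s') P
  have hAs : A s' = 0 := by
    have hc := hrf w hw
    have hc3 : (w ^ q) ^ 3 = 1 := cube_root L _ hc
    have hw3 : w ^ 3 = 1 := cube_root L w hw
    refine hX s1 hs1t' (A s') hTdeg ?_ (w ^ q) hc ?_
    · intro l hl hlt
      rw [← hco s' hs'q l]
      apply hmid
      · have : q * s1 ≤ q * l := Nat.mul_le_mul_left q hl
        omega
      · have : q * (l + 1) ≤ q * t := Nat.mul_le_mul_left q hlt
        rw [mul_add, mul_one] at this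
        omega
    · have h1 := hval w hw 0 (Nat.zero_le _)
      rw [pow_coeff_zero, hA0] at h1
      set c := w ^ q with hcdef
      have hcu : c * c ^ 2 = 1 := by
        rw [← hc3]
        ring
      have h2 : (reflect (t - s1) (A s')).eval c = c ^ (t - s1) * (A s').eval (c ^ 2) := by
        exact eval_reflect L c (c ^ 2) hcu (t - s1) (A s') hTdeg
      rw [h2] at h1
      have h3 : (c ^ (t - s1) * (A s').eval (c ^ 2)) ^ 3 =
          ((-w) ^ s' * (A s').eval c) ^ 3 := by rw [h1]
      have h4 : (c ^ (t - s1)) ^ 3 = 1 := by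
        rw [← pow_mul, mul_comm, pow_mul, hc3, one_pow]
      have h5 : ((-w) ^ s') ^ 3 = (-1) ^ (s1 + 1) := by
        rw [← pow_mul, mul_comm, pow_mul, Odd.neg_pow (by decide), hw3]
        have h6 : s' % 2 = (s1 + 1) % 2 := by
          have h7 : (q * s1) % 2 = s1 % 2 := by
            rw [Nat.mul_mod, hqodd, one_mul, Nat.mod_mod]
          omega
        rw [neg_one_pow_eq_pow_mod_two s', neg_one_pow_eq_pow_mod_two (s1 + 1), h6]
      rw [mul_pow, mul_pow, h4, h5, one_mul] at h3
      have h6 : ((-1 : L) ^ (s1 + 1)) * (-1) ^ (s1 + 1) = 1 := by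
        rw [← mul_pow]
        norm_num
      rw [h3, ← mul_assoc, h6, one_mul]
  intro i hi
  have hz : ∀ v : L, v ^ 2 + v + 1 = 0 → (A i).eval (v ^ q) = 0 := by
    intro v hv
    rw [hval v hv i hi, hAs, eval_zero, mul_zero]
  rcases Nat.lt_or_ge i s' with h1 | h1
  · have hw2 : (w ^ 2) ^ 2 + w ^ 2 + 1 = 0 := root_sq L w hw
    have h2 := hz w hw
    have h3 := hz (w ^ 2) hw2
    have h4 : (w ^ 2) ^ q = (w ^ q) ^ 2 := by ring
    rw [h4] at h3 hne
    have h5 : f ∣ A i := f_dvd L (w ^ q) (hrf w hw) hne (A i) h2 h3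
    have h6 : f ^ s1 * A i = 0 := by
      refine hW (s1 + 1) (by omega) _ ?_ ?_ ?_
      · rw [pow_succ]
        exact mul_dvd_mul_left _ h5
      · intro l hl
        rw [← hco i (by omega) l]
        apply hhigh
        have : q * (s1 + 1 + t) ≤ q * l := Nat.mul_le_mul_left q hl
        rw [hseq, hNt]
        rw [mul_add, mul_add, mul_one] at this
        omega
      · intro l hl hlt
        rw [← hco i (by omega) l]
        apply hmid
        · have : q * (s1 + 1) ≤ q * l := Nat.mul_le_mul_left q hl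
          rw [mul_add, mul_one] at this
          omega
        · have : q * (l + 1) ≤ q * t := Nat.mul_le_mul_left q hlt
          rw [mul_add, mul_one] at this
          omega
    exact (mul_eq_zero.mp h6).resolve_left (pow_ne_zero _ hf0)
  · rw [show i = s' by omega]
    exact hAs

end Pool.Agent.Lib.MP_c1a8e2_al
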