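import Pool.Agent.Lib.MP_c1a8e2_al.h31.Toeplitz

/-!
# A bound for the Toeplitz determinants
-/

set_option autoImplicit false

open Polynomial Finset

namespace Pool.Agent.Lib.MP_c1a8e2_al

/-- The determinant is at most the product of the row sums of the absolute values. -/
theorem abs_det_le {n : ℕ} (A : Matrix (Fin n) (Fin n) ℤ) (x : ℤ)
    (h : ∀ i, ∑ j, |A i j| ≤ x) : |A.det| ≤ x ^ n := by
  rw [← Matrix.det_transpose, Matrix.det_apply']
  refine (Finset.abs_sum_le_sum_abs _ _).trans ?_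
  have h1 : ∀ σ : Equiv.Perm (Fin n),
      |((Equiv.Perm.sign σ : ℤ) : ℤ) * ∏ i, A.transpose (σ i) i| = ∏ i, |A i (σ i)| := by
    intro σ
    rw [abs_mul, Finset.abs_prod]
    have h2 : |((Equiv.Perm.sign σ : ℤ) : ℤ)| = 1 := by
      rcases Int.units_eq_one_or (Equiv.Perm.sign σ) with h | h <;> rw [h] <;> simp
    rw [h2, one_mul]
    rfl
  calc ∑ σ : Equiv.Perm (Fin n), |((Equiv.Perm.sign σ : ℤ) : ℤ) * ∏ i, A.transpose (σ i) i|
      = ∑ σ : Equiv.Perm (Fin n), ∏ i, |A i (σ i)| := Finset.sum_congr rfl fun σ _ => h1 σ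
    _ = ∑ f ∈ (Finset.univ : Finset (Equiv.Perm (Fin n))).map
          (⟨fun (σ : Equiv.Perm (Fin n)) (i : Fin n) => σ i,
            fun σ τ hστ => Equiv.ext fun i => congrFun hστ i⟩ :
            Equiv.Perm (Fin n) ↪ (Fin n → Fin n)), ∏ i, |A i (f i)| := by
        rw [Finset.sum_map]
        rfl
    _ ≤ ∑ f : Fin n → Fin n, ∏ i, |A i (f i)| :=
        Finset.sum_le_sum_of_subset_of_nonneg (Finset.subset_univ _)
          fun f _ _ => Finset.prod_nonneg fun i _ => abs_nonneg _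
    _ = ∏ i, ∑ j, |A i j| := by
        rw [Finset.prod_univ_sum]
        simp
    _ ≤ ∏ _i : Fin n, x :=
        Finset.prod_le_prod (fun i _ => Finset.sum_nonneg fun j _ => abs_nonneg _)
          fun i _ => h i
    _ = x ^ n := by simp

theorem coeff_nonneg (i n : ℕ) : 0 ≤ ((X ^ 2 + X + 1 : ℤ[X]) ^ i).coeff n := by
  have h : (X ^ 2 + X + 1 : ℤ[X]) ^ i =
      ((X ^ 2 + X + 1 : ℕ[X]) ^ i).map (Nat.castRingHom ℤ) := by simp
  rw [h, coeff_map]
  exact Int.natCast_nonneg _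

theorem sum_coeff_le (i m : ℕ) :
    ∑ n ∈ range m, ((X ^ 2 + X + 1 : ℤ[X]) ^ i).coeff n ≤ 3 ^ i := by
  have h1 : ((X ^ 2 + X + 1 : ℤ[X]) ^ i).eval 1 = 3 ^ i := by
    rw [eval_pow]
    norm_num
  set g : ℤ[X] := (X ^ 2 + X + 1) ^ i with hg
  rw [← h1, eval_eq_sum_range' (lt_of_lt_of_le (Nat.lt_succ_self _)
    (le_max_right m (g.natDegree + 1)))]
  simp only [one_pow, mul_one]
  exact Finset.sum_le_sum_of_subset_of_nonneg
    (Finset.range_subset_range.mpr (le_max_left _ _)) fun n _ _ => coeff_nonneg i n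

theorem toep_row (i t : ℕ) (a : Fin (t - i)) : ∑ b, |toep i t a b| ≤ 3 ^ i := by
  have h0 : ∀ b : Fin (t - i), |toep i t a b| =
      (fun b : ℕ => if b ≤ i + a then ((X ^ 2 + X + 1 : ℤ[X]) ^ i).coeff (i + a - b) else 0)
        (b : ℕ) := by
    intro b
    unfold toep
    simp only
    split_ifs with h
    · exact abs_of_nonneg (coeff_nonneg _ _)
    · exact abs_zero
  rw [Finset.sum_congr rfl fun b _ => h0 b,
    Fin.sum_univ_eq_sum_range (fun b : ℕ => if b ≤ i + a then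
      ((X ^ 2 + X + 1 : ℤ[X]) ^ i).coeff (i + a - b) else 0) (t - i),
    ← Finset.sum_filter]
  calc ∑ b ∈ (range (t - i)).filter (fun b => b ≤ i + a),
        ((X ^ 2 + X + 1 : ℤ[X]) ^ i).coeff (i + a - b)
      ≤ ∑ b ∈ range (i + a + 1), ((X ^ 2 + X + 1 : ℤ[X]) ^ i).coeff (i + a - b) := by
        refine Finset.sum_le_sum_of_subset_of_nonneg ?_ fun n _ _ => coeff_nonneg i _
        intro b hb
        rw [Finset.mem_filter] at hb
        rw [Finset.mem_range]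
        omega
    _ = ∑ n ∈ range (i + a + 1), ((X ^ 2 + X + 1 : ℤ[X]) ^ i).coeff n := by
        have h2 := Finset.sum_range_reflect
          (fun n => ((X ^ 2 + X + 1 : ℤ[X]) ^ i).coeff n) (i + a + 1)
        rw [← h2]
        refine Finset.sum_congr rfl fun b _ => ?_
        congr 1
    _ ≤ 3 ^ i := sum_coeff_le i _

/-- A prime `p > 3 ^ (t ^ 2 / 4)` does not divide a nonzero determinant for `t`. -/
theorem not_dvd_toep (i t p : ℕ) (hit : i ≤ t) (hp : 3 ^ (t ^ 2 / 4) < p)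
    (h : (toep i t).det ≠ 0) : ¬ (p : ℤ) ∣ (toep i t).det := by
  intro hdvd
  have h1 := abs_det_le (toep i t) (3 ^ i) (toep_row i t)
  rw [← pow_mul] at h1
  have h2 : i * (t - i) ≤ t ^ 2 / 4 := by
    rw [Nat.le_div_iff_mul_le (by norm_num)]
    obtain ⟨c, rfl⟩ := Nat.exists_eq_add_of_le hit
    rw [Nat.add_sub_cancel_left]
    nlinarith [sq_nonneg ((i : ℤ) - c), Nat.zero_le i, Nat.zero_le c,
      (by
        have h5 : (0 : ℤ) ≤ ((i : ℤ) - c) ^ 2 := sq_nonneg _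
        have h6 : (i : ℤ) * c * 4 ≤ ((i : ℤ) + c) ^ 2 := by nlinarith
        exact_mod_cast h6 : i * c * 4 ≤ (i + c) ^ 2)]
  have h3 : |(toep i t).det| ≤ 3 ^ (t ^ 2 / 4) :=
    h1.trans (pow_le_pow_right₀ (by norm_num) h2)
  have h4 := Int.le_of_dvd (abs_pos.mpr h) ((dvd_abs _ _).mpr hdvd)
  have h5 : ((3 ^ (t ^ 2 / 4) : ℕ) : ℤ) < p := by exact_mod_cast hp
  rw [Nat.cast_pow] at h5
  exact absurd (h4.trans h3) (not_le.mpr (by exact_mod_cast h5))

end Pool.Agent.Lib.MP_c1a8e2_al
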