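import Mathlib

/-!
# The algebra for `m + 1 = p ± 4`
-/

set_option autoImplicit false

namespace Pool.Agent.Lib.MP_c1a8e2_al

section

variable {L : Type} [Field L]

/-- `Z = 1` -/
theorem core4_zero (v x b c k0 k1 k2 k3 : L) (hv : v ^ 2 + v + 1 = 0) (h2 : (2 : L) ≠ 0)
    (h3 : (3 : L) ≠ 0) (hb : 2 * b = x * (x - 1))
    (e1 : k3 = -k0)
    (e2 : k2 - x * v * k3 = -k1 + x * v ^ 2 * k0)
    (e3 : k1 - x * v * k2 + b * v ^ 2 * k3 = -k2 + x * v ^ 2 * k1 - b * v * k0)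
    (e4 : k0 - x * v * k1 + b * v ^ 2 * k2 - c * k3 =
      -k3 + x * v ^ 2 * k2 - b * v * k1 + c * k0)
    (hx0 : x ≠ 0) (hx3 : x ≠ 3) (hx3' : x ≠ -3) : k0 = 0 ∧ k1 = 0 ∧ k2 = 0 ∧ k3 = 0 := by
  have hv0 : v ≠ 0 := by
    rintro rfl
    simp at hv
  have hd : v - v ^ 2 ≠ 0 := by
    intro h
    have h5 : (v - v ^ 2) ^ 2 = -3 := by grind
    rw [h] at h5
    apply h3
    linear_combination h5
  have s1 : (v - v ^ 2) * (x * (2 * k1 + (x * (v - v ^ 2) - 3) * k0)) = 0 := by grind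
  have s2 : 2 * k1 + (x * (v - v ^ 2) - 3) * k0 = 0 :=
    (mul_eq_zero.mp ((mul_eq_zero.mp s1).resolve_left hd)).resolve_left hx0
  have s3 : x * (x - 3) * (v * (k1 + v * k2)) = 0 := by grind
  have s4 : k1 + v * k2 = 0 := by
    refine (mul_eq_zero.mp ((mul_eq_zero.mp s3).resolve_left ?_)).resolve_left hv0
    exact mul_ne_zero hx0 (sub_ne_zero.mpr hx3)
  have s5 : (v - v ^ 2) * ((x + 3) * k0) = 0 := by grind
  have s6 : k0 = 0 := by
    refine (mul_eq_zero.mp ((mul_eq_zero.mp s5).resolve_left hd)).resolve_left ?_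
    intro h
    apply hx3'
    linear_combination h
  have s7 : k1 = 0 := by
    rw [s6] at s2
    have : 2 * k1 = 0 := by linear_combination s2
    exact (mul_eq_zero.mp this).resolve_left h2
  refine ⟨s6, s7, ?_, ?_⟩
  · rw [s7] at s4
    have : v * k2 = 0 := by linear_combination s4
    exact (mul_eq_zero.mp this).resolve_left hv0
  · rw [e1, s6, neg_zero]

/-- `Z = v` -/
theorem core4_one (v x b c k0 k1 k2 k3 : L) (hv : v ^ 2 + v + 1 = 0) (h2 : (2 : L) ≠ 0)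
    (h3 : (3 : L) ≠ 0) (hb : 2 * b = x * (x - 1))
    (e1 : k3 = -(v * k0))
    (e2 : k2 - x * v * k3 = -v * k1 + x * v * v ^ 2 * k0)
    (e3 : k1 - x * v * k2 + b * v ^ 2 * k3 = -v * k2 + x * v * v ^ 2 * k1 - b * v * v * k0)
    (e4 : k0 - x * v * k1 + b * v ^ 2 * k2 - c * k3 =
      -v * k3 + x * v * v ^ 2 * k2 - b * v * v * k1 + c * v * k0)
    (hx1 : x ≠ 1) (hx2 : x ≠ -2) : k0 = 0 ∧ k1 = 0 ∧ k2 = 0 ∧ k3 = 0 := by
  have hv0 : v ≠ 0 := by
    rintro rfl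
    simp at hv
  have hd : 1 - v ^ 2 ≠ 0 := by
    intro h
    have h5 : (v * (1 - v ^ 2)) ^ 2 = -3 * v := by grind
    rw [h] at h5
    have h6 : 3 * v = 0 := by linear_combination h5
    rcases mul_eq_zero.mp h6 with h7 | h7
    · exact h3 h7
    · exact hv0 h7
  have hv3 : v ^ 3 = 1 := by grind
  have e2' : k2 = x * (1 - v ^ 2) * k0 - v * k1 := by
    rw [e1] at e2
    linear_combination e2 + x * k0 * hv3
  have s1 : (1 - v ^ 2) * ((1 - x) * (2 * k1 + x * (v - v ^ 2) * k0)) = 0 := by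
    rw [e1, e2'] at e3
    linear_combination 2 * e3 + (2 * x * k1 + x * (1 - x) * v * k0) * hv3 +
      k0 * (v ^ 3 - v ^ 2) * hb
  have s2 : 2 * k1 + x * (v - v ^ 2) * k0 = 0 :=
    (mul_eq_zero.mp ((mul_eq_zero.mp s1).resolve_left hd)).resolve_left
      (sub_ne_zero.mpr hx1.symm)
  have s3 : (1 - v ^ 2) * ((1 - x) * (x + 2) ^ 2 * k0) = 0 := by
    rw [e1, e2'] at e4
    linear_combination 4 * e4 - 4 * (k1 * (x * v - b) - k0 * x ^ 2 * (1 - v ^ 2)) * hv3 +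
      (1 - v ^ 2) * 2 * b * s2 - (1 - v ^ 2) * k0 * x * (v + v ^ 2) * hb -
      (1 - v ^ 2) * k0 * x ^ 2 * (x - 1) * hv
  have s4 : k0 = 0 := by
    refine (mul_eq_zero.mp ((mul_eq_zero.mp s3).resolve_left hd)).resolve_left ?_
    refine mul_ne_zero (sub_ne_zero.mpr hx1.symm) (pow_ne_zero 2 ?_)
    intro h
    apply hx2
    linear_combination h
  have s5 : k1 = 0 := by
    rw [s4] at s2
    have : 2 * k1 = 0 := by linear_combination s2
    exact (mul_eq_zero.mp this).resolve_left h2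
  refine ⟨s4, s5, ?_, ?_⟩
  · rw [e1, s4, s5] at e2
    linear_combination e2
  · rw [e1, s4, mul_zero, neg_zero]

/-- `Z = v ^ 2` -/
theorem core4_two (v x b c k0 k1 k2 k3 : L) (hv : v ^ 2 + v + 1 = 0) (h2 : (2 : L) ≠ 0)
    (h3 : (3 : L) ≠ 0) (hb : 2 * b = x * (x - 1))
    (e1 : k3 = -(v ^ 2 * k0))
    (e2 : k2 - x * v * k3 = -v ^ 2 * k1 + x * v ^ 2 * v ^ 2 * k0)
    (e3 : k1 - x * v * k2 + b * v ^ 2 * k3 =
      -v ^ 2 * k2 + x * v ^ 2 * v ^ 2 * k1 - b * v ^ 2 * v * k0)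
    (e4 : k0 - x * v * k1 + b * v ^ 2 * k2 - c * k3 =
      -v ^ 2 * k3 + x * v ^ 2 * v ^ 2 * k2 - b * v ^ 2 * v * k1 + c * v ^ 2 * k0)
    (hx1 : x ≠ -1) (hx2 : x ≠ 2) : k0 = 0 ∧ k1 = 0 ∧ k2 = 0 ∧ k3 = 0 := by
  have hd : 1 - v ≠ 0 := by
    intro h
    have h5 : (1 - v) ^ 2 = -3 * v := by grind
    rw [h] at h5
    have hv1 : v = 1 := by linear_combination -h
    rw [hv1] at h5
    apply h3
    linear_combination h5
  have hv3 : v ^ 3 = 1 := by grind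
  have e2' : k2 = -x * (1 - v) * k0 - v ^ 2 * k1 := by
    rw [e1] at e2
    linear_combination e2 + x * (v - 1) * k0 * hv3
  have s1 : (1 - v) * ((1 + x) * (2 * k1 + x * (v - v ^ 2) * k0)) = 0 := by
    rw [e1, e2'] at e3
    linear_combination 2 * e3 - (2 * (x - x * v - v) * k1 + (1 - v) * k0 * (x ^ 2 - x)) * hv3 -
      (1 - v) * k0 * x * (x - 1) * hv - (1 - v) * k0 * v ^ 3 * hb
  have hx1' : 1 + x ≠ 0 := by
    intro h
    apply hx1
    linear_combination h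
  have s2 : 2 * k1 + x * (v - v ^ 2) * k0 = 0 :=
    (mul_eq_zero.mp ((mul_eq_zero.mp s1).resolve_left hd)).resolve_left hx1'
  have s3 : (1 - v) * ((1 + x) * (x - 2) ^ 2 * k0) = 0 := by
    rw [e1, e2'] at e4
    linear_combination 4 * e4 -
      4 * (k1 * (b - b * v + x * (v ^ 3 + 1)) + k0 * (-v + x ^ 2 * (1 - v) * v)) * hv3 -
      (1 - v) * 2 * (b + x) * s2 + (1 - v) * k0 * x * (v + v ^ 2) * hb -
      (1 - v) * k0 * x ^ 2 * (3 - x) * hv
  have s4 : k0 = 0 := by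
    refine (mul_eq_zero.mp ((mul_eq_zero.mp s3).resolve_left hd)).resolve_left ?_
    exact mul_ne_zero hx1' (pow_ne_zero 2 (sub_ne_zero.mpr hx2))
  have s5 : k1 = 0 := by
    rw [s4] at s2
    have : 2 * k1 = 0 := by linear_combination s2
    exact (mul_eq_zero.mp this).resolve_left h2
  refine ⟨s4, s5, ?_, ?_⟩
  · rw [e1, s4, s5] at e2
    linear_combination e2
  · rw [e1, s4, mul_zero, neg_zero]

end

end Pool.Agent.Lib.MP_c1a8e2_al
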