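import Pool.Agent.Lib.MP_c1a8e2_al.h18.Event2
import Pool.Agent.Lib.MP_c1a8e2_al.h30.Final

/-!
# Two variables: single degrees, for every `n`
-/

set_option autoImplicit false

namespace Pool.Agent.Lib.MP_c1a8e2_al

open Polynomial in
/-- From `(r, s)` to `(t q + r, t q + s)`, `q = p ^ a`, if `r + s ≤ q` and `p` is prime to the
central coefficient of `(1 + x + x ^ 2) ^ t`. -/
theorem pal_reduce (L : Type) [Field L] (p a t r s : ℕ) [hp : Fact p.Prime] [CharP L p]
    (hrs : r + s ≤ p ^ a)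
    (ht : ¬ (p : ℤ) ∣ ((Polynomial.X ^ 2 + Polynomial.X + 1 : Polynomial ℤ) ^ t).coeff t)
    (h : PalWin L r s) : PalWin L (t * p ^ a + r) (t * p ^ a + s) := by
  intro G hdvd hhigh hmid hpal
  obtain ⟨P, rfl⟩ := hdvd
  have hfdeg : (X ^ 2 + X + 1 : L[X]).natDegree = 2 := by compute_degree!
  have hf0 : (X ^ 2 + X + 1 : L[X]) ≠ 0 := by
    intro h1
    rw [h1] at hfdeg
    simp at hfdeg
  have hq0 : 0 < p ^ a := pow_pos hp.out.pos a
  have hfr := frob_f L p a
  have hMt : ((X ^ 2 + X + 1 : L[X]) ^ t).coeff t ≠ 0 := by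
    rw [f_map]
    intro h0
    rw [CharP.intCast_eq_zero_iff L p] at h0
    exact ht h0
  generalize p ^ a = q at hrs hhigh hmid hpal hq0 hfr
  set H : L[X] := (X ^ 2 + X + 1) ^ s * P with hH
  have hGH : (X ^ 2 + X + 1 : L[X]) ^ (t * q + s) * P = (X ^ 2 + X + 1) ^ (t * q) * H := by
    rw [hH, pow_add]
    ring
  rw [hGH] at hhigh hmid hpal ⊢
  by_cases hH0 : H = 0
  · rw [hH0, mul_zero]
  exfalso
  have hdeg : H.natDegree < s + r := by
    have h1 : ((X ^ 2 + X + 1 : L[X]) ^ (t * q) * H).natDegree =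
        t * q * 2 + H.natDegree := by
      rw [natDegree_mul (pow_ne_zero _ hf0) hH0, natDegree_pow, hfdeg]
    by_contra hc
    have h2 := hhigh _ (show t * q + s + (t * q + r) ≤
        ((X ^ 2 + X + 1 : L[X]) ^ (t * q) * H).natDegree by rw [h1]; omega)
    rw [coeff_natDegree, leadingCoeff_eq_zero] at h2
    exact (mul_ne_zero (pow_ne_zero _ hf0) hH0) h2
  have hexp : (X ^ 2 + X + 1 : L[X]) ^ (t * q) * H = ∑ j ∈ Finset.range q,
      X ^ j * expand L q ((X ^ 2 + X + 1) ^ t * C (H.coeff j)) := by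
    rw [mul_comm t q, pow_mul, hfr, ← map_pow]
    conv_lhs => rw [H.as_sum_range_C_mul_X_pow' (n := q) (by omega)]
    rw [Finset.mul_sum]
    refine Finset.sum_congr rfl fun j _ => ?_
    rw [map_mul, expand_C]
    ring
  have hco : ∀ j < q, ((X ^ 2 + X + 1 : L[X]) ^ (t * q) * H).coeff (j + q * t) =
      ((X ^ 2 + X + 1 : L[X]) ^ t).coeff t * H.coeff j := by
    intro j hj
    rw [hexp, coeff_block hq0 _ _ _ hj, coeff_mul_C]
  have hqt : q * t = t * q := mul_comm q t
  apply hH0
  refine h H (dvd_mul_right _ _) ?_ ?_ ?_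
  · intro n hn
    exact coeff_eq_zero_of_natDegree_lt (by omega)
  · intro n hn hnr
    have h3 := hmid (n + q * t) (by omega) (by omega)
    rw [hco n (by omega)] at h3
    exact (mul_eq_zero.mp h3).resolve_left hMt
  · intro i j hij
    have h3 := hpal (i + q * t) (j + q * t) (by omega)
    rw [hco i (by omega), hco j (by omega)] at h3
    exact mul_left_cancel₀ hMt h3

open Classical in
/-- The degrees `d` in which the matrix is nonsingular for every `m`. -/
theorem det_MD_ne (m d : ℕ) (h : d ≤ m + 1 ∨ Even (d + m) ∨ 2 * m < d ∨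
    (∃ p a t e : ℕ, p.Prime ∧ (e = 0 ∨ e = 1 ∧ p ≠ 2) ∧ d = m + (t * p ^ a + e) ∧
      m + 1 + e ≤ (t + 1) * p ^ a ∧
      ¬ (p : ℤ) ∣ ((Polynomial.X ^ 2 + Polynomial.X + 1 : Polynomial ℤ) ^ t).coeff t) ∨
    (∃ p a t : ℕ, p.Prime ∧ 5 ≤ p ∧ ¬ 3 ∣ t ∧ d < m + p ^ a ∧
      (m + 2 = t * p ^ a ∨ m + 1 = t * p ^ a ∨ m = t * p ^ a))) :
    (MD m d).det ≠ 0 := by
  have key : ∀ (K : Type) [Field K], DegOK K m d → (MD m d).det ≠ 0 := by
    intro K _ hOK h0
    rw [degOK_iff, h0] at hOK
    simp at hOK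
  rcases Nat.lt_or_ge (2 * m) d with hd | hd
  · refine key ℚ fun c hc _ => ?_
    funext l
    by_contra hne
    have h1 := hc l hne
    have h2 := l.2.2 0
    have h3 := l.2.2 1
    omega
  rcases Nat.even_or_odd (d - m) with he | ho
  · obtain ⟨w, hw⟩ := exists_root_f ℂ
    exact key ℂ (degOK_of_palWin ℂ w hw d hd (palWin_even (m + 1) (d - m) he (by omega)))
  rcases h with h | h | h | ⟨p, a, t, e, hp, he, hdq, hq, ht⟩ | ⟨p, a, t, hp, hp5, ht, hdq, hN⟩
  · have h1 : d - m = 1 := by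
      have := ho.pos
      omega
    obtain ⟨w, hw⟩ := exists_root_f ℂ
    refine key ℂ (degOK_of_palWin ℂ w hw d hd ?_)
    rw [h1]
    exact palWin_one w hw (m + 1) (by omega)
  · exfalso
    obtain ⟨i, hi⟩ := h
    obtain ⟨j, hj⟩ := ho
    omega
  · omega
  · have : Fact p.Prime := ⟨hp⟩
    obtain ⟨w, hw⟩ := exists_root_f (AlgebraicClosure (ZMod p))
    refine key (AlgebraicClosure (ZMod p)) (degOK_of_palWin _ w hw d hd ?_)
    have htq : (t + 1) * p ^ a = t * p ^ a + p ^ a := by ring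
    obtain ⟨r, hr⟩ : ∃ r, m + 1 = t * p ^ a + r := ⟨m + 1 - t * p ^ a, by omega⟩
    rw [hdq, Nat.add_sub_cancel_left, hr]
    refine pal_reduce _ p a t r e (by omega) ht ?_
    rcases he with rfl | ⟨rfl, hp2⟩
    · exact (win_zero _ r).pal
    · exact palWin_one' _ (two_ne _ p hp2) w hw r (by omega)
  · have : Fact p.Prime := ⟨hp⟩
    obtain ⟨w, hw⟩ := exists_root_f (AlgebraicClosure (ZMod p))
    refine key (AlgebraicClosure (ZMod p)) (degOK_of_palWin _ w hw d hd ?_)
    have hq0 : 0 < p ^ a := pow_pos hp.pos a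
    exact palWin_small _ p a (by omega) (by omega) w hw t (d - m) (m + 1) ho (by omega)
      (by omega) ht (by omega)

open Classical in
/-- In degree `m + s`, `s` bounded, the matrix is nonsingular for all large `m`. -/
theorem det_MD_eventually : ∃ n₀ : ℕ → ℕ, ∀ m d c : ℕ, d ≤ m + 2 + c → n₀ c ≤ m + 2 →
    (MD m d).det ≠ 0 := by
  have h1 : ∀ s : ℕ, ∃ N0 : ℕ, Odd s → ∀ N, N0 ≤ N → PalWin ℂ N s := by
    intro s
    by_cases hs : Odd s
    · obtain ⟨N0, h⟩ := palWin_eventually s hs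
      exact ⟨N0, fun _ => h⟩
    · exact ⟨0, fun h => absurd h hs⟩
  choose F hF using h1
  refine ⟨fun c => ∑ s ∈ Finset.range (c + 3), F s + 1, fun m d c hd hc => ?_⟩
  rcases Nat.lt_or_ge (2 * m) d with h2 | h2
  · exact det_MD_ne m d (Or.inr (Or.inr (Or.inl h2)))
  rcases Nat.even_or_odd (d - m) with he | ho
  · refine det_MD_ne m d ?_
    rcases Nat.lt_or_ge m d with h3 | h3
    · refine Or.inr (Or.inl ?_)
      obtain ⟨i, hi⟩ := he
      exact ⟨i + m, by omega⟩
    · exact Or.inl (by omega)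
  · obtain ⟨w, hw⟩ := exists_root_f ℂ
    have h3 : F (d - m) ≤ ∑ s ∈ Finset.range (c + 3), F s :=
      Finset.single_le_sum (f := F) (fun _ _ => Nat.zero_le _)
        (Finset.mem_range.mpr (by omega))
    have h4 := degOK_of_palWin ℂ w hw d h2 (hF (d - m) ho (m + 1) (by
      simp only at hc
      omega))
    intro h0
    rw [degOK_iff, h0] at h4
    simp at h4

open MvPolynomial

variable {R : Type*} [CommRing R]

theorem coeff_mul_psum_box (m : ℕ) (g : MvPolynomial (Fin 2) R) (N : ℕ) (hN : m < N)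
    (b : Box 2 m) : coeff (ex b.1) (g * psum (Fin 2) R N) = 0 := by
  rw [psum, Finset.mul_sum, coeff_sum]
  refine Finset.sum_eq_zero fun i _ => ?_
  rw [X_pow_eq_monomial, coeff_mul_monomial', if_neg]
  intro h
  have h1 := h i
  rw [Finsupp.single_eq_same, ex_apply] at h1
  have h2 := b.2.2 i
  omega

open Classical in
theorem existsUnique_of_det [Algebra ℚ R] (m d : ℕ) (hdet : (MD m d).det ≠ 0)
    (f : MvPolynomial (Fin 2) R) (hf : f.IsSymmetric) (hfd : f.IsHomogeneous d) :
    ∃! c : Box 2 m → R, (∀ l, l.1 0 + l.1 1 ≠ d → c l = 0) ∧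
      ∃ g : Fin 2 → MvPolynomial (Fin 2) R, (∀ i, (g i).IsSymmetric) ∧
        f = ∑ l, c l • hConj 2 m R l.1 + ∑ i, g i * psum (Fin 2) R (m + 1 + i) := by
  set M : Matrix (DBox m d) (DBox m d) R := (Int.castRingHom R).mapMatrix (MD m d) with hM
  have hMdet : M.det = (((MD m d).det : ℤ) : R) := by
    rw [hM, ← RingHom.map_det]
    rfl
  have hunit : IsUnit M.det := by
    rw [hMdet]
    have h1 : IsUnit ((((MD m d).det : ℤ) : ℚ)) := IsUnit.mk0 _ (by exact_mod_cast hdet)
    have h2 := h1.map (algebraMap ℚ R)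
    rwa [map_intCast] at h2
  have hsum : ∀ (g : Box 2 m → R), (∀ l, l.1 0 + l.1 1 ≠ d → g l = 0) →
      ∑ l, g l = ∑ l : DBox m d, g l.1 := by
    intro g hg
    rw [← Finset.sum_subtype (Finset.univ.filter fun l : Box 2 m => l.1 0 + l.1 1 = d)
      (by simp) g, Finset.sum_filter]
    refine Finset.sum_congr rfl fun l _ => ?_
    split_ifs with h
    · rfl
    · exact hg l h
  have hentry : ∀ l b : DBox m d, M l b = coeff (ex b.1.1) (hConj 2 m R l.1.1) := by
    intro l b
    rw [coeff_hConj_eq]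
    rfl
  -- the coefficients of a combination at the monomials of the box
  have hcomb : ∀ (c : Box 2 m → R), (∀ l, l.1 0 + l.1 1 ≠ d → c l = 0) → ∀ b : DBox m d,
      coeff (ex b.1.1) (∑ l, c l • hConj 2 m R l.1) =
        (Matrix.vecMul (fun l : DBox m d => c l.1) M) b := by
    intro c hc b
    rw [coeff_sum]
    simp only [coeff_smul, smul_eq_mul]
    rw [hsum]
    · simp only [Matrix.vecMul, dotProduct, hentry]
    · intro l hl
      rw [hc l hl, zero_mul]
  set t : DBox m d → R := fun b => coeff (ex b.1.1) f with ht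
  set v : DBox m d → R := Matrix.vecMul t M⁻¹ with hv
  have hvM : Matrix.vecMul v M = t := by
    rw [hv, Matrix.vecMul_vecMul, Matrix.nonsing_inv_mul _ hunit, Matrix.vecMul_one]
  refine ⟨fun l => if h : l.1 0 + l.1 1 = d then v ⟨l, h⟩ else 0, ⟨?_, ?_⟩, ?_⟩
  · intro l hl
    exact dif_neg hl
  · set c : Box 2 m → R := fun l => if h : l.1 0 + l.1 1 = d then v ⟨l, h⟩ else 0 with hc
    have hc0 : ∀ l, l.1 0 + l.1 1 ≠ d → c l = 0 := fun l hl => dif_neg hl
    have hcv : (fun l : DBox m d => c l.1) = v := by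
      funext l
      exact dif_pos l.2
    set r : MvPolynomial (Fin 2) R := f - ∑ l, c l • hConj 2 m R l.1 with hr
    have hrs : r.IsSymmetric := by
      refine IsSymmetric.sub hf ?_
      exact Subalgebra.sum_mem (symmetricSubalgebra (Fin 2) R)
        (fun l _ => IsSymmetric.smul _ (hConj_isSymmetric l.1))
    have hrb : ∀ b : Box 2 m, coeff (ex b.1) r = 0 := by
      intro b
      rw [hr, coeff_sub]
      by_cases hb : b.1 0 + b.1 1 = d
      · rw [hcomb c hc0 ⟨b, hb⟩, hcv, hvM, ht]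
        exact sub_self _
      · have h1 : coeff (ex b.1) f = 0 := by
          by_contra hne
          have h2 := hfd hne
          apply hb
          rw [← h2, Finsupp.weight_apply]
          simp [Finsupp.sum_fintype, Fin.sum_univ_two, ex_apply]
        rw [h1, coeff_sum, zero_sub, neg_eq_zero]
        refine Finset.sum_eq_zero fun l _ => ?_
        rw [coeff_smul, smul_eq_mul]
        by_cases hl : l.1 0 + l.1 1 = d
        · have h3 : coeff (ex b.1) (hConj 2 m R l.1) = 0 := by
            by_contra hne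
            have h4 := coeff_hConj l.1 l.2.2 _ hne
            rw [Fin.sum_univ_two, Fin.sum_univ_two, ex_apply, ex_apply] at h4
            omega
          rw [h3, mul_zero]
        · rw [hc0 l hl, zero_mul]
    have h0 := coeff_eq_zero_of_box r hrs hrb
    have h1 : r ∈ JJ 2 m R r.totalDegree := by
      refine big_mem_JJ r hrs _ le_rfl fun w hw => ?_
      by_contra hcon
      push Not at hcon
      exact hw (h0 w hcon)
    obtain ⟨g, hg, hrg⟩ := JJ_exists _ r h1
    refine ⟨g, hg, ?_⟩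
    rw [← hrg, hr]
    ring
  · rintro c' ⟨hc'0, g, hg, hfg⟩
    have h1 : Matrix.vecMul (fun l : DBox m d => c' l.1) M = t := by
      funext b
      rw [← hcomb c' hc'0 b, ht]
      have h2 := congrArg (coeff (ex b.1.1)) hfg
      simp only [coeff_add, Fin.sum_univ_two] at h2
      rw [coeff_mul_psum_box m _ _ (by simp), coeff_mul_psum_box m _ _ (by simp)] at h2
      rw [add_zero, add_zero] at h2
      exact h2.symm
    have h3 : (fun l : DBox m d => c' l.1) = v := by
      have h4 : Matrix.vecMul (Matrix.vecMul (fun l : DBox m d => c' l.1) M) M⁻¹ =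
          fun l : DBox m d => c' l.1 := by
        rw [Matrix.vecMul_vecMul, Matrix.mul_nonsing_inv _ hunit, Matrix.vecMul_one]
      rw [← h4, h1]
    funext l
    by_cases hl : l.1 0 + l.1 1 = d
    · rw [dif_pos hl, ← h3]
    · rw [dif_neg hl, hc'0 l hl]

end Pool.Agent.Lib.MP_c1a8e2_al
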