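import Pool.Agent.Lib.MP_c1a8e2_al.h18.Minus
import Pool.Agent.Lib.MP_c1a8e2_al.h18.Blk

/-!
# Two variables: small multiplicities `s < q` for `m + 1 = t q`, `t q ± 1`
-/

set_option autoImplicit false

open Polynomial Finset

namespace Pool.Agent.Lib.MP_c1a8e2_al

/-- `pal_block` with the hypotheses at `⌊s / q⌋`, `⌊s / q⌋ + 1` only. -/
theorem pal_block_local (L : Type) [Field L] (p a : ℕ) [hp : Fact p.Prime] [CharP L p] (hp2 : p ≠ 2)
    (hp3 : p ≠ 3) (w : L) (hw : w ^ 2 + w + 1 = 0) (t s : ℕ) (hs : Odd s) (hst : s ≤ t * p ^ a)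
    (hW : ∀ i ≤ t, i = s / p ^ a ∨ i = s / p ^ a + 1 → Win L t i)
    (hP : ∀ i ≤ t, i = s / p ^ a → Odd i → PalWin L (t + 1) i)
    (hX : ∀ i < t, i = s / p ^ a → ∀ B : L[X], B.natDegree ≤ t - i →
      (∀ l, i ≤ l → l < t → ((X ^ 2 + X + 1) ^ i * B).coeff l = 0) →
      ∀ c : L, c ^ 2 + c + 1 = 0 →
      (B.eval c) ^ 3 = (-1) ^ (i + 1) * (B.eval (c ^ 2)) ^ 3 → B = 0) :
    PalWin L (t * p ^ a + 1) s := by
  intro G hdvd hhigh hmid hpal
  have hq0 : 0 < p ^ a := pow_pos hp.out.pos a
  have hqodd : p ^ a % 2 = 1 := Nat.odd_iff.mp ((hp.out.odd_of_ne_two hp2).pow)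
  have hs2 : s % 2 = 1 := Nat.odd_iff.mp hs
  have hne := ne_frob L p a hp3 w hw
  have hbr := block_root' L p a
  have hfr := frob_f L p a
  have hrf := root_frob L p a
  generalize p ^ a = q at hst hW hP hX hhigh hmid hpal hq0 hqodd hne hbr hfr hrf
  set f : L[X] := X ^ 2 + X + 1 with hf
  have hfdeg : f.natDegree = 2 := by rw [hf]; compute_degree!
  have hf0 : f ≠ 0 := by
    intro h1
    rw [h1] at hfdeg
    simp at hfdeg
  obtain ⟨P, rfl⟩ := hdvd
  set s1 := s / q with hs1
  set s' := s % q with hs'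
  have hs'q : s' < q := Nat.mod_lt s hq0
  have hseq : s = s' + q * s1 := (Nat.mod_add_div s q).symm
  obtain ⟨A, hA⟩ := exists_block hq0 (f ^ s' * P)
  have hG : f ^ s * P = ∑ j ∈ range q, X ^ j * expand L q (f ^ s1 * A j) := by
    have h1 : f ^ s * P = expand L q (f ^ s1) * (f ^ s' * P) := by
      rw [hseq, pow_add, pow_mul, hfr, map_pow]
      ring
    rw [h1, hA, Finset.mul_sum]
    refine Finset.sum_congr rfl fun j _ => ?_
    rw [map_mul]
    ring
  have hco : ∀ i < q, ∀ l, (f ^ s * P).coeff (i + q * l) = (f ^ s1 * A i).coeff l := by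
    intro i hi l
    rw [hG, coeff_block hq0 _ _ _ hi]
  have hNt : t * q = q * t := mul_comm t q
  have hs1t : s1 ≤ t := by
    rw [hs1]
    exact Nat.div_le_of_le_mul (by rw [← hNt]; exact hst)
  -- the blocks with `s' < i`
  have hbig : ∀ i, s' < i → i < q → A i = 0 := by
    intro i hi hiq
    have h1 : f ^ s1 * A i = 0 := by
      refine hW s1 hs1t (Or.inl rfl) _ (dvd_mul_right _ _) ?_ ?_
      · intro l hl
        rw [← hco i hiq l]
        apply hhigh
        have : q * (s1 + t) ≤ q * l := Nat.mul_le_mul_left q hl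
        rw [hseq, hNt]
        rw [mul_add] at this
        omega
      · intro l hl hlt
        rw [← hco i hiq l]
        apply hmid
        · have : q * s1 ≤ q * l := Nat.mul_le_mul_left q hl
          omega
        · have : q * (l + 1) ≤ q * t := Nat.mul_le_mul_left q hlt
          rw [mul_add, mul_one] at this
          omega
    exact (mul_eq_zero.mp h1).resolve_left (pow_ne_zero _ hf0)
  have hH : f ^ s' * P = ∑ j ∈ range (s' + 1), X ^ j * expand L q (A j) := by
    rw [hA]
    refine (Finset.sum_subset (Finset.range_subset_range.mpr hs'q) ?_).symm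
    intro j hj hj'
    rw [Finset.mem_range] at hj hj'
    rw [hbig j (by omega) hj, map_zero, mul_zero]
  -- it suffices that the blocks up to `s'` vanish
  suffices hall : ∀ i ≤ s', A i = 0 by
    rw [hG]
    refine Finset.sum_eq_zero fun j hj => ?_
    rw [Finset.mem_range] at hj
    have h1 : A j = 0 := by
      by_cases h : j ≤ s'
      · exact hall j h
      · exact hbig j (by omega) hj
    rw [h1, mul_zero, map_zero, mul_zero]
  rcases Nat.eq_zero_or_pos s' with h0 | hpos
  · -- `s = q * s1`
    have hs1odd : Odd s1 := by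
      rw [h0, zero_add] at hseq
      rw [hseq] at hs
      exact (Nat.odd_mul.mp hs).2
    intro i hi
    have hi0 : i = 0 := by omega
    subst hi0
    have h1 : f ^ s1 * A 0 = 0 := by
      refine hP s1 hs1t rfl hs1odd _ (dvd_mul_right _ _) ?_ ?_ ?_
      · intro l hl
        rw [← hco 0 hq0 l]
        apply hhigh
        have : q * (s1 + (t + 1)) ≤ q * l := Nat.mul_le_mul_left q hl
        rw [hseq, hNt]
        rw [mul_add, mul_add, mul_one] at this
        omega
      · intro l hl hlt
        rw [← hco 0 hq0 l]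
        apply hmid
        · have : q * s1 ≤ q * l := Nat.mul_le_mul_left q hl
          omega
        · have : q * l ≤ q * t := Nat.mul_le_mul_left q (by omega)
          omega
      · intro i j hij
        rw [← hco 0 hq0 i, ← hco 0 hq0 j]
        apply hpal
        have : q * (i + j) = q * (s1 + t) := by
          congr 1
          omega
        rw [mul_add, mul_add] at this
        omega
    exact (mul_eq_zero.mp h1).resolve_left (pow_ne_zero _ hf0)
  -- `0 < s' < q`
  have hs1t' : s1 < t := by
    by_contra hc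
    have h6 : q * t ≤ q * s1 := Nat.mul_le_mul_left q (by omega)
    rw [hNt] at hst
    omega
  have hTd : (f ^ s1 * A s').natDegree ≤ s1 + t := by
    rw [natDegree_le_iff_coeff_eq_zero]
    intro l hl
    rw [← hco s' hs'q l]
    apply hhigh
    have : q * (s1 + t + 1) ≤ q * l := Nat.mul_le_mul_left q hl
    rw [hseq, hNt]
    rw [mul_add, mul_add, mul_one] at this
    omega
  have hTdeg : (A s').natDegree ≤ t - s1 := by
    by_cases h1 : A s' = 0
    · rw [h1, natDegree_zero]
      exact Nat.zero_le _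
    · rw [natDegree_mul (pow_ne_zero _ hf0) h1, natDegree_pow, hfdeg] at hTd
      omega
  have hrefl : f ^ s1 * A 0 = reflect (s1 + t) (f ^ s1 * A s') := by
    ext l
    rw [coeff_reflect]
    by_cases hl : l ≤ s1 + t
    · rw [revAt_le hl, ← hco 0 hq0 l, ← hco s' hs'q (s1 + t - l)]
      apply hpal
      have : q * l + q * (s1 + t - l) = q * (s1 + t) := by
        rw [← mul_add]
        congr 1
        omega
      rw [mul_add q s1 t] at this
      omega
    · rw [revAt_eq_self_of_lt (by omega), ← hco 0 hq0 l,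
        coeff_eq_zero_of_natDegree_lt (lt_of_le_of_lt hTd (by omega))]
      apply hhigh
      have : q * (s1 + t + 1) ≤ q * l := Nat.mul_le_mul_left q (by omega)
      rw [hseq, hNt]
      rw [mul_add, mul_add, mul_one] at this
      omega
  have hA0 : A 0 = reflect (t - s1) (A s') := by
    have h1 : reflect (s1 + t) (f ^ s1 * A s') = f ^ s1 * reflect (t - s1) (A s') := by
      rw [show s1 + t = 2 * s1 + (t - s1) by omega, reflect_mul _ _ ?_ hTdeg, hf,
        reflect_fpow L s1]
      rw [natDegree_pow, hfdeg, mul_comm]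
    rw [h1] at hrefl
    exact mul_left_cancel₀ (pow_ne_zero _ hf0) hrefl
  -- the values at the roots
  have hval : ∀ v : L, v ^ 2 + v + 1 = 0 → ∀ j ≤ s', (A j).eval (v ^ q) =
      ((X - C v) ^ s' : L[X]).coeff j * (A s').eval (v ^ q) := by
    intro v hv
    refine hbr v A s' hs'q.le ?_
    rw [← hH]
    have h1 : X - C v ∣ f := by
      rw [dvd_iff_isRoot]
      rw [hf]
      simpa using hv
    exact Dvd.dvd.mul_right (pow_dvd_pow_of_dvd h1 s') P
  have hAs : A s' = 0 := by
    have hc := hrf w hw
    have hc3 : (w ^ q) ^ 3 = 1 := cube_root L _ hc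
    have hw3 : w ^ 3 = 1 := cube_root L w hw
    refine hX s1 hs1t' rfl (A s') hTdeg ?_ (w ^ q) hc ?_
    · intro l hl hlt
      rw [← hco s' hs'q l]
      apply hmid
      · have : q * s1 ≤ q * l := Nat.mul_le_mul_left q hl
        omega
      · have : q * (l + 1) ≤ q * t := Nat.mul_le_mul_left q hlt
        rw [mul_add, mul_one] at this
        omega
    · have h1 := hval w hw 0 (Nat.zero_le _)
      rw [pow_coeff_zero, hA0] at h1
      set c := w ^ q with hcdef
      have hcu : c * c ^ 2 = 1 := by
        rw [← hc3]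
        ring
      have h2 : (reflect (t - s1) (A s')).eval c = c ^ (t - s1) * (A s').eval (c ^ 2) := by
        exact eval_reflect L c (c ^ 2) hcu (t - s1) (A s') hTdeg
      rw [h2] at h1
      have h3 : (c ^ (t - s1) * (A s').eval (c ^ 2)) ^ 3 =
          ((-w) ^ s' * (A s').eval c) ^ 3 := by rw [h1]
      have h4 : (c ^ (t - s1)) ^ 3 = 1 := by
        rw [← pow_mul, mul_comm, pow_mul, hc3, one_pow]
      have h5 : ((-w) ^ s') ^ 3 = (-1) ^ (s1 + 1) := by
        rw [← pow_mul, mul_comm, pow_mul, Odd.neg_pow (by decide), hw3]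
        have h6 : s' % 2 = (s1 + 1) % 2 := by
          have h7 : (q * s1) % 2 = s1 % 2 := by
            rw [Nat.mul_mod, hqodd, one_mul, Nat.mod_mod]
          omega
        rw [neg_one_pow_eq_pow_mod_two s', neg_one_pow_eq_pow_mod_two (s1 + 1), h6]
      rw [mul_pow, mul_pow, h4, h5, one_mul] at h3
      have h6 : ((-1 : L) ^ (s1 + 1)) * (-1) ^ (s1 + 1) = 1 := by
        rw [← mul_pow]
        norm_num
      rw [h3, ← mul_assoc, h6, one_mul]
  intro i hi
  have hz : ∀ v : L, v ^ 2 + v + 1 = 0 → (A i).eval (v ^ q) = 0 := by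
    intro v hv
    rw [hval v hv i hi, hAs, eval_zero, mul_zero]
  rcases Nat.lt_or_ge i s' with h1 | h1
  · have hw2 : (w ^ 2) ^ 2 + w ^ 2 + 1 = 0 := root_sq L w hw
    have h2 := hz w hw
    have h3 := hz (w ^ 2) hw2
    have h4 : (w ^ 2) ^ q = (w ^ q) ^ 2 := by ring
    rw [h4] at h3 hne
    have h5 : f ∣ A i := f_dvd L (w ^ q) (hrf w hw) hne (A i) h2 h3
    have h6 : f ^ s1 * A i = 0 := by
      refine hW (s1 + 1) (by omega) (Or.inr rfl) _ ?_ ?_ ?_
      · rw [pow_succ]
        exact mul_dvd_mul_left _ h5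
      · intro l hl
        rw [← hco i (by omega) l]
        apply hhigh
        have : q * (s1 + 1 + t) ≤ q * l := Nat.mul_le_mul_left q hl
        rw [hseq, hNt]
        rw [mul_add, mul_add, mul_one] at this
        omega
      · intro l hl hlt
        rw [← hco i (by omega) l]
        apply hmid
        · have : q * (s1 + 1) ≤ q * l := Nat.mul_le_mul_left q hl
          rw [mul_add, mul_one] at this
          omega
        · have : q * (l + 1) ≤ q * t := Nat.mul_le_mul_left q hlt
          rw [mul_add, mul_one] at this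
          omega
    exact (mul_eq_zero.mp h6).resolve_left (pow_ne_zero _ hf0)
  · rw [show i = s' by omega]
    exact hAs

/-- `pal_block_minus` with the hypotheses at `⌊s / q⌋`, `⌊s / q⌋ + 1` only. -/
theorem pal_block_minus_local (L : Type) [Field L] (p a : ℕ) [hp : Fact p.Prime] [CharP L p]
    (hp2 : p ≠ 2) (hp3 : p ≠ 3) (w : L) (hw : w ^ 2 + w + 1 = 0) (t s : ℕ) (hs : Odd s)
    (hst : s + 2 ≤ t * p ^ a)
    (hW : ∀ i ≤ t, i = s / p ^ a ∨ i = s / p ^ a + 1 → Win L t i)
    (hP : ∀ i ≤ t - 1, i = s / p ^ a → Odd i → PalWin L (t - 1) i)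
    (hX : ∀ i ≤ t - 1, i = s / p ^ a → XCond L (t - 1) i) :
    PalWin L (t * p ^ a - 1) s := by
  intro G hdvd hhigh hmid hpal
  have hq0 : 0 < p ^ a := pow_pos hp.out.pos a
  have hqodd : p ^ a % 2 = 1 := Nat.odd_iff.mp ((hp.out.odd_of_ne_two hp2).pow)
  have hs2 : s % 2 = 1 := Nat.odd_iff.mp hs
  have hne := ne_frob L p a hp3 w hw
  have hbr := block_root' L p a
  have hfr := frob_f L p a
  have hrf := root_frob L p a
  generalize p ^ a = q at hst hW hP hX hhigh hmid hpal hq0 hqodd hne hbr hfr hrf
  set f : L[X] := X ^ 2 + X + 1 with hf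
  have hfdeg : f.natDegree = 2 := by rw [hf]; compute_degree!
  have hf0 : f ≠ 0 := by
    intro h1
    rw [h1] at hfdeg
    simp at hfdeg
  obtain ⟨P, rfl⟩ := hdvd
  set s1 := s / q with hs1
  set s' := s % q with hs'
  have hs'q : s' < q := Nat.mod_lt s hq0
  have hseq : s = s' + q * s1 := (Nat.mod_add_div s q).symm
  obtain ⟨A, hA⟩ := exists_block hq0 (f ^ s' * P)
  have hG : f ^ s * P = ∑ j ∈ range q, X ^ j * expand L q (f ^ s1 * A j) := by
    have h1 : f ^ s * P = expand L q (f ^ s1) * (f ^ s' * P) := by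
      rw [hseq, pow_add, pow_mul, hfr, map_pow]
      ring
    rw [h1, hA, Finset.mul_sum]
    refine Finset.sum_congr rfl fun j _ => ?_
    rw [map_mul]
    ring
  have hco : ∀ i < q, ∀ l, (f ^ s * P).coeff (i + q * l) = (f ^ s1 * A i).coeff l := by
    intro i hi l
    rw [hG, coeff_block hq0 _ _ _ hi]
  have hs1t : s1 < t := by
    have h1 : s < q * t := by
      rw [mul_comm]
      omega
    exact Nat.div_lt_of_lt_mul h1
  obtain ⟨u, rfl⟩ : ∃ u, t = u + 1 :=
    Nat.exists_eq_succ_of_ne_zero (Nat.ne_zero_of_lt hs1t)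
  rw [Nat.add_sub_cancel] at hP hX
  have hNt : (u + 1) * q = q * u + q := by ring
  have hs1u : s1 ≤ u := by omega
  rw [hNt] at hst hhigh hmid hpal
  -- the blocks with `s' ≤ i < q - 1`
  have hbig : ∀ i, s' ≤ i → i < q - 1 → A i = 0 := by
    intro i hi hiq
    have h1 : f ^ s1 * A i = 0 := by
      refine hW s1 hs1t.le (Or.inl rfl) _ (dvd_mul_right _ _) ?_ ?_
      · intro l hl
        rw [← hco i (by omega) l]
        apply hhigh
        have : q * (s1 + (u + 1)) ≤ q * l := Nat.mul_le_mul_left q hl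
        rw [mul_add, mul_add, mul_one] at this
        omega
      · intro l hl hlt
        rw [← hco i (by omega) l]
        apply hmid
        · have : q * s1 ≤ q * l := Nat.mul_le_mul_left q hl
          omega
        · have : q * (l + 1) ≤ q * (u + 1) := Nat.mul_le_mul_left q hlt
          rw [mul_add, mul_add, mul_one] at this
          omega
    exact (mul_eq_zero.mp h1).resolve_left (pow_ne_zero _ hf0)
  suffices hall : ∀ i < q, A i = 0 by
    have hHz : f ^ s' * P = 0 := by
      rw [hA]
      refine Finset.sum_eq_zero fun j hj => ?_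
      rw [hall j (Finset.mem_range.mp hj), map_zero, mul_zero]
    have hP0 : P = 0 := (mul_eq_zero.mp hHz).resolve_left (pow_ne_zero _ hf0)
    rw [hP0, mul_zero]
  rcases Nat.eq_zero_or_pos s' with hs0 | hs0
  · -- `q ∣ s`
    have hs1odd : Odd s1 := by
      rw [hseq, hs0, zero_add] at hs
      exact (Nat.odd_mul.mp hs).2
    have h1 : f ^ s1 * A (q - 1) = 0 := by
      refine hP s1 hs1u rfl hs1odd _ (dvd_mul_right _ _) ?_ ?_ ?_
      · intro l hl
        rw [← hco (q - 1) (by omega) l]
        apply hhigh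
        have : q * (s1 + u) ≤ q * l := Nat.mul_le_mul_left q hl
        rw [mul_add] at this
        omega
      · intro l hl hlt
        rw [← hco (q - 1) (by omega) l]
        apply hmid
        · have : q * s1 ≤ q * l := Nat.mul_le_mul_left q hl
          omega
        · have : q * (l + 1) ≤ q * u := Nat.mul_le_mul_left q (by omega)
          rw [mul_add, mul_one] at this
          omega
      · intro i j hij
        rw [← hco (q - 1) (by omega) i, ← hco (q - 1) (by omega) j]
        apply hpal
        have : q * (i + j + 1) = q * (s1 + u) := by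
          congr 1
        rw [mul_add, mul_add, mul_add, mul_one] at this
        omega
    have h2 : A (q - 1) = 0 := (mul_eq_zero.mp h1).resolve_left (pow_ne_zero _ hf0)
    intro i hi
    rcases Nat.lt_or_ge i (q - 1) with h3 | h3
    · exact hbig i (by omega) h3
    · rw [show i = q - 1 by omega]
      exact h2
  -- `0 < s' < q`
  have hTd : (f ^ s1 * A (q - 1)).natDegree ≤ s1 + u := by
    rw [natDegree_le_iff_coeff_eq_zero]
    intro l hl
    rw [← hco (q - 1) (by omega) l]
    apply hhigh
    have : q * (s1 + u + 1) ≤ q * l := Nat.mul_le_mul_left q hl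
    rw [mul_add, mul_add, mul_one] at this
    omega
  have hTdeg : (A (q - 1)).natDegree ≤ u - s1 := by
    by_cases h1 : A (q - 1) = 0
    · rw [h1, natDegree_zero]
      exact Nat.zero_le _
    · rw [natDegree_mul (pow_ne_zero _ hf0) h1, natDegree_pow, hfdeg] at hTd
      omega
  have hrefl : f ^ s1 * A (s' - 1) = reflect (s1 + u) (f ^ s1 * A (q - 1)) := by
    ext l
    rw [coeff_reflect]
    by_cases hl : l ≤ s1 + u
    · rw [revAt_le hl, ← hco (s' - 1) (by omega) l, ← hco (q - 1) (by omega) (s1 + u - l)]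
      apply hpal
      have : q * l + q * (s1 + u - l) = q * (s1 + u) := by
        rw [← mul_add]
        congr 1
        omega
      rw [mul_add q s1 u] at this
      omega
    · rw [revAt_eq_self_of_lt (by omega), ← hco (s' - 1) (by omega) l,
        coeff_eq_zero_of_natDegree_lt (lt_of_le_of_lt hTd (by omega))]
      apply hhigh
      have : q * (s1 + u + 1) ≤ q * l := Nat.mul_le_mul_left q (by omega)
      rw [mul_add, mul_add, mul_one] at this
      omega
  have hA0 : A (s' - 1) = reflect (u - s1) (A (q - 1)) := by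
    have h1 : reflect (s1 + u) (f ^ s1 * A (q - 1)) =
        f ^ s1 * reflect (u - s1) (A (q - 1)) := by
      rw [show s1 + u = 2 * s1 + (u - s1) by omega, reflect_mul _ _ ?_ hTdeg, hf,
        reflect_fpow L s1]
      rw [natDegree_pow, hfdeg, mul_comm]
    rw [h1] at hrefl
    exact mul_left_cancel₀ (pow_ne_zero _ hf0) hrefl
  have hXH : X * (f ^ s' * P) =
      ∑ j ∈ range (s' + 1), X ^ j * expand L q (shiftA L q A j) := by
    rw [hA]
    exact shift_sum L q hq0 A s' hs'q hbig
  -- the values at the roots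
  have hval : ∀ v : L, v ^ 2 + v + 1 = 0 → ∀ j ≤ s', (shiftA L q A j).eval (v ^ q) =
      ((X - C v) ^ s' : L[X]).coeff j * (A (s' - 1)).eval (v ^ q) := by
    intro v hv j hj
    have h3 : shiftA L q A s' = A (s' - 1) := by
      simp only [shiftA, if_neg hs0.ne']
    rw [← h3]
    refine hbr v (shiftA L q A) s' hs'q.le ?_ j hj
    rw [← hXH]
    have h1 : X - C v ∣ f := by
      rw [dvd_iff_isRoot]
      rw [hf]
      simpa using hv
    exact Dvd.dvd.mul_left (Dvd.dvd.mul_right (pow_dvd_pow_of_dvd h1 s') P) X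
  have hAs : A (q - 1) = 0 := by
    have hc := hrf w hw
    have hc3 : (w ^ q) ^ 3 = 1 := cube_root L _ hc
    have hw3 : w ^ 3 = 1 := cube_root L w hw
    refine hX s1 hs1u rfl (A (q - 1)) hTdeg ?_ (w ^ q) hc ?_
    · intro l hl hlt
      rw [← hco (q - 1) (by omega) l]
      apply hmid
      · have : q * s1 ≤ q * l := Nat.mul_le_mul_left q hl
        omega
      · have : q * (l + 1) ≤ q * u := Nat.mul_le_mul_left q hlt
        rw [mul_add, mul_one] at this
        omega
    · have h1 := hval w hw 0 (Nat.zero_le _)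
      have h0 : shiftA L q A 0 = X * A (q - 1) := by simp only [shiftA, if_true]
      rw [pow_coeff_zero, hA0, h0, eval_mul, eval_X] at h1
      set c := w ^ q with hcdef
      have hcu : c * c ^ 2 = 1 := by
        rw [← hc3]
        ring
      have h2 : (reflect (u - s1) (A (q - 1))).eval c =
          c ^ (u - s1) * (A (q - 1)).eval (c ^ 2) := by
        exact eval_reflect L c (c ^ 2) hcu (u - s1) (A (q - 1)) hTdeg
      rw [h2] at h1
      have h3 : (c * (A (q - 1)).eval c) ^ 3 =
          ((-w) ^ s' * (c ^ (u - s1) * (A (q - 1)).eval (c ^ 2))) ^ 3 := by rw [h1]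
      have h4 : (c ^ (u - s1)) ^ 3 = 1 := by
        rw [← pow_mul, mul_comm, pow_mul, hc3, one_pow]
      have h5 : ((-w) ^ s') ^ 3 = (-1) ^ (s1 + 1) := by
        rw [← pow_mul, mul_comm, pow_mul, Odd.neg_pow (by decide), hw3]
        have h6 : s' % 2 = (s1 + 1) % 2 := by
          have h7 : (q * s1) % 2 = s1 % 2 := by
            rw [Nat.mul_mod, hqodd, one_mul, Nat.mod_mod]
          omega
        rw [neg_one_pow_eq_pow_mod_two s', neg_one_pow_eq_pow_mod_two (s1 + 1), h6]
      rw [mul_pow, mul_pow, mul_pow, h4, h5, hc3, one_mul, one_mul] at h3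
      exact h3
  have hAs' : A (s' - 1) = 0 := by
    rw [hA0, hAs]
    ext l
    rw [coeff_reflect, coeff_zero, coeff_zero]
  intro i hi
  rcases Nat.lt_or_ge i (s' - 1) with h1 | h1
  · have hz : ∀ v : L, v ^ 2 + v + 1 = 0 → (A i).eval (v ^ q) = 0 := by
      intro v hv
      have h2 := hval v hv (i + 1) (by omega)
      have h3 : shiftA L q A (i + 1) = A i := by
        simp only [shiftA, if_neg (Nat.succ_ne_zero i), Nat.add_sub_cancel]
      rw [h3, hAs', eval_zero, mul_zero] at h2
      exact h2
    have hw2 : (w ^ 2) ^ 2 + w ^ 2 + 1 = 0 := root_sq L w hw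
    have h2 := hz w hw
    have h3 := hz (w ^ 2) hw2
    have h4 : (w ^ 2) ^ q = (w ^ q) ^ 2 := by ring
    rw [h4] at h3 hne
    have h5 : f ∣ A i := f_dvd L (w ^ q) (hrf w hw) hne (A i) h2 h3
    have h6 : f ^ s1 * A i = 0 := by
      refine hW (s1 + 1) (by omega) (Or.inr rfl) _ ?_ ?_ ?_
      · rw [pow_succ]
        exact mul_dvd_mul_left _ h5
      · intro l hl
        rw [← hco i (by omega) l]
        apply hhigh
        have : q * (s1 + 1 + (u + 1)) ≤ q * l := Nat.mul_le_mul_left q hl
        rw [mul_add, mul_add, mul_add, mul_one] at this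
        omega
      · intro l hl hlt
        rw [← hco i (by omega) l]
        apply hmid
        · have : q * (s1 + 1) ≤ q * l := Nat.mul_le_mul_left q hl
          rw [mul_add, mul_one] at this
          omega
        · have : q * (l + 1) ≤ q * (u + 1) := Nat.mul_le_mul_left q hlt
          rw [mul_add, mul_add, mul_one] at this
          omega
    exact (mul_eq_zero.mp h6).resolve_left (pow_ne_zero _ hf0)
  rcases Nat.lt_or_ge i s' with h2 | h2
  · rw [show i = s' - 1 by omega]
    exact hAs'
  rcases Nat.lt_or_ge i (q - 1) with h3 | h3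
  · exact hbig i h2 h3
  · rw [show i = q - 1 by omega]
    exact hAs


/-- multiplicity one, `N` prime to three -/
theorem win_one (L : Type) [Field L] (h3 : (3 : L) ≠ 0) (w : L) (hw : w ^ 2 + w + 1 = 0) (N : ℕ)
    (hN : ¬ 3 ∣ N) : Win L N 1 := by
  intro G hdvd hhigh hmid
  obtain ⟨A, B, hA, hB, hG⟩ := split_window G 1 N hhigh hmid
  have hA' : A = C (G.coeff 0) := by
    ext n
    rw [hA, coeff_C]
    by_cases hn : n = 0
    · subst hn
      rw [if_pos (by omega), if_pos rfl]
    · rw [if_neg (by omega), if_neg hn]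
  have hB' : B = C (G.coeff (N + 0)) := by
    ext n
    rw [hB, coeff_C]
    by_cases hn : n = 0
    · subst hn
      rw [if_pos (by omega), if_pos rfl]
    · rw [if_neg (by omega), if_neg hn]
  generalize G.coeff (N + 0) = b at hB'
  generalize G.coeff 0 = a at hA'
  have hz : ∀ v : L, v ^ 2 + v + 1 = 0 → a + v ^ N * b = 0 := by
    intro v hv
    have h1 : G.eval v = 0 := by
      rw [pow_one] at hdvd
      obtain ⟨K, hK⟩ := hdvd
      rw [hK, eval_mul]
      simp [hv]
    have h2 : G.eval v = a + v ^ N * b := by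
      conv_lhs => rw [hG, hA', hB']
      simp
      ring
    rw [← h2, h1]
  have e1 := hz w hw
  have e2 := hz (w ^ 2) (root_sq L w hw)
  have hne := root_pow_ne L h3 w hw N
    ((Nat.Prime.coprime_iff_not_dvd Nat.prime_three).mpr hN).symm
  have hb : b = 0 := by
    have h4 : (w ^ N - (w ^ 2) ^ N) * b = 0 := by linear_combination e1 - e2
    exact (mul_eq_zero.mp h4).resolve_left (sub_ne_zero.mpr hne)
  have ha : a = 0 := by
    rw [hb] at e1
    linear_combination e1
  rw [hG, hA', hB', ha, hb]
  simp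

theorem xcond_zero (L : Type) [Field L] (h2 : (2 : L) ≠ 0) (t : ℕ) : XCond L t 0 := by
  intro B hB hwin c hc hcube
  have hc3 : c ^ 3 = 1 := cube_root L c hc
  have hB' : B = C (B.coeff t) * X ^ t := by
    ext n
    rw [coeff_C_mul_X_pow]
    by_cases hn : n = t
    · rw [if_pos hn, hn]
    · rw [if_neg hn]
      rcases Nat.lt_or_ge n t with h1 | h1
      · have h3 := hwin n (Nat.zero_le _) h1
        rwa [pow_zero, one_mul] at h3
      · exact coeff_eq_zero_of_natDegree_lt (by omega)
  generalize B.coeff t = k at hB'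
  subst hB'
  have e1 : (C k * X ^ t).eval c = k * c ^ t := by simp
  have e2 : (C k * X ^ t).eval (c ^ 2) = k * (c ^ 2) ^ t := by simp
  rw [e1, e2] at hcube
  have e3 : (k * c ^ t) ^ 3 = k ^ 3 * (c ^ 3) ^ t := by ring
  have e4 : (k * (c ^ 2) ^ t) ^ 3 = k ^ 3 * ((c ^ 3) ^ t) ^ 2 := by ring
  rw [e3, e4, hc3, one_pow, one_pow] at hcube
  have h3 : 2 * k ^ 3 = 0 := by linear_combination hcube
  have h4 : k = 0 :=
    pow_eq_zero_iff (n := 3) (by norm_num) |>.mp ((mul_eq_zero.mp h3).resolve_left h2)
  rw [h4]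
  simp

/-- Small multiplicities. -/
theorem palWin_small (L : Type) [Field L] (p a : ℕ) [hp : Fact p.Prime] [CharP L p] (hp2 : p ≠ 2)
    (hp3 : p ≠ 3) (w : L) (hw : w ^ 2 + w + 1 = 0) (t s N : ℕ) (hs : Odd s) (hsN : s < N)
    (hsq : s < p ^ a) (ht : ¬ 3 ∣ t) (hN : N = t * p ^ a ∨ N = t * p ^ a + 1 ∨ N + 1 = t * p ^ a) :
    PalWin L N s := by
  have h0 : s / p ^ a = 0 := Nat.div_eq_of_lt hsq
  have ht0 : 1 ≤ t := by
    rcases Nat.eq_zero_or_pos t with h | h
    · rw [h] at ht
      exact absurd (dvd_zero 3) ht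
    · exact h
  have hW0 : Win L t 0 := win_zero L t
  have hW1 : Win L t 1 := win_one L (three_ne L p hp3) w hw t ht
  have hW : ∀ i ≤ t, i = s / p ^ a ∨ i = s / p ^ a + 1 → Win L t i := by
    rintro i - (h | h)
    · rw [h, h0]
      exact hW0
    · rw [h, h0]
      exact hW1
  rcases hN with h | h | h
  · rw [h]
    refine (win_mul L p a hp3 w hw t s (by omega) ?_ fun _ => ?_).pal
    · rw [h0]
      exact hW0
    · rw [h0]
      exact hW1
  · rw [h]
    refine pal_block_local L p a hp2 hp3 w hw t s hs (by omega) hW ?_ ?_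
    · intro i _ hi hodd
      rw [hi, h0] at hodd
      exact absurd hodd (by decide)
    · intro i _ hi
      rw [hi, h0]
      exact xcond_zero L (two_ne L p hp2) t
  · have h1 : N = t * p ^ a - 1 := by omega
    rw [h1]
    refine pal_block_minus_local L p a hp2 hp3 w hw t s hs (by omega) hW ?_ ?_
    · intro i _ hi hodd
      rw [hi, h0] at hodd
      exact absurd hodd (by decide)
    · intro i _ hi
      rw [hi, h0]
      exact xcond_zero L (two_ne L p hp2) (t - 1)

end Pool.Agent.Lib.MP_c1a8e2_al
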