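import Pool.Agent.Lib.MP_c1a8e2_al.h18.PalSpread
import Pool.Agent.Lib.MP_c1a8e2_al.h18.Local

/-!
# Two variables: for fixed multiplicity `s` all large `N` are fine
-/

set_option autoImplicit false

open Polynomial Finset

namespace Pool.Agent.Lib.MP_c1a8e2_al

/-- If an integer system has only the trivial solution over one field then also over every field
of characteristic zero. -/
theorem system_char0 (K : Type) [Field K] {ι : Type} [Fintype ι] {n : ℕ}
    (M : Matrix ι (Fin n) ℤ)
    (h : ∀ v : Fin n → K, (∀ a, ∑ j, ((M a j : ℤ) : K) * v j = 0) → v = 0)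
    (L : Type) [Field L] [CharZero L] (v : Fin n → L)
    (hv : ∀ a, ∑ j, ((M a j : ℤ) : L) * v j = 0) : v = 0 := by
  classical
  have hdet : (M.transpose * M).det ≠ 0 := by
    intro h0
    obtain ⟨v, hv, hv0⟩ := Matrix.exists_mulVec_eq_zero_iff.mpr h0
    have hMv : M.mulVec v = 0 := by
      have h1 : dotProduct (M.mulVec v) (M.mulVec v) = 0 := by
        rw [← Matrix.mulVec_mulVec] at hv0
        have h2 : dotProduct v (M.transpose.mulVec (M.mulVec v)) =
            dotProduct (M.mulVec v) (M.mulVec v) := by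
          rw [Matrix.dotProduct_mulVec, Matrix.vecMul_transpose]
        rw [← h2, hv0, dotProduct_zero]
      exact dotProduct_self_eq_zero.mp h1
    obtain ⟨g, hg, hg1⟩ := Finset.extract_gcd v (s := Finset.univ) (by
      by_contra hne
      rw [Finset.not_nonempty_iff_eq_empty] at hne
      apply hv
      funext j
      exact absurd (Finset.mem_univ j) (by rw [hne]; simp))
    have hd : Finset.univ.gcd v ≠ 0 := by
      intro h2
      rw [Finset.gcd_eq_zero_iff] at h2
      exact hv (funext fun j => h2 j (Finset.mem_univ j))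
    have hMg : ∀ a, ∑ j, M a j * g j = 0 := by
      intro a
      have h2 := congrFun hMv a
      simp only [Matrix.mulVec, dotProduct, Pi.zero_apply] at h2
      have h3 : ∑ j, M a j * v j = Finset.univ.gcd v * ∑ j, M a j * g j := by
        rw [Finset.mul_sum]
        refine Finset.sum_congr rfl fun j hj => ?_
        rw [hg j hj]
        ring
      rw [h3] at h2
      exact (mul_eq_zero.mp h2).resolve_left hd
    have h4 := h (fun j => ((g j : ℤ) : K)) (by
      intro a
      have h5 := congrArg (fun x : ℤ => (x : K)) (hMg a)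
      push_cast at h5
      exact h5)
    have h6 : ∀ j, ((ringChar K : ℕ) : ℤ) ∣ g j := by
      intro j
      have h7 := congrFun h4 j
      simp only [Pi.zero_apply] at h7
      rwa [CharP.intCast_eq_zero_iff K (ringChar K)] at h7
    have h8 : ((ringChar K : ℕ) : ℤ) ∣ 1 := by
      rw [← hg1]
      exact Finset.dvd_gcd fun j _ => h6 j
    have h9 : ringChar K = 1 := by
      have := Int.natCast_dvd.mp h8
      simpa using this
    exact CharP.ringChar_ne_one h9
  by_contra hne
  have h1 : ((Int.castRingHom L).mapMatrix (M.transpose * M)).det = 0 := by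
    apply Matrix.exists_mulVec_eq_zero_iff.mp
    refine ⟨v, hne, ?_⟩
    have h2 : ((Int.castRingHom L).mapMatrix (M.transpose * M)) =
        (M.map (Int.castRingHom L)).transpose * (M.map (Int.castRingHom L)) := by
      rw [RingHom.mapMatrix_apply, Matrix.map_mul, Matrix.transpose_map]
    rw [h2, ← Matrix.mulVec_mulVec]
    have h3 : (M.map (Int.castRingHom L)).mulVec v = 0 := by
      funext a
      exact hv a
    rw [h3, Matrix.mulVec_zero]
  rw [← RingHom.map_det] at h1
  have h2 : (((M.transpose * M).det : ℤ) : L) = 0 := h1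
  exact hdet (by exact_mod_cast h2)

theorem pal_char0 (K : Type) [Field K] (N s : ℕ) (h : PalWin K N s) (L : Type) [Field L]
    [CharZero L] : PalWin L N s :=
  (palWin_iff L N s).mpr (system_char0 K (palMat N s) ((palWin_iff K N s).mp h) L)

/-- The binomial expansion of `x ^ (3 M)` around `x ^ 3 = 1`, cut off at `s`. -/
theorem dvd_pow_sub (s M : ℕ) : (X ^ 2 + X + 1 : ℚ[X]) ^ s ∣ X ^ (3 * M) -
    ∑ k ∈ range s, C ((M.choose k : ℕ) : ℚ) * (X ^ 3 - 1) ^ k := by
  have h1 : (X : ℚ[X]) ^ (3 * M) =
      ∑ k ∈ range (M + 1 + s), C ((M.choose k : ℕ) : ℚ) * (X ^ 3 - 1) ^ k := by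
    have h2 : (X : ℚ[X]) ^ (3 * M) = ((X ^ 3 - 1) + 1) ^ M := by
      rw [sub_add_cancel, pow_mul]
    rw [h2, add_pow]
    rw [← Finset.sum_subset (Finset.range_subset_range.mpr (Nat.le_add_right (M + 1) s))]
    · refine Finset.sum_congr rfl fun k _ => ?_
      rw [one_pow, mul_one, mul_comm]
      simp
    · intro k _ hk
      rw [Finset.mem_range, not_lt] at hk
      rw [Nat.choose_eq_zero_of_lt (by omega)]
      simp
  have h3 : ∑ k ∈ range (M + 1 + s), C ((M.choose k : ℕ) : ℚ) * (X ^ 3 - 1 : ℚ[X]) ^ k -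
      ∑ k ∈ range s, C ((M.choose k : ℕ) : ℚ) * (X ^ 3 - 1) ^ k =
      ∑ k ∈ Finset.Ico s (M + 1 + s), C ((M.choose k : ℕ) : ℚ) * (X ^ 3 - 1) ^ k := by
    rw [Finset.sum_Ico_eq_sub _ (by omega)]
  rw [h1, h3]
  refine Finset.dvd_sum fun k hk => ?_
  rw [Finset.mem_Ico] at hk
  refine Dvd.dvd.mul_left ?_ _
  have h4 : (X ^ 3 - 1 : ℚ[X]) = (X ^ 2 + X + 1) * (X - 1) := by ring
  rw [h4, mul_pow]
  exact Dvd.dvd.mul_right (pow_dvd_pow _ hk.1) _

/-- The polynomials `x ^ i + x ^ (N + s - 1 - i)`. -/
noncomputable def palB (N s : ℕ) (v : Fin s → ℚ) : ℚ[X] :=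
  ∑ i : Fin s, C (v i) * (X ^ (i : ℕ) + X ^ (N + s - 1 - i))

theorem palB_coeff (N s : ℕ) (hsN : s ≤ N) (v : Fin s → ℚ) (j : Fin s) :
    (palB N s v).coeff j = v j := by
  unfold palB
  rw [Polynomial.finsetSum_coeff, Finset.sum_eq_single j]
  · rw [coeff_C_mul, coeff_add, coeff_X_pow, coeff_X_pow, if_pos rfl, if_neg]
    · ring
    · have := j.2
      omega
  · intro i _ hij
    rw [coeff_C_mul, coeff_add, coeff_X_pow, coeff_X_pow, if_neg, if_neg]
    · ring
    · have := j.2
      have := i.2
      omega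
    · intro h
      exact hij (Fin.ext h.symm)
  · intro h
    exact absurd (Finset.mem_univ _) h

theorem eq_palB (N s : ℕ) (hsN : s ≤ N) (G : ℚ[X]) (hhigh : ∀ n, s + N ≤ n → G.coeff n = 0)
    (hmid : ∀ n, s ≤ n → n < N → G.coeff n = 0)
    (hpal : ∀ i j, i + j + 1 = s + N → G.coeff i = G.coeff j) :
    G = palB N s (fun i => G.coeff i) := by
  ext n
  rcases Nat.lt_or_ge n s with h1 | h1
  · exact (palB_coeff N s hsN (fun i => G.coeff i) ⟨n, h1⟩).symm
  rcases Nat.lt_or_ge n N with h2 | h2
  · rw [hmid n h1 h2]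
    unfold palB
    rw [Polynomial.finsetSum_coeff]
    refine (Finset.sum_eq_zero fun i _ => ?_).symm
    have := i.2
    rw [coeff_C_mul, coeff_add, coeff_X_pow, coeff_X_pow, if_neg (by omega), if_neg (by omega)]
    ring
  rcases Nat.lt_or_ge n (s + N) with h3 | h3
  · unfold palB
    rw [Polynomial.finsetSum_coeff, Finset.sum_eq_single (⟨s + N - 1 - n, by omega⟩ : Fin s)]
    · simp only
      rw [coeff_C_mul, coeff_add, coeff_X_pow, coeff_X_pow, if_neg (by omega), if_pos (by omega),
        hpal n (s + N - 1 - n) (by omega)]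
      ring
    · intro i _ hi
      have := i.2
      rw [coeff_C_mul, coeff_add, coeff_X_pow, coeff_X_pow, if_neg (by omega), if_neg]
      · ring
      · intro h4
        apply hi
        apply Fin.ext
        simp only
        omega
    · intro h
      exact absurd (Finset.mem_univ _) h
  · rw [hhigh n h3]
    unfold palB
    rw [Polynomial.finsetSum_coeff]
    refine (Finset.sum_eq_zero fun i _ => ?_).symm
    have := i.2
    rw [coeff_C_mul, coeff_add, coeff_X_pow, coeff_X_pow, if_neg (by omega), if_neg (by omega)]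
    ring

theorem palWin_iff_palB (N s : ℕ) (hsN : s ≤ N) :
    PalWin ℚ N s ↔ ∀ v : Fin s → ℚ, (X ^ 2 + X + 1) ^ s ∣ palB N s v → v = 0 := by
  constructor
  · intro h v hv
    have h1 : palB N s v = 0 := by
      refine h _ hv ?_ ?_ ?_
      · intro n hn
        unfold palB
        rw [Polynomial.finsetSum_coeff]
        refine Finset.sum_eq_zero fun i _ => ?_
        have := i.2
        rw [coeff_C_mul, coeff_add, coeff_X_pow, coeff_X_pow, if_neg (by omega),
          if_neg (by omega)]
        ring
      · intro n hn hnN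
        unfold palB
        rw [Polynomial.finsetSum_coeff]
        refine Finset.sum_eq_zero fun i _ => ?_
        have := i.2
        rw [coeff_C_mul, coeff_add, coeff_X_pow, coeff_X_pow, if_neg (by omega),
          if_neg (by omega)]
        ring
      · intro i j hij
        unfold palB
        rw [Polynomial.finsetSum_coeff, Polynomial.finsetSum_coeff]
        refine Finset.sum_congr rfl fun l _ => ?_
        have := l.2
        rw [coeff_C_mul, coeff_C_mul, coeff_add, coeff_add, coeff_X_pow, coeff_X_pow,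
          coeff_X_pow, coeff_X_pow]
        have e1 : (i = (l : ℕ)) ↔ (j = N + s - 1 - l) := by omega
        have e2 : (i = N + s - 1 - l) ↔ (j = (l : ℕ)) := by omega
        simp only [e1, e2]
        ring
    funext j
    rw [← palB_coeff N s hsN v j, h1]
    simp
  · intro h G hdvd hhigh hmid hpal
    have h1 := eq_palB N s hsN G hhigh hmid hpal
    rw [h1] at hdvd
    have h2 := h _ hdvd
    rw [h1, h2]
    simp [palB]

end Pool.Agent.Lib.MP_c1a8e2_al
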