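import Pool.Agent.Lib.MP_c1a8e2_al.h18.Event

/-!
# Two variables: for fixed multiplicity `s` all large `N` are fine, end
-/

set_option autoImplicit false

open Polynomial Finset

namespace Pool.Agent.Lib.MP_c1a8e2_al

/-- The cut-off binomial expansion with coefficients polynomial in `M`. -/
noncomputable def lamP (s : ℕ) : (ℚ[X])[X] :=
  ∑ k ∈ range s, C (C ((k.factorial : ℚ)⁻¹) * descPochhammer ℚ k) * (X ^ 3 - 1) ^ k

/-- The cut-off binomial expansion. -/
noncomputable def lamM (s M : ℕ) : ℚ[X] :=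
  ∑ k ∈ range s, C ((M.choose k : ℕ) : ℚ) * (X ^ 3 - 1) ^ k

theorem lamP_map (s M : ℕ) : (lamP s).map (evalRingHom (M : ℚ)) = lamM s M := by
  unfold lamP lamM
  rw [Polynomial.map_sum]
  refine Finset.sum_congr rfl fun k _ => ?_
  rw [Polynomial.map_mul, Polynomial.map_C, Polynomial.map_pow, Polynomial.map_sub,
    Polynomial.map_pow, Polynomial.map_X, Polynomial.map_one]
  congr 2
  rw [coe_evalRingHom, eval_mul, eval_C, descPochhammer_eval_eq_descFactorial,
    Nat.descFactorial_eq_factorial_mul_choose]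
  have : ((k.factorial : ℕ) : ℚ) ≠ 0 := by exact_mod_cast k.factorial_ne_zero
  push_cast
  field_simp

/-- The matrix of the remainders, with entries polynomial in `M`. -/
noncomputable def matP (r s : ℕ) : Matrix (Fin (2 * s)) (Fin s) ℚ[X] :=
  fun l i => ((X ^ (i : ℕ) + lamP s * X ^ (r + s - 1 - i)) %ₘ ((X ^ 2 + X + 1) ^ s)).coeff l

theorem monic_f (R : Type) [CommRing R] [Nontrivial R] (s : ℕ) :
    ((X ^ 2 + X + 1 : R[X]) ^ s).Monic := by
  have h : (X ^ 2 + X + 1 : R[X]).Monic := by monicity!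
  exact h.pow s

theorem matP_eval (r s M : ℕ) (l : Fin (2 * s)) (i : Fin s) :
    (matP r s l i).eval (M : ℚ) =
      ((X ^ (i : ℕ) + lamM s M * X ^ (r + s - 1 - i)) %ₘ ((X ^ 2 + X + 1 : ℚ[X]) ^ s)).coeff l := by
  have h1 : (matP r s l i).eval (M : ℚ) = evalRingHom (M : ℚ) (matP r s l i) := rfl
  rw [h1, matP, ← coeff_map, Polynomial.map_modByMonic _ (monic_f ℚ[X] s)]
  simp only [Polynomial.map_add, Polynomial.map_mul, Polynomial.map_pow, Polynomial.map_X,
    Polynomial.map_one, lamP_map]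

theorem dvd_palB_iff (r s M : ℕ) (v : Fin s → ℚ) :
    (X ^ 2 + X + 1) ^ s ∣ palB (3 * M + r) s v ↔
      ∀ l : Fin (2 * s), ∑ i, (matP r s l i).eval (M : ℚ) * v i = 0 := by
  set q : ℚ[X] := (X ^ 2 + X + 1) ^ s with hq
  have hqm : q.Monic := monic_f ℚ s
  have hqd : q.natDegree = 2 * s := by
    have hfdeg : (X ^ 2 + X + 1 : ℚ[X]).natDegree = 2 := by compute_degree!
    rw [hq, natDegree_pow, hfdeg, mul_comm]
  set H : ℚ[X] := ∑ i : Fin s, C (v i) * (X ^ (i : ℕ) + lamM s M * X ^ (r + s - 1 - i)) with hH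
  have h1 : q ∣ palB (3 * M + r) s v - H := by
    rw [palB, hH, ← Finset.sum_sub_distrib]
    refine Finset.dvd_sum fun i _ => ?_
    have h2 : C (v i) * (X ^ (i : ℕ) + X ^ (3 * M + r + s - 1 - i)) -
        C (v i) * (X ^ (i : ℕ) + lamM s M * X ^ (r + s - 1 - i)) =
        C (v i) * X ^ (r + s - 1 - i) * (X ^ (3 * M) - lamM s M) := by
      have h3 : 3 * M + r + s - 1 - (i : ℕ) = 3 * M + (r + s - 1 - i) := by
        have := i.2
        omega
      rw [h3, pow_add]
      ring
    rw [h2]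
    exact Dvd.dvd.mul_left (dvd_pow_sub s M) _
  have h2 : q ∣ palB (3 * M + r) s v ↔ q ∣ H := by
    constructor
    · intro h
      have := dvd_sub h h1
      rwa [sub_sub_cancel] at this
    · intro h
      have := dvd_add h1 h
      rwa [sub_add_cancel] at this
  have h3 : H %ₘ q = ∑ i : Fin s,
      v i • ((X ^ (i : ℕ) + lamM s M * X ^ (r + s - 1 - i)) %ₘ q) := by
    have h4 : H %ₘ q = modByMonicHom q H := rfl
    rw [h4, hH, map_sum]
    refine Finset.sum_congr rfl fun i _ => ?_
    rw [← smul_eq_C_mul, map_smul]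
    rfl
  have h4 : ∀ l : Fin (2 * s), ∑ i, (matP r s l i).eval (M : ℚ) * v i = (H %ₘ q).coeff l := by
    intro l
    rw [h3, Polynomial.finsetSum_coeff]
    refine Finset.sum_congr rfl fun i _ => ?_
    rw [matP_eval, coeff_smul, smul_eq_mul, mul_comm]
  rw [h2, ← modByMonic_eq_zero_iff_dvd hqm]
  constructor
  · intro h l
    rw [h4, h, coeff_zero]
  · intro h
    ext n
    rw [coeff_zero]
    rcases Nat.lt_or_ge n (2 * s) with h5 | h5
    · rw [← h ⟨n, h5⟩, h4]
    · rcases Nat.eq_zero_or_pos s with h6 | h6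
      · subst h6
        have h7 : q = 1 := by rw [hq, pow_zero]
        rw [h7, modByMonic_one, coeff_zero]
      · have h7 : (H %ₘ q).natDegree < q.natDegree := by
          refine natDegree_modByMonic_lt H hqm ?_
          intro h8
          rw [h8, natDegree_one] at hqd
          omega
        exact coeff_eq_zero_of_natDegree_lt (by omega)

/-- The Gram determinant. -/
noncomputable def gramP (r s : ℕ) : ℚ[X] := ((matP r s).transpose * matP r s).det

theorem palWin_iff_gram (r s M : ℕ) (hs : s ≤ 3 * M + r) :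
    PalWin ℚ (3 * M + r) s ↔ (gramP r s).eval (M : ℚ) ≠ 0 := by
  rw [palWin_iff_palB _ _ hs]
  set A : Matrix (Fin (2 * s)) (Fin s) ℚ := (matP r s).map (evalRingHom (M : ℚ)) with hA
  have hdet : (gramP r s).eval (M : ℚ) = (A.transpose * A).det := by
    have h1 : (gramP r s).eval (M : ℚ) = evalRingHom (M : ℚ) (gramP r s) := rfl
    rw [h1, gramP, RingHom.map_det, RingHom.mapMatrix_apply, Matrix.map_mul,
      Matrix.transpose_map]
  have hv : ∀ v : Fin s → ℚ, A.mulVec v = 0 ↔
      (X ^ 2 + X + 1) ^ s ∣ palB (3 * M + r) s v := by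
    intro v
    rw [dvd_palB_iff]
    constructor
    · intro h l
      exact congrFun h l
    · intro h
      funext l
      exact h l
  rw [hdet]
  constructor
  · intro h h0
    obtain ⟨v, hv1, hv0⟩ := Matrix.exists_mulVec_eq_zero_iff.mpr h0
    apply hv1
    apply h
    rw [← hv]
    have h1 : dotProduct (A.mulVec v) (A.mulVec v) = 0 := by
      rw [← Matrix.mulVec_mulVec] at hv0
      have h2 : dotProduct v (A.transpose.mulVec (A.mulVec v)) =
          dotProduct (A.mulVec v) (A.mulVec v) := by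
        rw [Matrix.dotProduct_mulVec, Matrix.vecMul_transpose]
      rw [← h2, hv0, dotProduct_zero]
    exact dotProduct_self_eq_zero.mp h1
  · intro h v hdv
    by_contra hne
    apply h
    apply Matrix.exists_mulVec_eq_zero_iff.mp
    refine ⟨v, hne, ?_⟩
    rw [← Matrix.mulVec_mulVec, (hv v).mpr hdv, Matrix.mulVec_zero]

/-- For each residue class of `N` modulo three there is a good `N`. -/
theorem exists_good (s r : ℕ) (hs : Odd s) (hr : r < 3) :
    ∃ M : ℕ, s ≤ 3 * M + r ∧ PalWin ℚ (3 * M + r) s := by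
  obtain ⟨p, hp, hps, hp1⟩ := Nat.exists_prime_gt_modEq_one (k := 3) (s + 5) (by norm_num)
  have : Fact p.Prime := ⟨hp⟩
  have hmod : p % 3 = 1 := hp1
  obtain ⟨w, hw⟩ := exists_root_f (AlgebraicClosure (ZMod p))
  have hall : ∀ N, (N = 1 * p ^ 1 ∨ N = 1 * p ^ 1 + 1 ∨ N + 1 = 1 * p ^ 1) → PalWin ℚ N s := by
    intro N hN
    rw [pow_one] at hN
    exact pal_char0 (AlgebraicClosure (ZMod p)) N s
      (palWin_small _ p 1 (by omega) (by omega) w hw 1 s N hs (by omega)
        (by rw [pow_one]; omega) (by norm_num) (by rwa [pow_one])) ℚ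
  have hdiv := Nat.div_add_mod p 3
  interval_cases r
  · refine ⟨p / 3, by omega, hall _ (Or.inr (Or.inr ?_))⟩
    rw [pow_one]
    omega
  · refine ⟨p / 3, by omega, hall _ (Or.inl ?_)⟩
    rw [pow_one]
    omega
  · refine ⟨p / 3, by omega, hall _ (Or.inr (Or.inl ?_))⟩
    rw [pow_one]
    omega

/-- For fixed odd multiplicity all large `N` are fine. -/
theorem palWin_eventually (s : ℕ) (hs : Odd s) : ∃ N0 : ℕ, ∀ N, N0 ≤ N → PalWin ℂ N s := by
  have h1 : ∀ r : ℕ, ∃ B : ℕ, r < 3 → ∀ M, B ≤ M → PalWin ℚ (3 * M + r) s := by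
    intro r
    by_cases hr : r < 3
    · obtain ⟨M0, hM0, hP⟩ := exists_good s r hs hr
      rw [palWin_iff_gram r s M0 hM0] at hP
      have hD : gramP r s ≠ 0 := by
        intro h0
        rw [h0, eval_zero] at hP
        exact hP rfl
      have hfin : {M : ℕ | (gramP r s).eval (M : ℚ) = 0}.Finite := by
        have h2 : {x : ℚ | (gramP r s).eval x = 0}.Finite := by
          refine ((gramP r s).roots.toFinset.finite_toSet).subset fun x hx => ?_
          rw [Finset.mem_coe, Multiset.mem_toFinset, mem_roots hD]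
          exact hx
        exact h2.preimage (Nat.cast_injective.injOn)
      obtain ⟨B, hB⟩ := hfin.bddAbove
      refine ⟨B + s + 1, fun _ M hM => ?_⟩
      rw [palWin_iff_gram r s M (by omega)]
      intro h0
      have := hB h0
      omega
    · exact ⟨0, fun h => absurd h hr⟩
  choose B hB using h1
  refine ⟨3 * (B 0 + B 1 + B 2 + 1), fun N hN => ?_⟩
  have hdiv := Nat.div_add_mod N 3
  have hr : N % 3 < 3 := Nat.mod_lt _ (by norm_num)
  have h2 : B (N % 3) ≤ N / 3 := by
    have h3 : B 0 + B 1 + B 2 + 1 ≤ N / 3 := by omega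
    have h4 : B (N % 3) ≤ B 0 + B 1 + B 2 := by
      generalize N % 3 = r at hr
      interval_cases r <;> omega
    omega
  have h3 := hB (N % 3) hr (N / 3) h2
  rw [hdiv] at h3
  exact pal_char0 ℚ N s h3 ℂ

end Pool.Agent.Lib.MP_c1a8e2_al
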