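import Pool.Agent.Lib.MP_c1a8e2_al.h18.ExcMat
import Pool.Agent.Lib.MP_c1a8e2_al.h31.Top

/-!
# Two variables near a multiple of a prime: all but few degrees
-/

set_option autoImplicit false

open Polynomial Finset

namespace Pool.Agent.Lib.MP_c1a8e2_al

theorem coeff_rel (K : Type) [Field K] (w c : K) (hw3 : w ^ 3 = 1) (e s : ℕ) (v : Fin e → K)
    (j : Fin e) :
    ((X - C w) ^ s * ∑ i : Fin e, C (v i) * X ^ (i : ℕ)).coeff (s + e - 1 - j) -
      c * ((X - C w) ^ s * ∑ i : Fin e, C (v i) * X ^ (i : ℕ)).coeff j =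
    ∑ i : Fin e, ent K w (c * (-w) ^ s) e s j i * v i := by
  have hj := j.2
  have h1 : ∀ n : ℕ, ((X - C w) ^ s * ∑ i : Fin e, C (v i) * X ^ (i : ℕ)).coeff n =
      ∑ i : Fin e, v i * (if (i : ℕ) ≤ n then (-w) ^ (s - (n - i)) *
        ((s.choose (n - i) : ℕ) : K) else 0) := by
    intro n
    rw [Finset.mul_sum, Polynomial.finsetSum_coeff]
    refine Finset.sum_congr rfl fun i _ => ?_
    rw [show (X - C w) ^ s * (C (v i) * X ^ (i : ℕ)) = C (v i) * ((X - C w) ^ s * X ^ (i : ℕ)) by
      ring, coeff_C_mul, coeff_mul_X_pow', sub_eq_add_neg, ← C_neg, coeff_X_add_C_pow]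
  rw [h1, h1, Finset.mul_sum, ← Finset.sum_sub_distrib]
  refine Finset.sum_congr rfl fun i _ => ?_
  have hi := i.2
  have hA : (if (i : ℕ) ≤ s + e - 1 - j then (-w) ^ (s - (s + e - 1 - j - i)) *
      ((s.choose (s + e - 1 - j - i) : ℕ) : K) else 0) =
      if e ≤ (i : ℕ) + j + 1 then (-w) ^ ((i : ℕ) + j + 1 - e) *
        ((s.choose ((i : ℕ) + j + 1 - e) : ℕ) : K) else 0 := by
    by_cases h2 : e ≤ (i : ℕ) + j + 1
    · rw [if_pos h2]
      obtain ⟨k, hk⟩ : ∃ k, (i : ℕ) + j + 1 = e + k := ⟨(i : ℕ) + j + 1 - e, by omega⟩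
      by_cases h3 : k ≤ s
      · rw [if_pos (by omega), show s + e - 1 - (j : ℕ) - i = s - k by omega,
          show s - (s - k) = k by omega, show (i : ℕ) + j + 1 - e = k by omega,
          Nat.choose_symm h3]
      · rw [if_neg (by omega), show (i : ℕ) + j + 1 - e = k by omega,
          Nat.choose_eq_zero_of_lt (by omega)]
        simp
    · rw [if_neg h2, Nat.choose_eq_zero_of_lt (by omega)]
      simp
  have hB : c * (if (i : ℕ) ≤ j then (-w) ^ (s - ((j : ℕ) - i)) *
      ((s.choose ((j : ℕ) - i) : ℕ) : K) else 0) =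
      if (i : ℕ) ≤ j then c * (-w) ^ s * (-w ^ 2) ^ ((j : ℕ) - i) *
        ((s.choose ((j : ℕ) - i) : ℕ) : K) else 0 := by
    by_cases h2 : (i : ℕ) ≤ j
    · rw [if_pos h2, if_pos h2]
      obtain ⟨k, hk⟩ : ∃ k, (j : ℕ) - i = k := ⟨_, rfl⟩
      rw [hk]
      by_cases h3 : k ≤ s
      · have h4 : (-w) ^ s * (-w ^ 2) ^ k = (-w) ^ (s - k) := by
          conv_lhs => rw [← Nat.sub_add_cancel h3]
          rw [pow_add, mul_assoc, ← mul_pow, show -w * -w ^ 2 = w ^ 3 by ring, hw3, one_pow,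
            mul_one]
        rw [← h4]
        ring
      · rw [Nat.choose_eq_zero_of_lt (by omega)]
        simp
    · rw [if_neg h2, if_neg h2, mul_zero]
  unfold ent
  rw [hA, sub_mul, ← hB]
  ring

theorem w_cube {K : Type} [Field K] {w : K} (hw : w ^ 2 + w + 1 = 0) : w ^ 3 = 1 := by
  linear_combination (w - 1) * hw

/-- Base point `0`. -/
theorem triv_base_zero (K : Type) [Field K] (w κ : K) (hw : w ^ 2 + w + 1 = 0) (hκ : κ ^ 2 ≠ 1)
    (e : ℕ) : Triv K w κ e 0 := by
  intro v hv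
  have h1 := fun j : Fin e => coeff_rel K w κ (w_cube hw) e 0 v j
  simp only [pow_zero, mul_one, one_mul, hv] at h1
  have h2 : ∀ j : Fin e, (∑ i : Fin e, C (v i) * X ^ (i : ℕ) : K[X]).coeff j = v j := by
    intro j
    rw [Polynomial.finsetSum_coeff, Finset.sum_eq_single j]
    · simp
    · intro i _ hij
      rw [coeff_C_mul, coeff_X_pow, if_neg, mul_zero]
      intro h
      exact hij (Fin.ext h.symm)
    · intro h
      exact absurd (Finset.mem_univ _) h
  funext j
  have hj := j.2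
  have h3 := h1 j
  have h4 := h1 j.rev
  rw [show 0 + e - 1 - (j : ℕ) = (j.rev : ℕ) by rw [Fin.val_rev]; omega, h2, h2] at h3
  rw [show 0 + e - 1 - (j.rev : ℕ) = (j : ℕ) by rw [Fin.val_rev]; omega, h2, h2] at h4
  have h5 : (1 - κ ^ 2) * v j = 0 := by linear_combination h4 + κ * h3
  exact (mul_eq_zero.mp h5).resolve_left (sub_ne_zero.mpr (Ne.symm hκ))

/-- Base point `1`. -/
theorem triv_base_one (K : Type) [Field K] (w : K) (hw : w ^ 2 + w + 1 = 0) (h2 : (2 : K) ≠ 0)
    (h3 : (3 : K) ≠ 0) (e : ℕ) : Triv K w (-1) e 1 := by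
  rcases Nat.eq_zero_or_pos e with he | he
  · subst he
    intro v _
    exact Subsingleton.elim _ _
  intro v hv
  have hw3 := w_cube hw
  have hw1 : w ≠ 1 := by
    intro h
    rw [h] at hw
    apply h3
    linear_combination hw
  have h1 := fun j : Fin e => coeff_rel K w (w ^ 2) hw3 e 1 v j
  rw [show w ^ 2 * (-w) ^ 1 = -1 by linear_combination -hw3] at h1
  simp only [hv] at h1
  have hR : ∀ j : Fin e, (∑ i : Fin e, C (v i) * X ^ (i : ℕ) : K[X]).coeff j = v j := by
    intro j
    rw [Polynomial.finsetSum_coeff, Finset.sum_eq_single j]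
    · simp
    · intro i _ hij
      rw [coeff_C_mul, coeff_X_pow, if_neg, mul_zero]
      intro h
      exact hij (Fin.ext h.symm)
    · intro h
      exact absurd (Finset.mem_univ _) h
  have hRhigh : ∀ n, e ≤ n → (∑ i : Fin e, C (v i) * X ^ (i : ℕ) : K[X]).coeff n = 0 := by
    intro n hn
    rw [Polynomial.finsetSum_coeff]
    refine Finset.sum_eq_zero fun i _ => ?_
    have := i.2
    rw [coeff_C_mul, coeff_X_pow, if_neg (by omega), mul_zero]
  set R : K[X] := ∑ i : Fin e, C (v i) * X ^ (i : ℕ) with hRdef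
  set P : K[X] := (X - C w) ^ 1 * R with hPdef
  have hmid : ∀ n, 1 ≤ n → n < e → P.coeff n = 0 := by
    intro n hn hne
    have h5 := h1 ⟨n, hne⟩
    have h6 := h1 ⟨e - n, by omega⟩
    simp only at h5 h6
    rw [show 1 + e - 1 - n = e - n by omega] at h5
    rw [show 1 + e - 1 - (e - n) = n by omega] at h6
    have h7 : (1 - w) * P.coeff n = 0 := by
      linear_combination h6 + w ^ 2 * h5 + w * P.coeff n * hw3
    exact (mul_eq_zero.mp h7).resolve_left (sub_ne_zero.mpr (Ne.symm hw1))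
  have hhigh : ∀ n, e + 1 ≤ n → P.coeff n = 0 := by
    intro n hn
    rw [hPdef, pow_one, sub_mul, coeff_sub, coeff_C_mul, hRhigh n (by omega), mul_zero, sub_zero]
    obtain ⟨k, rfl⟩ : ∃ k, n = k + 1 := ⟨n - 1, by omega⟩
    rw [coeff_X_mul, hRhigh k (by omega)]
  have h0 := h1 ⟨0, he⟩
  simp only at h0
  rw [show 1 + e - 1 - 0 = e by omega] at h0
  have hP : P = C (P.coeff 0) * (1 + C (w ^ 2) * X ^ e) := by
    ext n
    rw [coeff_C_mul, coeff_add, coeff_C_mul, coeff_X_pow, coeff_one]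
    rcases Nat.eq_zero_or_pos n with hn | hn
    · subst hn
      rw [if_pos rfl, if_neg (by omega)]
      ring
    · rw [if_neg (by omega)]
      rcases Nat.lt_trichotomy n e with hn2 | hn2 | hn2
      · rw [hmid n hn hn2, if_neg (by omega)]
        ring
      · rw [hn2, if_pos rfl]
        linear_combination h0
      · rw [hhigh n (by omega), if_neg (by omega)]
        ring
  have hev : P.eval w = 0 := by
    rw [hPdef, pow_one, eval_mul, eval_sub, eval_X, eval_C, sub_self, zero_mul]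
  have hu : 1 + w ^ 2 * w ^ e ≠ 0 := by
    intro h
    have h8 : (w ^ 2 * w ^ e) ^ 3 = 1 := by
      rw [mul_pow, ← pow_mul, ← pow_mul, mul_comm 2 3, mul_comm e 3, pow_mul, pow_mul, hw3]
      simp
    have h9 : w ^ 2 * w ^ e = -1 := by linear_combination h
    rw [h9] at h8
    apply h2
    linear_combination -h8
  have hP0 : P.coeff 0 = 0 := by
    rw [hP, eval_mul, eval_C, eval_add, eval_one, eval_mul, eval_C, eval_pow, eval_X] at hev
    exact (mul_eq_zero.mp hev).resolve_right hu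
  have hPz : P = 0 := by
    rw [hP, hP0, C_0, zero_mul]
  have hRz : R = 0 := by
    rw [hPdef, pow_one] at hPz
    exact (mul_eq_zero.mp hPz).resolve_left (X_sub_C_ne_zero w)
  funext j
  rw [← hR j, hRz]
  simp

theorem core (K : Type) [Field K] (w c : K) (hw : w ^ 2 + w + 1 = 0) (hc : c ^ 2 ≠ 1) (e s : ℕ)
    (htriv : Triv K w (c * (-w) ^ s) e s) (a : ℕ → K) (ha : ∀ i, s ≤ i → a i = 0) (P : K[X])
    (hlow : ∀ n, n < s + e → P.coeff n = a n + c * a (s + e - 1 - n))
    (hhigh : ∀ n, s + e ≤ n → P.coeff n = 0) (hdvd : (X - C w) ^ s ∣ P) : ∀ i, a i = 0 := by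
  have hw3 := w_cube hw
  have hP0 : P = 0 := by
    obtain ⟨R, hR⟩ := hdvd
    have hmon : ((X - C w) ^ s).Monic := (monic_X_sub_C w).pow s
    have hRdeg : ∀ n, e ≤ n → R.coeff n = 0 := by
      intro n hn
      by_contra hne
      have hR0 : R ≠ 0 := by
        intro h
        rw [h, coeff_zero] at hne
        exact hne rfl
      have h1 : P.natDegree = s + R.natDegree := by
        rw [hR, hmon.natDegree_mul' hR0, natDegree_pow, natDegree_X_sub_C, mul_one]
      have h2 : n ≤ R.natDegree := le_natDegree_of_ne_zero hne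
      have h3 : P.coeff P.natDegree = 0 := hhigh _ (by omega)
      rw [coeff_natDegree, leadingCoeff_eq_zero] at h3
      rw [h3] at hR
      exact (mul_ne_zero hmon.ne_zero hR0) hR.symm
    have hRsum : R = ∑ i : Fin e, C (R.coeff i) * X ^ (i : ℕ) := by
      ext n
      rw [Polynomial.finsetSum_coeff]
      rcases Nat.lt_or_ge n e with h1 | h1
      · rw [Finset.sum_eq_single (⟨n, h1⟩ : Fin e)]
        · simp
        · intro i _ hij
          rw [coeff_C_mul, coeff_X_pow, if_neg, mul_zero]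
          intro h
          exact hij (Fin.ext h.symm)
        · intro h
          exact absurd (Finset.mem_univ _) h
      · rw [hRdeg n h1]
        refine (Finset.sum_eq_zero fun i _ => ?_).symm
        have := i.2
        rw [coeff_C_mul, coeff_X_pow, if_neg (by omega), mul_zero]
    have h1 := htriv (fun i => R.coeff i) (by
      intro j
      have hj := j.2
      rw [← coeff_rel K w c hw3 e s (fun i => R.coeff i) j, ← hRsum, ← hR,
        hlow _ (by omega), hlow _ (by omega), ha (s + e - 1 - j) (by omega),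
        show s + e - 1 - (s + e - 1 - (j : ℕ)) = j by omega]
      ring)
    have h2 : R = 0 := by
      rw [hRsum]
      refine Finset.sum_eq_zero fun i _ => ?_
      have h3 : R.coeff i = 0 := congrFun h1 i
      rw [h3, C_0, zero_mul]
    rw [hR, h2, mul_zero]
  intro i
  rcases Nat.lt_or_ge i s with hi | hi
  · have h1 := hlow i (by omega)
    have h2 := hlow (s + e - 1 - i) (by omega)
    rw [show s + e - 1 - (s + e - 1 - i) = i by omega] at h2
    rw [hP0, coeff_zero] at h1 h2
    have h3 : (1 - c ^ 2) * a i = 0 := by linear_combination c * h2 - h1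
    exact (mul_eq_zero.mp h3).resolve_left (sub_ne_zero.mpr (Ne.symm hc))
  · exact ha i hi

theorem pow_w_mod {K : Type} [Field K] {w : K} (hw3 : w ^ 3 = 1) (k : ℕ) :
    w ^ k = w ^ (k % 3) := by
  conv_lhs => rw [← Nat.div_add_mod k 3, pow_add, pow_mul, hw3, one_pow, one_mul]

theorem w_pow_ne_one {K : Type} [Field K] {w : K} (hw : w ^ 2 + w + 1 = 0) (h3 : (3 : K) ≠ 0)
    (k : ℕ) (hk : ¬ 3 ∣ k) : w ^ k ≠ 1 := by
  have hw3 := w_cube hw
  have hw1 : w ≠ 1 := by
    intro h
    rw [h] at hw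
    apply h3
    linear_combination hw
  rw [pow_w_mod hw3]
  have h1 : k % 3 = 1 ∨ k % 3 = 2 := by omega
  rcases h1 with h1 | h1
  · rw [h1, pow_one]
    exact hw1
  · rw [h1]
    intro h
    apply hw1
    linear_combination hw3 - w * h

theorem dvd_of_frob (K : Type) [Field K] (p b : ℕ) [hp : Fact p.Prime] [CharP K p] (w : K)
    (t s : ℕ) (hs : s ≤ p ^ b) :
    (X - C w) ^ s ∣ (X ^ (t * p ^ b) - C (w ^ (t * p ^ b)) : K[X]) := by
  have h1 : (X ^ (t * p ^ b) - C (w ^ (t * p ^ b)) : K[X]) = (X ^ t - C w ^ t) ^ p ^ b := by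
    rw [sub_pow_char_pow, ← pow_mul, ← pow_mul, C_pow]
  rw [h1]
  exact (pow_dvd_pow _ hs).trans (pow_dvd_pow_of_dvd (sub_dvd_pow_sub_pow X (C w) t) _)

theorem palWin_exc (K : Type) [Field K] (p b : ℕ) [hp : Fact p.Prime] [CharP K p] (w : K)
    (hw : w ^ 2 + w + 1 = 0) (h3 : (3 : K) ≠ 0) (t e s N : ℕ) (htp : ¬ 3 ∣ t * p ^ b)
    (hsN : s < N) (hsp : s ≤ p ^ b)
    (hN : N = t * p ^ b + e ∧ Triv K w (w ^ (t * p ^ b) * (-w) ^ s) e s ∨
      N + e = t * p ^ b ∧ Triv K w (w ^ (2 * (t * p ^ b)) * (-w) ^ s) e s) : PalWin K N s := by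
  have hfr := dvd_of_frob K p b w t s hsp
  generalize t * p ^ b = T at htp hN hfr
  intro G hdvd hhigh hmid hpal
  have hw3 := w_cube hw
  obtain ⟨A, B, hA, hB, hG⟩ := split_window G s N hhigh hmid
  have hX : (X - C w) ∣ (X ^ 2 + X + 1 : K[X]) := by
    rw [dvd_iff_isRoot, IsRoot.def]
    simpa using hw
  have hGd : (X - C w) ^ s ∣ G := (pow_dvd_pow_of_dvd hX s).trans hdvd
  have hBG : ∀ n, n < s → B.coeff n = G.coeff (s - 1 - n) := by
    intro n hn
    rw [hB, if_pos hn]
    exact hpal _ _ (by omega)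
  have hBhigh : ∀ n, s ≤ n → B.coeff n = 0 := fun n hn => by rw [hB, if_neg (by omega)]
  have hAG : ∀ n, n < s → A.coeff n = G.coeff n := by
    intro n hn
    rw [hA, if_pos ⟨hn, by omega⟩]
  have hAhigh : ∀ n, s ≤ n → A.coeff n = 0 := fun n hn => by rw [hA, if_neg (by omega)]
  have hfin : (∀ n, n < s → G.coeff n = 0) → G = 0 := by
    intro h
    ext n
    rw [coeff_zero]
    rcases Nat.lt_or_ge n s with h1 | h1
    · exact h n h1
    rcases Nat.lt_or_ge n N with h2 | h2
    · exact hmid n h1 h2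
    rcases Nat.lt_or_ge n (s + N) with h4 | h4
    · rw [hpal n (s + N - 1 - n) (by omega)]
      exact h _ (by omega)
    · exact hhigh n h4
  rcases hN with ⟨hN, htriv⟩ | ⟨hN, htriv⟩
  · have hc : (w ^ T) ^ 2 ≠ 1 := by
      rw [← pow_mul]
      exact w_pow_ne_one hw h3 _ (by omega)
    have h1 := core K w (w ^ T) hw hc e s htriv (fun n => if n < s then G.coeff n else 0)
      (fun i hi => if_neg (by omega)) (A + C (w ^ T) * (X ^ e * B)) ?_ ?_ ?_
    · refine hfin fun n hn => ?_
      have h2 := h1 n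
      simpa only [if_pos hn] using h2
    · intro n hn
      rw [coeff_add, coeff_C_mul, coeff_X_pow_mul']
      congr 1
      · split_ifs with h2
        · exact hAG n h2
        · exact hAhigh n (by omega)
      · congr 1
        by_cases h2 : e ≤ n
        · rw [if_pos h2, if_pos (by omega), hBG _ (by omega),
            show s - 1 - (n - e) = s + e - 1 - n by omega]
        · rw [if_neg h2, if_neg (by omega)]
    · intro n hn
      rw [coeff_add, coeff_C_mul, coeff_X_pow_mul', hAhigh n (by omega), if_pos (by omega),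
        hBhigh _ (by omega)]
      ring
    · have h2 : A + C (w ^ T) * (X ^ e * B) =
          G - (X ^ T - C (w ^ T)) * (X ^ e * B) := by
        rw [hG, hN, pow_add]
        ring
      rw [h2]
      exact dvd_sub hGd (Dvd.dvd.mul_right hfr _)
  · have hc : (w ^ (2 * T)) ^ 2 ≠ 1 := by
      rw [← pow_mul]
      exact w_pow_ne_one hw h3 _ (by omega)
    have h1 := core K w (w ^ (2 * T)) hw hc e s htriv (fun n => B.coeff n)
      (fun i hi => hBhigh i hi) (B + C (w ^ (2 * T)) * (X ^ e * A)) ?_ ?_ ?_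
    · refine hfin fun n hn => ?_
      have h2 : B.coeff (s - 1 - n) = 0 := h1 (s - 1 - n)
      rwa [hBG _ (by omega), show s - 1 - (s - 1 - n) = n by omega] at h2
    · intro n hn
      rw [coeff_add, coeff_C_mul, coeff_X_pow_mul']
      congr 1
      congr 1
      by_cases h2 : e ≤ n
      · rw [if_pos h2]
        rcases Nat.lt_or_ge (n - e) s with h4 | h4
        · rw [hAG _ h4, hBG _ (by omega), show s - 1 - (s + e - 1 - n) = n - e by omega]
        · omega
      · rw [if_neg h2, hBhigh _ (by omega)]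
    · intro n hn
      rw [coeff_add, coeff_C_mul, coeff_X_pow_mul', hBhigh n (by omega), if_pos (by omega),
        hAhigh _ (by omega)]
      ring
    · have hcc : w ^ (2 * T) * w ^ T = 1 := by
        rw [← pow_add, show 2 * T + T = 3 * T by ring, pow_mul, hw3, one_pow]
      have hcc' : (C (w ^ (2 * T)) * C (w ^ T) : K[X]) = 1 := by
        rw [← C_mul, hcc, C_1]
      have h2 : B + C (w ^ (2 * T)) * (X ^ e * A) =
          C (w ^ (2 * T)) * (X ^ e * G - (X ^ T - C (w ^ T)) * B) := by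
        have h4 : (X : K[X]) ^ e * G = X ^ e * A + X ^ T * B := by
          rw [hG, ← hN, pow_add]
          ring
        rw [h4]
        linear_combination (-B) * hcc'
      rw [h2]
      exact Dvd.dvd.mul_left (dvd_sub (Dvd.dvd.mul_left hGd _) (Dvd.dvd.mul_right hfr _)) _

open Classical in
/-- The set of the exceptional `s < q`. -/
noncomputable def excS (K : Type) [Field K] (w : K) (q e : ℕ) : Finset ℕ :=
  ((range q).filter fun s => ¬ Triv K w (-1) e s) ∪
    (((range q).filter fun s => ¬ Triv K w (-w) e s) ∪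
      ((range q).filter fun s => ¬ Triv K w (-w ^ 2) e s))

open Classical in
theorem excS_card (K : Type) [Field K] (p b : ℕ) [hp : Fact p.Prime] [CharP K p] (hp5 : 5 ≤ p)
    (w : K) (hw : w ^ 2 + w + 1 = 0) (e : ℕ) (he : e ≤ p) :
    (excS K w (p ^ (b + 1)) e).card ≤ 3 * (p ^ b * (e ^ 2 / 4)) := by
  have h2 := two_ne K p (by omega)
  have h3 := three_ne K p (by omega)
  have hw3 := w_cube hw
  have e1 := card_nontriv_pow K p b w (-1) e he 1 (triv_base_one K w hw h2 h3 e)
  have e2 := card_nontriv_pow K p b w (-w) e he 0 (triv_base_zero K w (-w) hw (by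
    rw [neg_sq]
    exact w_pow_ne_one hw h3 2 (by norm_num)) e)
  have e3 := card_nontriv_pow K p b w (-w ^ 2) e he 0 (triv_base_zero K w (-w ^ 2) hw (by
    rw [neg_sq, ← pow_mul]
    exact w_pow_ne_one hw h3 4 (by norm_num)) e)
  have h4 := Finset.card_union_le ((range (p ^ (b + 1))).filter fun s => ¬ Triv K w (-1) e s)
    (((range (p ^ (b + 1))).filter fun s => ¬ Triv K w (-w) e s) ∪
      ((range (p ^ (b + 1))).filter fun s => ¬ Triv K w (-w ^ 2) e s))
  have h5 := Finset.card_union_le ((range (p ^ (b + 1))).filter fun s => ¬ Triv K w (-w) e s)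
      ((range (p ^ (b + 1))).filter fun s => ¬ Triv K w (-w ^ 2) e s)
  unfold excS
  omega

theorem triv_of_not_mem (K : Type) [Field K] (w : K) (hw : w ^ 2 + w + 1 = 0) (q e s k : ℕ)
    (hs : s ∉ excS K w q e) (hsp : s < q) (hodd : Odd s) : Triv K w (w ^ k * (-w) ^ s) e s := by
  unfold excS at hs
  simp only [Finset.mem_union, Finset.mem_filter, Finset.mem_range, not_or, not_and, not_not] at hs
  obtain ⟨h1, h2, h3⟩ := hs
  have h4 : w ^ k * (-w) ^ s = -w ^ ((k + s) % 3) := by
    rw [← pow_w_mod (w_cube hw), hodd.neg_pow, pow_add]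
    ring
  rw [h4]
  have h5 : (k + s) % 3 < 3 := Nat.mod_lt _ (by norm_num)
  generalize (k + s) % 3 = r at h5
  interval_cases r
  · rw [pow_zero]
    exact h1 hsp
  · rw [pow_one]
    exact h2 hsp
  · exact h3 hsp

open Classical in
/-- For `m + 1 = t q ± e`, `q = p ^ a`, all degrees `d < m + q` except few. -/
theorem det_MD_exc (m p a t e : ℕ) (hp : p.Prime) (hp5 : 5 ≤ p) (ht : ¬ 3 ∣ t)
    (hN : m + 1 = t * p ^ a + e ∨ m + 1 + e = t * p ^ a) :
    ∃ B : Finset ℕ, p * B.card ≤ 3 * (e ^ 2 / 4) * p ^ a ∧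
      ∀ d, d < m + p ^ a → d ∉ B → (MD m d).det ≠ 0 := by
  rcases Nat.eq_zero_or_pos a with ha | ha
  · subst ha
    exact ⟨∅, by simp, fun d hd _ => det_MD_ne m d (Or.inl (by simpa using hd.le))⟩
  obtain ⟨b, rfl⟩ : ∃ b, a = b + 1 := ⟨a - 1, by omega⟩
  by_cases h1 : p ≤ e
  · refine ⟨(range (p ^ (b + 1))).image (m + ·), ?_, fun d hd hB => ?_⟩
    · have h2 : ((range (p ^ (b + 1))).image (m + ·)).card ≤ p ^ (b + 1) := by
        refine Finset.card_image_le.trans_eq ?_
        rw [Finset.card_range]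
      refine Nat.mul_le_mul ?_ h2
      have h4 : e ≤ e ^ 2 / 4 := by
        rw [Nat.le_div_iff_mul_le (by norm_num)]
        nlinarith
      omega
    · refine det_MD_ne m d (Or.inl ?_)
      by_contra hc
      apply hB
      rw [Finset.mem_image]
      exact ⟨d - m, Finset.mem_range.mpr (by omega), by omega⟩
  have : Fact p.Prime := ⟨hp⟩
  obtain ⟨w, hw⟩ := exists_root_f (AlgebraicClosure (ZMod p))
  refine ⟨(excS (AlgebraicClosure (ZMod p)) w (p ^ (b + 1)) e).image (m + ·), ?_,
    fun d hd hB => ?_⟩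
  · have h3 := excS_card (AlgebraicClosure (ZMod p)) p b hp5 w hw e (by omega)
    have h4 : ((excS (AlgebraicClosure (ZMod p)) w (p ^ (b + 1)) e).image (m + ·)).card ≤
        (excS (AlgebraicClosure (ZMod p)) w (p ^ (b + 1)) e).card := Finset.card_image_le
    calc p * ((excS (AlgebraicClosure (ZMod p)) w (p ^ (b + 1)) e).image (m + ·)).card
        ≤ p * (3 * (p ^ b * (e ^ 2 / 4))) := Nat.mul_le_mul_left p (h4.trans h3)
      _ = 3 * (e ^ 2 / 4) * p ^ (b + 1) := by ring
  rcases Nat.lt_or_ge (m + 1) d with h4 | h4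
  swap
  · exact det_MD_ne m d (Or.inl h4)
  rcases Nat.even_or_odd (d - m) with h5 | h5
  · refine det_MD_ne m d (Or.inr (Or.inl ?_))
    obtain ⟨i, hi⟩ := h5
    exact ⟨i + m, by omega⟩
  rcases Nat.lt_or_ge (2 * m) d with h6 | h6
  · exact det_MD_ne m d (Or.inr (Or.inr (Or.inl h6)))
  have hs : d - m ∉ excS (AlgebraicClosure (ZMod p)) w (p ^ (b + 1)) e := by
    intro h
    apply hB
    rw [Finset.mem_image]
    exact ⟨d - m, h, by omega⟩
  have htp : ¬ 3 ∣ t * p ^ (b + 1) := by
    intro h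
    rcases (Nat.Prime.dvd_mul Nat.prime_three).mp h with h | h
    · exact ht h
    · have := (Nat.prime_dvd_prime_iff_eq Nat.prime_three hp).mp
        (Nat.prime_three.dvd_of_dvd_pow h)
      omega
  have hP := degOK_of_palWin (AlgebraicClosure (ZMod p)) w hw d h6
    (palWin_exc (AlgebraicClosure (ZMod p)) p (b + 1) w hw (three_ne _ p (by omega)) t e (d - m)
      (m + 1) htp (by omega) (by omega) (by
        rcases hN with hN | hN
        · exact Or.inl ⟨hN, triv_of_not_mem _ w hw _ e _ _ hs (by omega) h5⟩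
        · exact Or.inr ⟨hN, triv_of_not_mem _ w hw _ e _ _ hs (by omega) h5⟩))
  intro h0
  rw [degOK_iff, h0] at hP
  simp at hP

open Classical in
/-- The top degrees. -/
theorem det_MD_top (m d : ℕ) (hd : d ≤ 2 * m) (h5 : 5 * (2 * m - d) + 5 ≤ d - m) :
    (MD m d).det ≠ 0 := by
  obtain ⟨w, hw⟩ := exists_root_f ℂ
  have h1 := degOK_of_palWin ℂ w hw d hd (win_top (m + 1) (d - m) (by omega) (by omega)).pal
  intro h0
  rw [degOK_iff, h0] at h1
  simp at h1

end Pool.Agent.Lib.MP_c1a8e2_al
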