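import Pool.Agent.Lib.MP_c1a8e2_al.h18.Degrees

/-!
# Two variables near a multiple of a prime: the matrix of size `e`
-/

set_option autoImplicit false

open Polynomial Finset

namespace Pool.Agent.Lib.MP_c1a8e2_al

/-- The binomial coefficient as a polynomial. -/
noncomputable def binP (K : Type) [Field K] (k : ℕ) : K[X] :=
  C ((k.factorial : K)⁻¹) * descPochhammer K k

theorem binP_eval (K : Type) [Field K] (p : ℕ) [hp : Fact p.Prime] [CharP K p] (k s : ℕ)
    (hk : k < p) : (binP K k).eval (s : K) = ((s.choose k : ℕ) : K) := by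
  unfold binP
  rw [eval_mul, eval_C, descPochhammer_eval_eq_descFactorial,
    Nat.descFactorial_eq_factorial_mul_choose, Nat.cast_mul, ← mul_assoc, inv_mul_cancel₀, one_mul]
  rw [Ne, CharP.cast_eq_zero_iff K p]
  intro h
  exact absurd ((hp.out.dvd_factorial).mp h) (by omega)

theorem binP_natDegree (K : Type) [Field K] (k : ℕ) : (binP K k).natDegree ≤ k := by
  refine (natDegree_C_mul_le _ _).trans ?_
  rw [descPochhammer_natDegree]

/-- The entries of the matrix at a natural number `s`. -/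
def ent (K : Type) [Field K] (w κ : K) (e s j i : ℕ) : K :=
  (if e ≤ i + j + 1 then (-w) ^ (i + j + 1 - e) * ((s.choose (i + j + 1 - e) : ℕ) : K) else 0) -
    (if i ≤ j then κ * (-w ^ 2) ^ (j - i) * ((s.choose (j - i) : ℕ) : K) else 0)

/-- Only the trivial solution at `s`. -/
def Triv (K : Type) [Field K] (w κ : K) (e s : ℕ) : Prop :=
  ∀ v : Fin e → K, (∀ j : Fin e, ∑ i : Fin e, ent K w κ e s j i * v i = 0) → v = 0

/-- The matrix with polynomial entries. -/
noncomputable def wM (K : Type) [Field K] (w κ : K) (e : ℕ) : Matrix (Fin e) (Fin e) K[X] :=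
  fun j i =>
  (if e ≤ (i : ℕ) + j + 1 then C ((-w) ^ ((i : ℕ) + j + 1 - e)) * binP K ((i : ℕ) + j + 1 - e)
    else 0) -
    (if (i : ℕ) ≤ j then C (κ * (-w ^ 2) ^ ((j : ℕ) - i)) * binP K ((j : ℕ) - i) else 0)

theorem wM_eval (K : Type) [Field K] (p : ℕ) [hp : Fact p.Prime] [CharP K p] (w κ : K) (e s : ℕ)
    (he : e ≤ p) (j i : Fin e) : (wM K w κ e j i).eval (s : K) = ent K w κ e s j i := by
  have hi := i.2
  have hj := j.2
  unfold wM ent
  rw [eval_sub]
  congr 1
  · split_ifs with h
    · rw [eval_mul, eval_C, binP_eval K p _ s (by omega)]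
    · rw [eval_zero]
  · split_ifs with h
    · rw [eval_mul, eval_C, binP_eval K p _ s (by omega)]
    · rw [eval_zero]

theorem triv_iff (K : Type) [Field K] (p : ℕ) [hp : Fact p.Prime] [CharP K p] (w κ : K) (e s : ℕ)
    (he : e ≤ p) : Triv K w κ e s ↔ (wM K w κ e).det.eval (s : K) ≠ 0 := by
  have h1 : (wM K w κ e).det.eval (s : K) = ((wM K w κ e).map (eval (s : K))).det := by
    have := RingHom.map_det (evalRingHom (s : K)) (wM K w κ e)
    rw [coe_evalRingHom] at this
    rw [this]
    rfl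
  rw [h1, Ne, ← Matrix.exists_mulVec_eq_zero_iff]
  have h2 : ∀ v : Fin e → K, ((wM K w κ e).map (eval (s : K))).mulVec v = 0 ↔
      ∀ j : Fin e, ∑ i : Fin e, ent K w κ e s j i * v i = 0 := by
    intro v
    rw [funext_iff]
    refine forall_congr' fun j => ?_
    simp only [Matrix.mulVec, dotProduct, Matrix.map_apply, Pi.zero_apply,
      wM_eval K p w κ e s he]
  simp only [h2]
  unfold Triv
  push Not
  constructor
  · intro h v hv
    by_contra hc
    push Not at hc
    exact hv (h v hc)
  · intro h v hv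
    by_contra hc
    obtain ⟨j, hj⟩ := h v hc
    exact hj (hv j)

/-- `4 * ∑ (2 i + 1 - e) ≤ e ^ 2`. -/
theorem sum_bound : ∀ e : ℕ, 4 * ∑ i ∈ range e, (2 * i + 1 - e) ≤ e ^ 2 := by
  intro e
  induction e using Nat.twoStepInduction with
  | zero => simp
  | one => simp
  | more e ih _ =>
    have h1 : ∑ i ∈ range (e + 2), (2 * i + 1 - (e + 2)) =
        ∑ i ∈ range e, (2 * i + 1 - e) + (e + 1) := by
      rw [Finset.sum_range_succ', Finset.sum_range_succ]
      have h2 : ∀ i, 2 * (i + 1) + 1 - (e + 2) = 2 * i + 1 - e := fun i => by omega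
      simp only [h2]
      have h3 : 2 * e + 1 - e = e + 1 := by omega
      have h4 : 2 * 0 + 1 - (e + 2) = 0 := by omega
      rw [h3, h4, add_zero]
    rw [h1]
    nlinarith

theorem wM_det_natDegree (K : Type) [Field K] (w κ : K) (e : ℕ) :
    4 * (wM K w κ e).det.natDegree ≤ e ^ 2 := by
  refine le_trans (Nat.mul_le_mul_left 4 ?_) (sum_bound e)
  rw [Matrix.det_apply]
  refine natDegree_sum_le_of_forall_le _ _ fun σ _ => ?_
  refine (natDegree_smul_le _ _).trans ?_
  by_cases h0 : ∏ i, wM K w κ e (σ i) i = 0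
  · rw [h0, natDegree_zero]
    exact Nat.zero_le _
  have hent : ∀ i : Fin e, (wM K w κ e (σ i) i).natDegree + min (i : ℕ) (e - 1 - i) ≤ σ i := by
    intro i
    have hi := i.2
    have hj := (σ i).2
    have hne : wM K w κ e (σ i) i ≠ 0 := fun h => h0 (Finset.prod_eq_zero (Finset.mem_univ i) h)
    by_cases h1 : e ≤ (i : ℕ) + σ i + 1
    · have ha : (wM K w κ e (σ i) i).natDegree ≤ max ((i : ℕ) + σ i + 1 - e) ((σ i : ℕ) - i) := by
        unfold wM
        refine (natDegree_sub_le _ _).trans (max_le_max ?_ ?_)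
        · rw [if_pos h1]
          exact (natDegree_C_mul_le _ _).trans (binP_natDegree K _)
        · split_ifs
          · exact (natDegree_C_mul_le _ _).trans (binP_natDegree K _)
          · rw [natDegree_zero]
            exact Nat.zero_le _
      by_cases h2 : (i : ℕ) ≤ σ i
      · omega
      · have hb : (wM K w κ e (σ i) i).natDegree ≤ (i : ℕ) + σ i + 1 - e := by
          unfold wM
          rw [if_pos h1, if_neg h2, sub_zero]
          exact (natDegree_C_mul_le _ _).trans (binP_natDegree K _)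
        omega
    · have h2 : (i : ℕ) ≤ σ i := by
        by_contra h2
        apply hne
        unfold wM
        rw [if_neg h1, if_neg h2, sub_zero]
      have hb : (wM K w κ e (σ i) i).natDegree ≤ (σ i : ℕ) - i := by
        unfold wM
        rw [if_neg h1, if_pos h2, zero_sub, natDegree_neg]
        exact (natDegree_C_mul_le _ _).trans (binP_natDegree K _)
      omega
  have h1 : ∑ i : Fin e, ((wM K w κ e (σ i) i).natDegree + min (i : ℕ) (e - 1 - i)) ≤
      ∑ i : Fin e, (i : ℕ) := by
    refine (Finset.sum_le_sum fun i _ => hent i).trans_eq ?_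
    exact Equiv.sum_comp σ (fun i : Fin e => (i : ℕ))
  have h2 : ∑ i : Fin e, (i : ℕ) = ∑ i : Fin e, (2 * (i : ℕ) + 1 - e) +
      ∑ i : Fin e, min (i : ℕ) (e - 1 - i) := by
    rw [← Finset.sum_add_distrib]
    refine Finset.sum_congr rfl fun i _ => ?_
    have := i.2
    omega
  rw [Finset.sum_add_distrib, h2] at h1
  have h3 : ∑ i : Fin e, (2 * (i : ℕ) + 1 - e) = ∑ i ∈ range e, (2 * i + 1 - e) :=
    Fin.sum_univ_eq_sum_range (fun i => 2 * i + 1 - e) e
  rw [← h3]
  exact (natDegree_prod_le _ _).trans (by simpa using h1)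

open Classical in
/-- Few `s` have nontrivial solutions. -/
theorem card_nontriv (K : Type) [Field K] (p : ℕ) [hp : Fact p.Prime] [CharP K p] (w κ : K)
    (e : ℕ) (he : e ≤ p) (s₀ : ℕ) (h0 : Triv K w κ e s₀) :
    ((range p).filter fun s => ¬ Triv K w κ e s).card ≤ e ^ 2 / 4 := by
  have hdeg := wM_det_natDegree K w κ e
  rw [Nat.le_div_iff_mul_le (by norm_num)]
  refine le_trans (Nat.mul_le_mul_right 4 ?_) ((mul_comm _ _).trans_le hdeg)
  have hD : (wM K w κ e).det ≠ 0 := by
    intro h
    rw [triv_iff K p w κ e s₀ he, h, eval_zero] at h0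
    exact h0 rfl
  refine le_trans ?_ (card_roots' _)
  refine le_trans ?_ (Multiset.toFinset_card_le _)
  refine Finset.card_le_card_of_injOn (fun s : ℕ => (s : K)) ?_ ?_
  · intro s hs
    rw [Finset.mem_coe, Finset.mem_filter, triv_iff K p w κ e s he, not_not] at hs
    rw [Finset.mem_coe, Multiset.mem_toFinset, mem_roots hD]
    exact hs.2
  · intro a ha b hb hab
    rw [Finset.mem_coe, Finset.mem_filter, Finset.mem_range] at ha hb
    have h1 := (CharP.natCast_eq_natCast K p).mp hab
    rw [Nat.ModEq, Nat.mod_eq_of_lt ha.1, Nat.mod_eq_of_lt hb.1] at h1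
    exact h1

theorem triv_mod (K : Type) [Field K] (p : ℕ) [hp : Fact p.Prime] [CharP K p] (w κ : K)
    (e s : ℕ) (he : e ≤ p) : Triv K w κ e s ↔ Triv K w κ e (s % p) := by
  rw [triv_iff K p w κ e s he, triv_iff K p w κ e (s % p) he]
  have h1 : ((s : ℕ) : K) = ((s % p : ℕ) : K) :=
    (CharP.natCast_eq_natCast K p).mpr (Nat.mod_modEq s p).symm
  rw [h1]

open Classical in
theorem card_nontriv_pow (K : Type) [Field K] (p b : ℕ) [hp : Fact p.Prime] [CharP K p] (w κ : K)
    (e : ℕ) (he : e ≤ p) (s₀ : ℕ) (h0 : Triv K w κ e s₀) :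
    ((range (p ^ (b + 1))).filter fun s => ¬ Triv K w κ e s).card ≤ p ^ b * (e ^ 2 / 4) := by
  refine le_trans ?_ (Nat.mul_le_mul_left (p ^ b) (card_nontriv K p w κ e he s₀ h0))
  rw [← Finset.card_range (p ^ b), ← Finset.card_product]
  refine Finset.card_le_card_of_injOn (fun s : ℕ => (s / p, s % p)) ?_ ?_
  · intro s hs
    rw [Finset.mem_coe, Finset.mem_filter, Finset.mem_range] at hs
    rw [Finset.mem_coe, Finset.mem_product, Finset.mem_filter, Finset.mem_range, Finset.mem_range]
    refine ⟨?_, Nat.mod_lt _ hp.out.pos, ?_⟩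
    · refine Nat.div_lt_of_lt_mul ?_
      rw [← pow_succ']
      exact hs.1
    · rw [← triv_mod K p w κ e s he]
      exact hs.2
  · intro a _ b _ hab
    simp only [Prod.mk.injEq] at hab
    rw [← Nat.div_add_mod a p, ← Nat.div_add_mod b p, hab.1, hab.2]

end Pool.Agent.Lib.MP_c1a8e2_al
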