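import Pool.Agent.Lib.MP_c1a8e2_al.h18.Exc

/-!
# Two variables: for fixed multiplicity `s` few `n` are exceptional
-/

set_option autoImplicit false

open Polynomial Finset

namespace Pool.Agent.Lib.MP_c1a8e2_al

theorem matP_natDegree (r s : ℕ) (l : Fin (2 * s)) (i : Fin s) :
    (matP r s l i).natDegree ≤ s - 1 := by
  set q : ℚ[X] := (X ^ 2 + X + 1) ^ s with hq
  have hqm : q.Monic := monic_f ℚ s
  have hQ : ((X ^ 2 + X + 1) ^ s : (ℚ[X])[X]) = q.map C := by
    rw [hq]
    simp
  have h1 : (X ^ (i : ℕ) + lamP s * X ^ (r + s - 1 - i) : (ℚ[X])[X]) =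
      (X ^ (i : ℕ) : ℚ[X]).map C + ∑ k ∈ range s,
        (C ((k.factorial : ℚ)⁻¹) * descPochhammer ℚ k : ℚ[X]) •
          (((X ^ 3 - 1) ^ k * X ^ (r + s - 1 - i) : ℚ[X]).map C) := by
    unfold lamP
    rw [Finset.sum_mul]
    congr 1
    · simp
    · refine Finset.sum_congr rfl fun k _ => ?_
      rw [smul_eq_C_mul]
      simp only [Polynomial.map_mul, Polynomial.map_pow, Polynomial.map_sub, Polynomial.map_X,
        Polynomial.map_one]
      ring
  have h2 : ∀ u : ℚ[X], modByMonicHom (q.map C) (u.map C) = (u %ₘ q).map C := by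
    intro u
    have h3 : modByMonicHom (q.map C) (u.map C) = (u.map C) %ₘ (q.map C) := rfl
    rw [h3, ← Polynomial.map_modByMonic _ hqm]
  have h3 : matP r s l i = C ((X ^ (i : ℕ) %ₘ q).coeff l) + ∑ k ∈ range s,
      (C ((k.factorial : ℚ)⁻¹) * descPochhammer ℚ k) *
        C ((((X ^ 3 - 1) ^ k * X ^ (r + s - 1 - i)) %ₘ q).coeff l) := by
    have h4 : matP r s l i = (modByMonicHom (q.map C)
        (X ^ (i : ℕ) + lamP s * X ^ (r + s - 1 - i))).coeff l := by
      unfold matP
      rw [hQ]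
      rfl
    rw [h4, h1, map_add, map_sum, h2, coeff_add, coeff_map, Polynomial.finsetSum_coeff]
    congr 1
    refine Finset.sum_congr rfl fun k _ => ?_
    rw [map_smul, h2, coeff_smul, coeff_map, smul_eq_mul]
  rw [h3]
  refine (natDegree_add_le _ _).trans (max_le ?_ ?_)
  · rw [natDegree_C]
    exact Nat.zero_le _
  · refine natDegree_sum_le_of_forall_le _ _ fun k hk => ?_
    rw [Finset.mem_range] at hk
    refine (natDegree_mul_C_le _ _).trans ?_
    refine (natDegree_C_mul_le _ _).trans ?_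
    rw [descPochhammer_natDegree]
    omega

theorem gramP_natDegree (r s : ℕ) : (gramP r s).natDegree ≤ s * (2 * (s - 1)) := by
  unfold gramP
  rw [Matrix.det_apply]
  refine natDegree_sum_le_of_forall_le _ _ fun σ _ => ?_
  refine (natDegree_smul_le _ _).trans ?_
  refine (natDegree_prod_le _ _).trans ?_
  have h1 : ∀ i j : Fin s, (((matP r s).transpose * matP r s) i j).natDegree ≤ 2 * (s - 1) := by
    intro i j
    rw [Matrix.mul_apply]
    refine natDegree_sum_le_of_forall_le _ _ fun l _ => ?_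
    refine natDegree_mul_le.trans ?_
    have e1 := matP_natDegree r s l i
    have e2 := matP_natDegree r s l j
    rw [Matrix.transpose_apply]
    omega
  refine (Finset.sum_le_sum fun i _ => h1 _ _).trans_eq ?_
  rw [Finset.sum_const, Finset.card_univ, Fintype.card_fin, smul_eq_mul]

open Classical in
/-- For fixed `s` the matrix in degree `m + s` is singular for few `m` only. -/
theorem det_MD_few (c : ℕ) : ∃ F : Finset ℕ, F.card ≤ 6 * (c + 1) * (c + 2) ∧
    ∀ m, (MD m (m + (c + 2))).det = 0 → m + 2 ∈ F := by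
  rcases Nat.even_or_odd (c + 2) with hc | hc
  · refine ⟨∅, by simp, fun m h0 => ?_⟩
    exfalso
    refine det_MD_ne m _ (Or.inr (Or.inl ?_)) h0
    obtain ⟨i, hi⟩ := hc
    exact ⟨m + i, by omega⟩
  have hg : ∀ r < 3, gramP r (c + 2) ≠ 0 := by
    intro r hr h0
    obtain ⟨M0, hM0, hP⟩ := exists_good (c + 2) r hc hr
    rw [palWin_iff_gram r (c + 2) M0 hM0, h0, eval_zero] at hP
    exact hP rfl
  refine ⟨(range 3).biUnion fun r => (gramP r (c + 2)).roots.toFinset.image
    fun x : ℚ => 3 * ⌊x⌋₊ + r + 1, ?_, fun m h0 => ?_⟩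
  · have h1 : ∀ r ∈ range 3, ((gramP r (c + 2)).roots.toFinset.image
        fun x : ℚ => 3 * ⌊x⌋₊ + r + 1).card ≤ (c + 2) * (2 * (c + 1)) := by
      intro r _
      refine Finset.card_image_le.trans ?_
      refine (Multiset.toFinset_card_le _).trans ?_
      refine (card_roots' _).trans ?_
      exact gramP_natDegree r (c + 2)
    refine Finset.card_biUnion_le.trans ?_
    refine (Finset.sum_le_sum h1).trans_eq ?_
    rw [Finset.sum_const, Finset.card_range, smul_eq_mul]
    ring
  · rcases Nat.lt_or_ge (2 * m) (m + (c + 2)) with h1 | h1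
    · exact absurd h0 (det_MD_ne m _ (Or.inr (Or.inr (Or.inl h1))))
    have hr : (m + 1) % 3 < 3 := Nat.mod_lt _ (by norm_num)
    have hdiv := Nat.div_add_mod (m + 1) 3
    have h2 : (gramP ((m + 1) % 3) (c + 2)).eval (((m + 1) / 3 : ℕ) : ℚ) = 0 := by
      by_contra h3
      rw [← Ne, ← palWin_iff_gram _ _ _ (by omega), hdiv] at h3
      have h4 := pal_char0 ℚ _ _ h3 ℂ
      obtain ⟨w, hw⟩ := exists_root_f ℂ
      have h5 := degOK_of_palWin ℂ w hw (m + (c + 2)) h1 (by
        rw [Nat.add_sub_cancel_left]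
        exact h4)
      rw [degOK_iff, h0] at h5
      simp at h5
    rw [Finset.mem_biUnion]
    refine ⟨(m + 1) % 3, Finset.mem_range.mpr hr, ?_⟩
    rw [Finset.mem_image]
    refine ⟨(((m + 1) / 3 : ℕ) : ℚ), ?_, ?_⟩
    · rw [Multiset.mem_toFinset, mem_roots (hg _ hr)]
      exact h2
    · rw [Nat.floor_natCast]
      omega

end Pool.Agent.Lib.MP_c1a8e2_al
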