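import Pool.Agent.Lib.MP_c1a8e2_al.h18.CoreFour
import Pool.Agent.Lib.MP_c1a8e2_al.h31.Near2

/-!
# Two variables: `m + 1 = p ± 4`
-/

set_option autoImplicit false

open Polynomial Finset

namespace Pool.Agent.Lib.MP_c1a8e2_al

section

variable {L : Type} [Field L]

theorem cubic_form (K : L[X]) (hK : K.natDegree ≤ 3) :
    K = C (K.coeff 3) * X ^ 3 + C (K.coeff 2) * X ^ 2 + C (K.coeff 1) * X + C (K.coeff 0) := by
  conv_lhs => rw [K.as_sum_range_C_mul_X_pow' (n := 4) (by omega)]
  simp only [Finset.sum_range_succ, Finset.sum_range_zero]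
  ring

theorem coeff_cubic (f : L[X]) (k0 k1 k2 k3 : L) (n : ℕ) :
    (f * (C k3 * X ^ 3 + C k2 * X ^ 2 + C k1 * X + C k0)).coeff n =
      k0 * f.coeff n + k1 * (if 1 ≤ n then f.coeff (n - 1) else 0) +
      k2 * (if 2 ≤ n then f.coeff (n - 2) else 0) +
      k3 * (if 3 ≤ n then f.coeff (n - 3) else 0) := by
  have h : f * (C k3 * X ^ 3 + C k2 * X ^ 2 + C k1 * X + C k0) =
      C k0 * f + C k1 * (f * X ^ 1) + C k2 * (f * X ^ 2) + C k3 * (f * X ^ 3) := by ring
  rw [h]
  simp only [coeff_add, coeff_C_mul, coeff_mul_X_pow']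

theorem core_four (v R : L) (hv : v ^ 2 + v + 1 = 0) (h2 : (2 : L) ≠ 0) (h3 : (3 : L) ≠ 0)
    (s : ℕ) (hs : Odd s) (hs3 : 3 ≤ s) (K : L[X]) (hK : K.natDegree ≤ 3)
    (hpal : ∀ i < 4, ((X - C v) ^ s * K).coeff (s + 3 - i) = R * ((X - C v) ^ s * K).coeff i)
    (e : ℕ) (he : e < 3) (hZ : R * v ^ s = v ^ e)
    (c0 : e = 0 → (s : L) ≠ 0 ∧ (s : L) ≠ 3 ∧ (s : L) ≠ -3)
    (c1 : e = 1 → (s : L) ≠ 1 ∧ (s : L) ≠ -2)
    (c2 : e = 2 → (s : L) ≠ -1 ∧ (s : L) ≠ 2) : K = 0 := by
  have hv3 := cube_root L v hv
  rw [cubic_form K hK] at hpal ⊢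
  generalize K.coeff 0 = k0 at *
  generalize K.coeff 1 = k1 at *
  generalize K.coeff 2 = k2 at *
  generalize K.coeff 3 = k3 at *
  have hs2 : s % 2 = 1 := Nat.odd_iff.mp hs
  -- the coefficients of the power
  set f : L[X] := (X - C v) ^ s with hf
  have ft : f.coeff s = 1 := pow_coeff_top v s
  have fbig : ∀ n, s < n → f.coeff n = 0 := by
    intro n hn
    apply coeff_eq_zero_of_natDegree_lt
    rw [hf, natDegree_pow, natDegree_X_sub_C, mul_one]
    exact hn
  have ft1 : f.coeff (s - 1) = -(s : L) * v := by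
    rw [hf, coeff_X_sub_C_pow', show s - (s - 1) = 1 by omega,
      Nat.choose_symm (show 1 ≤ s by omega), Nat.choose_one_right]
    ring
  have ft2 : f.coeff (s - 2) = (s.choose 2 : L) * v ^ 2 := by
    rw [hf, coeff_X_sub_C_pow', show s - (s - 2) = 2 by omega,
      Nat.choose_symm (show 2 ≤ s by omega)]
    ring
  have ft3 : f.coeff (s - 3) = -(s.choose 3 : L) := by
    rw [hf, coeff_X_sub_C_pow', show s - (s - 3) = 3 by omega,
      Nat.choose_symm hs3, Odd.neg_pow (by decide), hv3]
    ring
  have f0 : f.coeff 0 = -v ^ s := by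
    rw [hf, pow_coeff_zero, Odd.neg_pow hs]
  have f1 : f.coeff 1 = (s : L) * (v ^ s * v ^ 2) := by
    rw [hf, coeff_X_sub_C_pow', Nat.choose_one_right, Even.neg_pow (Nat.even_iff.mpr (by omega)),
      ← pow_add, pow_congr3 v hv3 (s - 1) (s + 2) (by omega)]
    ring
  have f2 : f.coeff 2 = -(s.choose 2 : L) * (v ^ s * v) := by
    rw [hf, coeff_X_sub_C_pow', Odd.neg_pow (Nat.odd_iff.mpr (by omega)),
      ← pow_succ, pow_congr3 v hv3 (s - 2) (s + 1) (by omega)]
    ring
  have f3 : f.coeff 3 = (s.choose 3 : L) * v ^ s := by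
    rw [hf, coeff_X_sub_C_pow', Even.neg_pow (Nat.even_iff.mpr (by omega)),
      pow_congr3 v hv3 (s - 3) s (by omega)]
    ring
  have hb : 2 * (s.choose 2 : L) = (s : L) * ((s : L) - 1) := by
    have h : s.choose 2 * 2 = s.choose 1 * (s - 1) := Nat.choose_succ_right_eq s 1
    rw [Nat.choose_one_right] at h
    have h' : ((s.choose 2 * 2 : ℕ) : L) = ((s * (s - 1) : ℕ) : L) := by rw [h]
    rw [Nat.cast_mul, Nat.cast_mul, Nat.cast_sub (by omega), Nat.cast_one,
      Nat.cast_ofNat] at h'
    linear_combination h'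
  have q0 := hpal 0 (by norm_num)
  have q1 := hpal 1 (by norm_num)
  have q2 := hpal 2 (by norm_num)
  have q3 := hpal 3 (by norm_num)
  rw [coeff_cubic, coeff_cubic, if_pos (by omega), if_pos (by omega), if_pos (by omega),
    if_neg (by omega), if_neg (by omega), if_neg (by omega), fbig _ (by omega),
    fbig _ (by omega), fbig _ (by omega), show s + 3 - 0 - 3 = s by omega, ft, f0] at q0
  rw [coeff_cubic, coeff_cubic, if_pos (by omega), if_pos (by omega), if_pos (by omega),
    if_pos (by omega), if_neg (by omega), if_neg (by omega), fbig _ (by omega),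
    fbig _ (by omega), show s + 3 - 1 - 2 = s by omega, show s + 3 - 1 - 3 = s - 1 by omega,
    ft, ft1, f1, f0] at q1
  rw [coeff_cubic, coeff_cubic, if_pos (by omega), if_pos (by omega), if_pos (by omega),
    if_pos (by omega), if_pos (by omega), if_neg (by omega), fbig _ (by omega),
    show s + 3 - 2 - 1 = s by omega, show s + 3 - 2 - 2 = s - 1 by omega,
    show s + 3 - 2 - 3 = s - 2 by omega, ft, ft1, ft2, f2, f1, f0] at q2
  rw [coeff_cubic, coeff_cubic, if_pos (by omega), if_pos (by omega), if_pos (by omega),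
    if_pos (by omega), if_pos (by omega), if_pos (by omega),
    show s + 3 - 3 = s by omega, ft, ft1, ft2, ft3, f3, f2, f1, f0] at q3
  have fin : k0 = 0 ∧ k1 = 0 ∧ k2 = 0 ∧ k3 = 0 := by
    generalize (s.choose 2 : L) = b at *
    generalize (s.choose 3 : L) = c at *
    generalize (s : L) = x at *
    interval_cases e
    · obtain ⟨x0, x3, x3'⟩ := c0 rfl
      rw [pow_zero] at hZ
      exact core4_zero v x b c k0 k1 k2 k3 hv h2 h3 hb
        (by linear_combination q0 - k0 * hZ)
        (by linear_combination q1 + (x * v ^ 2 * k0 - k1) * hZ)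
        (by linear_combination q2 + (-k2 + x * v ^ 2 * k1 - b * v * k0) * hZ)
        (by linear_combination q3 + (-k3 + x * v ^ 2 * k2 - b * v * k1 + c * k0) * hZ)
        x0 x3 x3'
    · obtain ⟨x1, x2⟩ := c1 rfl
      rw [pow_one] at hZ
      exact core4_one v x b c k0 k1 k2 k3 hv h2 h3 hb
        (by linear_combination q0 - k0 * hZ)
        (by linear_combination q1 + (x * v ^ 2 * k0 - k1) * hZ)
        (by linear_combination q2 + (-k2 + x * v ^ 2 * k1 - b * v * k0) * hZ)
        (by linear_combination q3 + (-k3 + x * v ^ 2 * k2 - b * v * k1 + c * k0) * hZ)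
        x1 x2
    · obtain ⟨x1, x2⟩ := c2 rfl
      exact core4_two v x b c k0 k1 k2 k3 hv h2 h3 hb
        (by linear_combination q0 - k0 * hZ)
        (by linear_combination q1 + (x * v ^ 2 * k0 - k1) * hZ)
        (by linear_combination q2 + (-k2 + x * v ^ 2 * k1 - b * v * k0) * hZ)
        (by linear_combination q3 + (-k3 + x * v ^ 2 * k2 - b * v * k1 + c * k0) * hZ)
        x1 x2
  rw [fin.1, fin.2.1, fin.2.2.1, fin.2.2.2]
  simp

end

section

variable (L : Type) [Field L] (p : ℕ) [hp : Fact p.Prime] [CharP L p]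

/-- `N = p + 4`, `s ≤ p` -/
theorem pal_plus_four (hp7 : 7 ≤ p) (w : L) (hw : w ^ 2 + w + 1 = 0)
    (N s : ℕ) (hN : N = p + 4) (hs : Odd s) (hs3 : 3 ≤ s) (hsN : s ≤ p) : PalWin L N s := by
  intro G hdvd hhigh hmid hpal
  obtain ⟨A, B, hA, hB, hG⟩ := split_window G s N hhigh hmid
  have hp2 : p ≠ 2 := by omega
  have hp3 : p ≠ 3 := by omega
  have h2 := two_ne L p hp2
  have h3 := three_ne L p hp3
  have hp3' : p % 3 ≠ 0 := by
    intro h
    have : 3 ∣ p := Nat.dvd_of_mod_eq_zero h
    exact hp3 ((Nat.prime_dvd_prime_iff_eq Nat.prime_three hp.out).mp this).symm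
  have hpodd : p % 2 = 1 := by
    rcases hp.out.eq_two_or_odd with h | h
    · exact absurd h hp2
    · exact h
  have hs2 : s % 2 = 1 := Nat.odd_iff.mp hs
  have key : ∀ v : L, v ^ 2 + v + 1 = 0 → A + C (v ^ (p ^ 1)) * (X ^ 4 * B) = 0 := by
    intro v hv
    have hv3 := cube_root L v hv
    have h1 : (X - C v) ^ s ∣ A + C (v ^ (p ^ 1)) * (X ^ 4 * B) := by
      apply dvd_frob L p 1 v A (X ^ 4 * B) s (by rw [pow_one]; omega)
      have h2 : A + X ^ (p ^ 1) * (X ^ 4 * B) = G := by
        rw [hG, pow_one, hN]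
        ring
      rw [h2]
      exact root_pow_dvd L v hv _ G hdvd
    obtain ⟨K, hK, hE⟩ := quot_deg v s 3 _ (by
      intro n hn
      obtain ⟨n', rfl⟩ : ∃ n', n = n' + 4 := ⟨n - 4, by omega⟩
      rw [coeff_add, coeff_C_mul, coeff_X_pow_mul, hB n', hA (n' + 4), if_neg (by omega),
        if_neg (by omega), mul_zero, add_zero]) h1
    have hpalE : ∀ i < 4, ((X - C v) ^ s * K).coeff (s + 3 - i) =
        v ^ p * ((X - C v) ^ s * K).coeff i := by
      intro i hi
      rw [← hE, coeff_add, coeff_add, coeff_C_mul, coeff_C_mul, pow_one,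
        hA (s + 3 - i), if_neg (by omega), coeff_X_pow_mul', coeff_X_pow_mul',
        if_neg (show ¬ 4 ≤ i by omega), hA i]
      by_cases h4 : i < s
      · rw [if_pos (show i < s ∧ i < N by omega), if_pos (show 4 ≤ s + 3 - i by omega), hB,
          if_pos (by omega), hpal i (N + (s + 3 - i - 4)) (by omega)]
        ring
      · rw [if_neg (show ¬ (i < s ∧ i < N) by omega), if_neg (show ¬ 4 ≤ s + 3 - i by omega)]
        ring
    have hcast : ∀ n : ℕ, ((n : ℕ) : L) = 0 ↔ p ∣ n := fun n => CharP.cast_eq_zero_iff L p n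
    have hK0 : K = 0 := by
      refine core_four v (v ^ p) hv h2 h3 s hs hs3 K hK hpalE ((s + p) % 3)
        (Nat.mod_lt _ (by norm_num)) ?_ ?_ ?_ ?_
      · rw [← pow_add]
        exact pow_congr3 v hv3 _ _ (by omega)
      · intro he
        refine ⟨?_, ?_, ?_⟩
        · intro h
          rw [hcast] at h
          have h5 := Nat.le_of_dvd (by omega) h
          omega
        · intro h
          have h6 : ((s - 3 : ℕ) : L) = 0 := by
            rw [Nat.cast_sub hs3, h]
            norm_num
          rw [hcast] at h6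
          have h7 := Nat.eq_zero_of_dvd_of_lt h6 (by omega)
          omega
        · intro h
          have h6 : ((s + 3 : ℕ) : L) = 0 := by
            push_cast
            rw [h]
            ring
          rw [hcast] at h6
          obtain ⟨c, hc⟩ := h6
          have hc1 : c = 1 := by
            have : c < 2 := by
              by_contra h6
              have : p * 2 ≤ p * c := Nat.mul_le_mul_left p (by omega)
              omega
            have : c ≠ 0 := by
              rintro rfl
              omega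
            omega
          rw [hc1, mul_one] at hc
          omega
      · intro he
        refine ⟨?_, ?_⟩
        · intro h
          have h6 : ((s - 1 : ℕ) : L) = 0 := by
            rw [Nat.cast_sub (by omega), h]
            norm_num
          rw [hcast] at h6
          have h7 := Nat.eq_zero_of_dvd_of_lt h6 (by omega)
          omega
        · intro h
          have h6 : ((s + 2 : ℕ) : L) = 0 := by
            push_cast
            rw [h]
            ring
          rw [hcast] at h6
          obtain ⟨c, hc⟩ := h6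
          have hc1 : c = 1 := by
            have : c < 2 := by
              by_contra h6
              have : p * 2 ≤ p * c := Nat.mul_le_mul_left p (by omega)
              omega
            have : c ≠ 0 := by
              rintro rfl
              omega
            omega
          rw [hc1, mul_one] at hc
          omega
      · intro he
        refine ⟨?_, ?_⟩
        · intro h
          have h6 : ((s + 1 : ℕ) : L) = 0 := by
            push_cast
            rw [h]
            ring
          rw [hcast] at h6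
          obtain ⟨c, hc⟩ := h6
          have hc1 : c = 1 := by
            have : c < 2 := by
              by_contra h6
              have : p * 2 ≤ p * c := Nat.mul_le_mul_left p (by omega)
              omega
            have : c ≠ 0 := by
              rintro rfl
              omega
            omega
          rw [hc1, mul_one] at hc
          omega
        · intro h
          have h6 : ((s - 2 : ℕ) : L) = 0 := by
            rw [Nat.cast_sub (by omega), h]
            norm_num
          rw [hcast] at h6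
          have h7 := Nat.eq_zero_of_dvd_of_lt h6 (by omega)
          omega
    rw [hE, hK0, mul_zero]
  obtain ⟨h1, h2⟩ := both_zero _ _ (ne_frob L p 1 hp3 w hw) A (X ^ 4 * B) (key w hw)
    (key (w ^ 2) (root_sq L w hw))
  have h4 : B = 0 := (mul_eq_zero.mp h2).resolve_left (pow_ne_zero 4 X_ne_zero)
  rw [hG, h1, h4, mul_zero, add_zero]

/-- `N + 4 = p` -/
theorem pal_minus_four (hp7 : 7 ≤ p) (w : L) (hw : w ^ 2 + w + 1 = 0)
    (N s : ℕ) (hN : N + 4 = p) (hs : Odd s) (hs3 : 3 ≤ s) (hsN : s ≤ N) : PalWin L N s := by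
  intro G hdvd hhigh hmid hpal
  obtain ⟨A, B, hA, hB, hG⟩ := split_window G s N hhigh hmid
  have hp2 : p ≠ 2 := by omega
  have hp3 : p ≠ 3 := by omega
  have h2 := two_ne L p hp2
  have h3 := three_ne L p hp3
  have hp3' : p % 3 ≠ 0 := by
    intro h
    have : 3 ∣ p := Nat.dvd_of_mod_eq_zero h
    exact hp3 ((Nat.prime_dvd_prime_iff_eq Nat.prime_three hp.out).mp this).symm
  have hpodd : p % 2 = 1 := by
    rcases hp.out.eq_two_or_odd with h | h
    · exact absurd h hp2
    · exact h
  have hs2 : s % 2 = 1 := Nat.odd_iff.mp hs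
  have key : ∀ v : L, v ^ 2 + v + 1 = 0 → X ^ 4 * A + C (v ^ (p ^ 1)) * B = 0 := by
    intro v hv
    have hv3 := cube_root L v hv
    have h1 : (X - C v) ^ s ∣ X ^ 4 * A + C (v ^ (p ^ 1)) * B := by
      apply dvd_frob L p 1 v (X ^ 4 * A) B s (by rw [pow_one]; omega)
      have h2 : X ^ 4 * A + X ^ (p ^ 1) * B = X ^ 4 * G := by
        rw [hG, pow_one, ← hN]
        ring
      rw [h2]
      exact Dvd.dvd.mul_left (root_pow_dvd L v hv _ G hdvd) _
    obtain ⟨K, hK, hE⟩ := quot_deg v s 3 _ (by
      intro n hn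
      obtain ⟨n', rfl⟩ : ∃ n', n = n' + 4 := ⟨n - 4, by omega⟩
      rw [coeff_add, coeff_C_mul, coeff_X_pow_mul, hB (n' + 4), hA n', if_neg (by omega),
        if_neg (by omega), mul_zero, add_zero]) h1
    have hpalE : ∀ i < 4, ((X - C v) ^ s * K).coeff (s + 3 - i) =
        v ^ (2 * p) * ((X - C v) ^ s * K).coeff i := by
      intro i hi
      rw [← hE, coeff_add, coeff_add, coeff_C_mul, coeff_C_mul, pow_one,
        hB (s + 3 - i), if_neg (by omega), coeff_X_pow_mul', coeff_X_pow_mul',
        if_neg (show ¬ 4 ≤ i by omega), hB i]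
      have hvv : v ^ (2 * p) * v ^ p = 1 := by
        rw [← pow_add]
        exact (pow_congr3 v hv3 (2 * p + p) 0 (by omega)).trans (pow_zero v)
      by_cases h4 : i < s
      · rw [if_pos (show i < s by omega), if_pos (show 4 ≤ s + 3 - i by omega), hA,
          if_pos (by omega), hpal (s + 3 - i - 4) (N + i) (by omega)]
        linear_combination (-(G.coeff (N + i))) * hvv
      · rw [if_neg (show ¬ i < s by omega), if_neg (show ¬ 4 ≤ s + 3 - i by omega)]
        ring
    have hcast : ∀ n : ℕ, ((n : ℕ) : L) = 0 ↔ p ∣ n := fun n => CharP.cast_eq_zero_iff L p n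
    have hplus : ∀ j : ℕ, 1 ≤ j → j ≤ 3 → (s : L) ≠ -(j : L) := by
      intro j hj1 hj3 h
      have h6 : ((s + j : ℕ) : L) = 0 := by
        push_cast
        rw [h]
        ring
      rw [hcast] at h6
      have h7 := Nat.eq_zero_of_dvd_of_lt h6 (by omega)
      omega
    have hK0 : K = 0 := by
      refine core_four v (v ^ (2 * p)) hv h2 h3 s hs hs3 K hK hpalE ((s + 2 * p) % 3)
        (Nat.mod_lt _ (by norm_num)) ?_ ?_ ?_ ?_
      · rw [← pow_add]
        exact pow_congr3 v hv3 _ _ (by omega)
      · intro he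
        refine ⟨?_, ?_, ?_⟩
        · intro h
          rw [hcast] at h
          have h5 := Nat.le_of_dvd (by omega) h
          omega
        · intro h
          have h6 : ((s - 3 : ℕ) : L) = 0 := by
            rw [Nat.cast_sub hs3, h]
            norm_num
          rw [hcast] at h6
          have h7 := Nat.eq_zero_of_dvd_of_lt h6 (by omega)
          omega
        · exact_mod_cast hplus 3 (by norm_num) le_rfl
      · intro he
        refine ⟨?_, ?_⟩
        · intro h
          have h6 : ((s - 1 : ℕ) : L) = 0 := by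
            rw [Nat.cast_sub (by omega), h]
            norm_num
          rw [hcast] at h6
          have h7 := Nat.eq_zero_of_dvd_of_lt h6 (by omega)
          omega
        · exact_mod_cast hplus 2 (by norm_num) (by norm_num)
      · intro he
        refine ⟨?_, ?_⟩
        · exact_mod_cast hplus 1 le_rfl (by norm_num)
        · intro h
          have h6 : ((s - 2 : ℕ) : L) = 0 := by
            rw [Nat.cast_sub (by omega), h]
            norm_num
          rw [hcast] at h6
          have h7 := Nat.eq_zero_of_dvd_of_lt h6 (by omega)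
          omega
    rw [hE, hK0, mul_zero]
  obtain ⟨h1, h2⟩ := both_zero _ _ (ne_frob L p 1 hp3 w hw) (X ^ 4 * A) B (key w hw)
    (key (w ^ 2) (root_sq L w hw))
  have h4 : A = 0 := (mul_eq_zero.mp h1).resolve_left (pow_ne_zero 4 X_ne_zero)
  rw [hG, h2, h4, mul_zero, add_zero]

end

end Pool.Agent.Lib.MP_c1a8e2_al
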