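import Pool.Agent.Lib.MP_c1a8e2_al.h18.Four

/-!
# Two variables: `m + 1 = p ± 4`, the last multiplicity
-/

set_option autoImplicit false

open Polynomial Finset

namespace Pool.Agent.Lib.MP_c1a8e2_al

section

variable (L : Type) [Field L] (p : ℕ) [hp : Fact p.Prime] [CharP L p]

/-- `N = p + 4`, `s = p + 2` -/
theorem win_top_four (hp7 : 7 ≤ p) : Win L (p + 4) (p + 2) := by
  intro G hdvd hhigh hmid
  obtain ⟨D, rfl⟩ := hdvd
  by_cases hD0 : D = 0
  · rw [hD0, mul_zero]
  have hfdeg : (X ^ 2 + X + 1 : L[X]).natDegree = 2 := by compute_degree!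
  have hf0 : (X ^ 2 + X + 1 : L[X]) ≠ 0 := by
    intro h1
    rw [h1] at hfdeg
    simp at hfdeg
  have hDdeg : D.natDegree ≤ 1 := by
    have h1 : ((X ^ 2 + X + 1 : L[X]) ^ (p + 2) * D).natDegree = (p + 2) * 2 + D.natDegree := by
      rw [natDegree_mul (pow_ne_zero _ hf0) hD0, natDegree_pow, hfdeg]
    by_contra hc
    have h2 := hhigh _ (show p + 2 + (p + 4) ≤
      ((X ^ 2 + X + 1 : L[X]) ^ (p + 2) * D).natDegree by rw [h1]; omega)
    rw [coeff_natDegree, leadingCoeff_eq_zero] at h2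
    exact (mul_ne_zero (pow_ne_zero _ hf0) hD0) h2
  obtain ⟨d1, d0, rfl⟩ := exists_eq_X_add_C_of_natDegree_le_one hDdeg
  set H : L[X] := (X ^ 2 + X + 1) ^ 2 * (C d1 * X + C d0) with hH
  have hHe : H = C d1 * X ^ 5 + C (2 * d1 + d0) * X ^ 4 + C (3 * d1 + 2 * d0) * X ^ 3 +
      C (2 * d1 + 3 * d0) * X ^ 2 + C (d1 + 2 * d0) * X + C d0 := by
    rw [hH]
    simp only [C_add, C_mul, map_ofNat]
    ring
  have hc : ∀ n, H.coeff n = if n = 5 then d1 else if n = 4 then 2 * d1 + d0 else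
      if n = 3 then 3 * d1 + 2 * d0 else if n = 2 then 2 * d1 + 3 * d0 else
      if n = 1 then d1 + 2 * d0 else if n = 0 then d0 else 0 := by
    intro n
    rw [hHe]
    simp only [coeff_add, coeff_C_mul, coeff_X_pow, coeff_X, coeff_C]
    rcases n with _ | _ | _ | _ | _ | _ | n <;> simp
  have hG : (X ^ 2 + X + 1 : L[X]) ^ (p + 2) * (C d1 * X + C d0) =
      X ^ (2 * p) * H + X ^ p * H + H := by
    have hfr := frob_f L p 1
    rw [pow_one] at hfr
    rw [pow_add, hfr, hH, map_add, map_add, map_pow, expand_X, map_one, ← pow_mul,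
      mul_comm p 2]
    ring
  rw [hG] at hmid
  have m2 := hmid (p + 2) (by omega) (by omega)
  have m3 := hmid (p + 3) (by omega) (by omega)
  rw [coeff_add, coeff_add, coeff_X_pow_mul', coeff_X_pow_mul', if_neg (by omega),
    if_pos (by omega), Nat.add_sub_cancel_left, hc, hc (p + 2)] at m2
  rw [coeff_add, coeff_add, coeff_X_pow_mul', coeff_X_pow_mul', if_neg (by omega),
    if_pos (by omega), Nat.add_sub_cancel_left, hc, hc (p + 3)] at m3
  rw [if_neg (show ¬ (p + 2 = 5) by omega), if_neg (show ¬ (p + 2 = 4) by omega),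
    if_neg (show ¬ (p + 2 = 3) by omega), if_neg (show ¬ (p + 2 = 2) by omega),
    if_neg (show ¬ (p + 2 = 1) by omega), if_neg (show ¬ (p + 2 = 0) by omega)] at m2
  rw [if_neg (show ¬ (p + 3 = 5) by omega), if_neg (show ¬ (p + 3 = 4) by omega),
    if_neg (show ¬ (p + 3 = 3) by omega), if_neg (show ¬ (p + 3 = 2) by omega),
    if_neg (show ¬ (p + 3 = 1) by omega), if_neg (show ¬ (p + 3 = 0) by omega)] at m3
  norm_num at m2 m3
  have h5 : (5 : L) ≠ 0 := by
    have := cast_ne L p 5 (fun h => by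
      have := Nat.le_of_dvd (by norm_num) h
      omega)
    exact_mod_cast this
  have z0 : d0 = 0 := by
    have : 5 * d0 = 0 := by linear_combination 3 * m2 - 2 * m3
    exact (mul_eq_zero.mp this).resolve_left h5
  have z1 : d1 = 0 := by
    have : 5 * d1 = 0 := by linear_combination 3 * m3 - 2 * m2
    exact (mul_eq_zero.mp this).resolve_left h5
  rw [z0, z1]
  simp

end

/-- `m + 1 = p ± 4` -/
theorem nonsing_four (m p : ℕ) (hp : p.Prime) (hp7 : 7 ≤ p) (h : m = p + 3 ∨ m + 5 = p) :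
    Nonsing 2 m := by
  have : Fact p.Prime := ⟨hp⟩
  refine nonsing_of_odd3 m fun s hs hs3 hsm => ?_
  obtain ⟨w, hw⟩ := exists_root_f (AlgebraicClosure (ZMod p))
  refine ⟨AlgebraicClosure (ZMod p), inferInstance, w, hw, ?_⟩
  have hpodd : p % 2 = 1 := by
    rcases hp.eq_two_or_odd with h | h
    · omega
    · exact h
  have hs2 : s % 2 = 1 := Nat.odd_iff.mp hs
  rcases h with h | h
  · rcases Nat.lt_or_ge p s with h1 | h1
    · have h2 : s = p + 2 := by omega
      rw [h2, show m + 1 = p + 4 by omega]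
      exact (win_top_four _ p hp7).pal
    · exact pal_plus_four _ p hp7 w hw (m + 1) s (by omega) hs hs3 h1
  · exact pal_minus_four _ p hp7 w hw (m + 1) s (by omega) hs hs3 (by omega)

end Pool.Agent.Lib.MP_c1a8e2_al
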