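import Pool.Agent.Lib.MP_c1a8e2_al.h18.XDefs

/-!
# Two variables: the cube condition passes from `t` to `t q` in characteristic `p`
-/

set_option autoImplicit false

open Polynomial Finset

namespace Pool.Agent.Lib.MP_c1a8e2_al

/-- The value of `B` at `v` if `(X - v) ^ s B' = ∑_{j ≤ s} X ^ j A_j(X ^ q)`. -/
theorem block_value (L : Type) [Field L] (p a : ℕ) [Fact p.Prime] [CharP L p] (v : L)
    (A : ℕ → L[X]) (s : ℕ) (hs : s < p ^ a) (B : L[X])
    (h : (X - C v) ^ s * B = ∑ j ∈ range (s + 1), X ^ j * expand L (p ^ a) (A j)) :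
    B.eval v = (A s).eval (v ^ (p ^ a)) := by
  have h1 : (X : L[X]) ^ (p ^ a) - C (v ^ (p ^ a)) = (X - C v) ^ (p ^ a) := by
    rw [sub_pow_char_pow, C_pow]
  have hval := block_root' L p a v A s hs.le (h ▸ dvd_mul_right _ _)
  have h2 : ∀ j, ∃ D : L[X], expand L (p ^ a) (A j) =
      C ((A j).eval (v ^ (p ^ a))) + (X - C v) ^ (p ^ a) * D := by
    intro j
    obtain ⟨B, hB⟩ := X_sub_C_dvd_sub_C_eval (a := v ^ (p ^ a)) (p := A j)
    have h3 := congrArg (expand L (p ^ a)) hB
    rw [map_sub, map_mul, map_sub, expand_X, expand_C, expand_C, h1] at h3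
    exact ⟨_, by rw [← h3]; ring⟩
  choose D hD using h2
  set k := (A s).eval (v ^ (p ^ a)) with hk
  have h3 : ∑ j ∈ range (s + 1), X ^ j * expand L (p ^ a) (A j) =
      (X - C v) ^ s * (C k + (X - C v) ^ (p ^ a - s) * ∑ j ∈ range (s + 1), X ^ j * D j) := by
    have h4 : (X - C v) ^ s * C k =
        ∑ j ∈ range (s + 1), X ^ j * C ((A j).eval (v ^ (p ^ a))) := by
      ext n
      rw [coeff_mul_C, Polynomial.finsetSum_coeff]
      have h5 : ∀ j, (X ^ j * C ((A j).eval (v ^ (p ^ a))) : L[X]).coeff n =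
          if n = j then (A j).eval (v ^ (p ^ a)) else 0 := by
        intro j
        rw [mul_comm, coeff_C_mul_X_pow]
      simp only [h5]
      rw [Finset.sum_ite_eq (range (s + 1)) n]
      by_cases hn : n ≤ s
      · rw [if_pos (Finset.mem_range.mpr (by omega)), hval n hn]
      · rw [if_neg (by rw [Finset.mem_range]; omega), coeff_eq_zero_of_natDegree_lt, zero_mul]
        rw [natDegree_pow, natDegree_X_sub_C, mul_one]
        omega
    have h6 : (X - C v : L[X]) ^ s * (X - C v) ^ (p ^ a - s) = (X - C v) ^ (p ^ a) := by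
      rw [← pow_add]
      congr 1
      omega
    rw [mul_add, h4, ← mul_assoc, h6, Finset.mul_sum, ← Finset.sum_add_distrib]
    refine Finset.sum_congr rfl fun j _ => ?_
    rw [hD j]
    ring
  rw [h3] at h
  have h7 := mul_left_cancel₀ (pow_ne_zero s (X_sub_C_ne_zero v)) h
  rw [h7, eval_add, eval_C, eval_mul, eval_pow, eval_sub, eval_X, eval_C, sub_self,
    zero_pow (by omega), zero_mul, add_zero]

theorem xcond_mul (L : Type) [Field L] (p a : ℕ) [hp : Fact p.Prime] [CharP L p] (hp2 : p ≠ 2)
    (hp3 : p ≠ 3) (t s : ℕ) (hst : s < t * p ^ a)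
    (hW : ∀ i ≤ t, Win L t i) (hX : ∀ i < t, XCond L t i) : XCond L (t * p ^ a) s := by
  intro B hBd hmid c hc hcube
  have hq0 : 0 < p ^ a := pow_pos hp.out.pos a
  have hqodd : p ^ a % 2 = 1 := Nat.odd_iff.mp ((hp.out.odd_of_ne_two hp2).pow)
  have hc2 : (c ^ 2) ^ 2 + c ^ 2 + 1 = 0 := root_sq L c hc
  have hc3 : c ^ 3 = 1 := cube_root L c hc
  have h3 := three_ne L p hp3
  have hne := ne_frob L p a hp3 c hc
  have hbr := block_root' L p a
  have hbv := block_value L p a
  have hfr := frob_f L p a
  have hrf := root_frob L p a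
  generalize p ^ a = q at hst hBd hmid hq0 hqodd hne hbr hbv hfr hrf
  set f : L[X] := X ^ 2 + X + 1 with hf
  have hfdeg : f.natDegree = 2 := by rw [hf]; compute_degree!
  have hf0 : f ≠ 0 := by
    intro h1
    rw [h1] at hfdeg
    simp at hfdeg
  have hhigh : ∀ n, s + (t * q + 1) ≤ n → (f ^ s * B).coeff n = 0 := by
    intro n hn
    apply coeff_eq_zero_of_natDegree_lt
    refine lt_of_le_of_lt natDegree_mul_le ?_
    rw [natDegree_pow, hfdeg]
    omega
  set s1 := s / q with hs1
  set s' := s % q with hs'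
  have hs'q : s' < q := Nat.mod_lt s hq0
  have hseq : s = s' + q * s1 := (Nat.mod_add_div s q).symm
  obtain ⟨A, hA⟩ := exists_block hq0 (f ^ s' * B)
  have hG : f ^ s * B = ∑ j ∈ range q, X ^ j * expand L q (f ^ s1 * A j) := by
    have h1 : f ^ s * B = expand L q (f ^ s1) * (f ^ s' * B) := by
      rw [hseq, pow_add, pow_mul, hfr, map_pow]
      ring
    rw [h1, hA, Finset.mul_sum]
    refine Finset.sum_congr rfl fun j _ => ?_
    rw [map_mul]
    ring
  have hco : ∀ i < q, ∀ l, (f ^ s * B).coeff (i + q * l) = (f ^ s1 * A i).coeff l := by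
    intro i hi l
    rw [hG, coeff_block hq0 _ _ _ hi]
  have hNt : t * q = q * t := mul_comm t q
  have hs1t : s1 < t := by
    rw [hs1]
    exact Nat.div_lt_of_lt_mul (by rw [← hNt]; exact hst)
  -- the blocks with `s' < i`
  have hbig : ∀ i, s' < i → i < q → A i = 0 := by
    intro i hi hiq
    have h1 : f ^ s1 * A i = 0 := by
      refine hW s1 hs1t.le _ (dvd_mul_right _ _) ?_ ?_
      · intro l hl
        rw [← hco i hiq l]
        apply hhigh
        have : q * (s1 + t) ≤ q * l := Nat.mul_le_mul_left q hl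
        rw [hNt, hseq]
        rw [mul_add] at this
        omega
      · intro l hl hlt
        rw [← hco i hiq l]
        apply hmid
        · have : q * s1 ≤ q * l := Nat.mul_le_mul_left q hl
          omega
        · have : q * (l + 1) ≤ q * t := Nat.mul_le_mul_left q hlt
          rw [mul_add, mul_one] at this
          omega
    exact (mul_eq_zero.mp h1).resolve_left (pow_ne_zero _ hf0)
  have hH : f ^ s' * B = ∑ j ∈ range (s' + 1), X ^ j * expand L q (A j) := by
    rw [hA]
    refine (Finset.sum_subset (Finset.range_subset_range.mpr hs'q) ?_).symm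
    intro j hj hj'
    rw [Finset.mem_range] at hj hj'
    rw [hbig j (by omega) hj, map_zero, mul_zero]
  have hTd : (f ^ s1 * A s').natDegree ≤ s1 + t := by
    rw [natDegree_le_iff_coeff_eq_zero]
    intro l hl
    rw [← hco s' hs'q l]
    apply hhigh
    have : q * (s1 + t + 1) ≤ q * l := Nat.mul_le_mul_left q hl
    rw [hNt, hseq]
    rw [mul_add, mul_add, mul_one] at this
    omega
  have hTdeg : (A s').natDegree ≤ t - s1 := by
    by_cases h1 : A s' = 0
    · rw [h1, natDegree_zero]
      exact Nat.zero_le _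
    · rw [natDegree_mul (pow_ne_zero _ hf0) h1, natDegree_pow, hfdeg] at hTd
      omega
  -- the values at the roots
  have hfv : ∀ v : L, v ^ 2 + v + 1 = 0 → f = (X - C v) * (X - C (v ^ 2)) := by
    intro v hv
    have hv3 := cube_root L v hv
    have e1 : (C v * C (v ^ 2) : L[X]) = 1 := by
      rw [← C_mul, ← pow_succ', hv3, C_1]
    have e2 : (C v + C (v ^ 2) : L[X]) = -1 := by
      rw [← C_add]
      have : v + v ^ 2 = -1 := by linear_combination hv
      rw [this]
      simp
    rw [hf]
    linear_combination (-1 : L[X]) * e1 + X * e2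
  have hval : ∀ v : L, v ^ 2 + v + 1 = 0 →
      (v - v ^ 2) ^ s' * B.eval v = (A s').eval (v ^ q) := by
    intro v hv
    have h1 : (X - C v) ^ s' * ((X - C (v ^ 2)) ^ s' * B) =
        ∑ j ∈ range (s' + 1), X ^ j * expand L q (A j) := by
      rw [← hH, hfv v hv, mul_pow]
      ring
    have h2 := hbv v A s' hs'q _ h1
    rw [← h2, eval_mul, eval_pow, eval_sub, eval_X, eval_C]
  have hAs : A s' = 0 := by
    have e1 := hval c hc
    have e2 := hval (c ^ 2) hc2
    have hce := hrf c hc
    refine hX s1 hs1t (A s') hTdeg ?_ (c ^ q) hce ?_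
    · intro l hl hlt
      rw [← hco s' hs'q l]
      apply hmid
      · have : q * s1 ≤ q * l := Nat.mul_le_mul_left q hl
        omega
      · have : q * (l + 1) ≤ q * t := Nat.mul_le_mul_left q hlt
        rw [mul_add, mul_one] at this
        omega
    · have h4 : (c ^ q) ^ 2 = (c ^ 2) ^ q := by ring
      rw [h4, ← e1, ← e2]
      have h5 : (c ^ 2 - (c ^ 2) ^ 2) = -(c - c ^ 2) := by
        have : (c ^ 2) ^ 2 = c := by linear_combination c * hc3
        rw [this]
        ring
      rw [h5, mul_pow, mul_pow, hcube, neg_pow (c - c ^ 2) s']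
      have h6 : (-1 : L) ^ (s + 1) = (-1) ^ (s1 + 1) * ((-1) ^ s') ^ 3 := by
        rw [← pow_mul, ← pow_add, neg_one_pow_eq_pow_mod_two (s + 1),
          neg_one_pow_eq_pow_mod_two (s1 + 1 + s' * 3)]
        congr 1
        have h7 : (q * s1) % 2 = s1 % 2 := by
          rw [Nat.mul_mod, hqodd, one_mul, Nat.mod_mod]
        omega
      rw [h6]
      ring
  have hz : ∀ v : L, v ^ 2 + v + 1 = 0 → ∀ i ≤ s', (A i).eval (v ^ q) = 0 := by
    intro v hv i hi
    have h1 : (X - C v) ^ s' ∣ ∑ j ∈ range (s' + 1), X ^ j * expand L q (A j) := by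
      rw [← hH, hfv v hv, mul_pow, mul_assoc]
      exact dvd_mul_right _ _
    rw [hbr v A s' hs'q.le h1 i hi, hAs, eval_zero, mul_zero]
  have hall : ∀ i < q, A i = 0 := by
    intro i hiq
    rcases Nat.lt_or_ge s' i with h1 | h1
    · exact hbig i h1 hiq
    rcases Nat.lt_or_ge i s' with h1 | h1
    · have h2 := hz c hc i h1.le
      have h3 := hz (c ^ 2) hc2 i h1.le
      have h4 : (c ^ 2) ^ q = (c ^ q) ^ 2 := by ring
      rw [h4] at h3 hne
      have h5 : f ∣ A i := f_dvd L (c ^ q) (hrf c hc) hne (A i) h2 h3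
      have h6 : f ^ s1 * A i = 0 := by
        refine hW (s1 + 1) (by omega) _ ?_ ?_ ?_
        · rw [pow_succ]
          exact mul_dvd_mul_left _ h5
        · intro l hl
          rw [← hco i (by omega) l]
          apply hhigh
          have : q * (s1 + 1 + t) ≤ q * l := Nat.mul_le_mul_left q hl
          rw [hNt, hseq]
          rw [mul_add, mul_add, mul_one] at this
          omega
        · intro l hl hlt
          rw [← hco i (by omega) l]
          apply hmid
          · have : q * (s1 + 1) ≤ q * l := Nat.mul_le_mul_left q hl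
            rw [mul_add, mul_one] at this
            omega
          · have : q * (l + 1) ≤ q * t := Nat.mul_le_mul_left q hlt
            rw [mul_add, mul_one] at this
            omega
      exact (mul_eq_zero.mp h6).resolve_left (pow_ne_zero _ hf0)
    · rw [show i = s' by omega]
      exact hAs
  have hHz : f ^ s' * B = 0 := by
    rw [hA]
    refine Finset.sum_eq_zero fun j hj => ?_
    rw [hall j (Finset.mem_range.mp hj), map_zero, mul_zero]
  exact (mul_eq_zero.mp hHz).resolve_left (pow_ne_zero _ hf0)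

end Pool.Agent.Lib.MP_c1a8e2_al
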