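import Pool.Agent.Lib.MP_c1a8e2_al.h18.PalSpread

/-!
# Two variables: the cube condition passes from one field to almost all characteristics
-/

set_option autoImplicit false

open Polynomial Finset

namespace Pool.Agent.Lib.MP_c1a8e2_al

/-- The cube expression of an integer polynomial modulo `X ^ 2 + X + 1`. -/
theorem intPol_cube (i : ℕ) (P : ℤ[X]) : ∃ u v : ℤ, ∀ (L : Type) [Field L] (c : L),
    c ^ 2 + c + 1 = 0 →
    ((P.map (Int.castRingHom L)).eval c) ^ 3 -
      (-1) ^ (i + 1) * ((P.map (Int.castRingHom L)).eval (c ^ 2)) ^ 3 =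
      (u : L) + (v : L) * c := by
  have hm : (X ^ 2 + X + 1 : ℤ[X]).Monic := by monicity!
  have hfdeg : (X ^ 2 + X + 1 : ℤ[X]).natDegree = 2 := by compute_degree!
  set R : ℤ[X] := P ^ 3 - (-1) ^ (i + 1) * (P.comp (X ^ 2)) ^ 3 with hR
  have hd : (R %ₘ (X ^ 2 + X + 1)).natDegree ≤ 1 := by
    have h1 := natDegree_modByMonic_lt R hm (by
      intro h
      rw [h] at hfdeg
      simp at hfdeg)
    omega
  obtain ⟨v, u, huv⟩ := exists_eq_X_add_C_of_natDegree_le_one hd
  refine ⟨u, v, fun L _ c hc => ?_⟩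
  have h1 := modByMonic_add_div R (X ^ 2 + X + 1 : ℤ[X])
  rw [huv] at h1
  have h2 := congrArg (aeval c) h1
  rw [hR] at h2
  simp only [map_add, map_sub, map_mul, map_pow, aeval_X, aeval_C, map_one, map_neg,
    aeval_comp, hc, zero_mul, add_zero] at h2
  have h3 : ∀ x : L, (P.map (Int.castRingHom L)).eval x = aeval x P := by
    intro x
    rw [eval_map]
    rfl
  rw [h3, h3, ← h2]
  simp only [algebraMap_int_eq, eq_intCast]
  ring

/-- The integer system of the window conditions for a polynomial of degree `≤ t - i`, with the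
extra condition that the coefficient `j` is zero. -/
noncomputable def winMat (t i : ℕ) (j : Fin (t - i + 1)) :
    Matrix (Fin t ⊕ Unit) (Fin (t - i + 1)) ℤ :=
  fun a b => Sum.elim
    (fun l : Fin t => if i ≤ (l : ℕ) then
      ((X ^ 2 + X + 1 : ℤ[X]) ^ i * X ^ (b : ℕ)).coeff l else 0)
    (fun _ => if b = j then 1 else 0) a

/-- Without the extra condition there is a primitive integer solution. -/
theorem exists_primitive (t i : ℕ) (hit : i ≤ t) : ∃ P : ℤ[X], P.natDegree ≤ t - i ∧
    (∀ l, i ≤ l → l < t → ((X ^ 2 + X + 1) ^ i * P).coeff l = 0) ∧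
    ∀ (K : Type) [Field K], P.map (Int.castRingHom K) ≠ 0 := by
  classical
  set M : Matrix (Fin (t - i + 1)) (Fin (t - i + 1)) ℤ := fun a b =>
    if (a : ℕ) < t - i then ((X ^ 2 + X + 1 : ℤ[X]) ^ i * X ^ (b : ℕ)).coeff (i + a) else 0
    with hM
  have hdet : M.det = 0 := by
    refine Matrix.det_eq_zero_of_row_eq_zero (Fin.last _) fun b => ?_
    rw [hM]
    simp
  obtain ⟨v, hv, hv0⟩ := Matrix.exists_mulVec_eq_zero_iff.mpr hdet
  obtain ⟨g, hg, hg1⟩ := Finset.extract_gcd v (s := Finset.univ) ⟨0, Finset.mem_univ _⟩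
  have hd : Finset.univ.gcd v ≠ 0 := by
    intro h2
    rw [Finset.gcd_eq_zero_iff] at h2
    exact hv (funext fun j => h2 j (Finset.mem_univ j))
  have hMg : ∀ a, ∑ j, M a j * g j = 0 := by
    intro a
    have h2 := congrFun hv0 a
    simp only [Matrix.mulVec, dotProduct, Pi.zero_apply] at h2
    have h3 : ∑ j, M a j * v j = Finset.univ.gcd v * ∑ j, M a j * g j := by
      rw [Finset.mul_sum]
      refine Finset.sum_congr rfl fun j hj => ?_
      rw [hg j hj]
      ring
    rw [h3] at h2
    exact (mul_eq_zero.mp h2).resolve_left hd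
  refine ⟨∑ b : Fin (t - i + 1), C (g b) * X ^ (b : ℕ), ?_, ?_, ?_⟩
  · refine natDegree_sum_le_of_forall_le _ _ fun b _ => ?_
    refine (natDegree_C_mul_X_pow_le _ _).trans ?_
    have := b.2
    omega
  · intro l hl hlt
    have h1 := hMg ⟨l - i, by omega⟩
    rw [hM] at h1
    simp only at h1
    rw [Finset.mul_sum, Polynomial.finsetSum_coeff]
    rw [← h1]
    refine Finset.sum_congr rfl fun b _ => ?_
    have h2 : (X ^ 2 + X + 1 : ℤ[X]) ^ i * (C (g b) * X ^ (b : ℕ)) =
        C (g b) * ((X ^ 2 + X + 1) ^ i * X ^ (b : ℕ)) := by ring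
    rw [h2, coeff_C_mul, if_pos (by omega), show i + (l - i) = l by omega, mul_comm]
  · intro K _ h0
    have h6 : ∀ j, ((ringChar K : ℕ) : ℤ) ∣ g j := by
      intro j
      have h7 := congrArg (fun q : K[X] => q.coeff j) h0
      simp only [coeff_map, coeff_zero, Polynomial.finsetSum_coeff, coeff_C_mul_X_pow] at h7
      rw [Finset.sum_eq_single j] at h7
      · simp only [if_true, eq_intCast] at h7
        rwa [CharP.intCast_eq_zero_iff K (ringChar K)] at h7
      · intro b _ hb
        rw [if_neg]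
        intro h8
        exact hb (Fin.ext h8.symm)
      · intro h8
        exact absurd (Finset.mem_univ _) h8
    have h8 : ((ringChar K : ℕ) : ℤ) ∣ 1 := by
      rw [← hg1]
      exact Finset.dvd_gcd fun j _ => h6 j
    have h9 : ringChar K = 1 := by
      have := Int.natCast_dvd.mp h8
      simpa using this
    exact CharP.ringChar_ne_one h9

theorem winMat_sum (L : Type) [Field L] (t i : ℕ) (j : Fin (t - i + 1))
    (v : Fin (t - i + 1) → L) :
    (∀ a, ∑ b, ((winMat t i j a b : ℤ) : L) * v b = 0) ↔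
      (∀ l, i ≤ l → l < t → ((X ^ 2 + X + 1) ^ i * ofVec L (t - i + 1) v).coeff l = 0) ∧
        v j = 0 := by
  have key1 : ∀ l : Fin t, ∑ b, ((winMat t i j (Sum.inl l) b : ℤ) : L) * v b =
      if i ≤ (l : ℕ) then ((X ^ 2 + X + 1) ^ i * ofVec L (t - i + 1) v).coeff l else 0 := by
    intro l
    simp only [winMat, Sum.elim_inl]
    split_ifs with h
    · rw [coeff_f_ofVec]
    · simp
  have key2 : ∀ l : Unit, ∑ b, ((winMat t i j (Sum.inr l) b : ℤ) : L) * v b = v j := by
    intro l
    simp [winMat]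
  constructor
  · intro h
    refine ⟨fun l hl hlt => ?_, ?_⟩
    · have h1 := h (Sum.inl ⟨l, hlt⟩)
      rw [key1, if_pos hl] at h1
      exact h1
    · have h1 := h (Sum.inr ())
      rwa [key2] at h1
  · rintro ⟨h1, h2⟩ a
    rcases a with l | l
    · rw [key1]
      split_ifs with hl
      · exact h1 l hl l.2
      · rfl
    · rw [key2]
      exact h2

theorem eq_ofVec (L : Type) [Field L] (n : ℕ) (B : L[X]) (hB : B.natDegree ≤ n) :
    B = ofVec L (n + 1) (fun b => B.coeff b) := by
  ext l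
  rw [ofVec_coeff]
  by_cases hn : l < n + 1
  · rw [dif_pos hn]
  · rw [dif_neg hn]
    exact coeff_eq_zero_of_natDegree_lt (by omega)

theorem xcond_spread (K : Type) [Field K] (w : K) (hw : w ^ 2 + w + 1 = 0) (t i : ℕ)
    (hit : i ≤ t) (hX : XCond K t i) :
    ∃ p0 : ℕ, ∀ (p : ℕ) (L : Type) [Field L] [CharP L p], p.Prime → p0 ≤ p → XCond L t i := by
  classical
  obtain ⟨P, hPd, hPw, hP0⟩ := exists_primitive t i hit
  obtain ⟨u, v, huv⟩ := intPol_cube i P
  have hmapw : ∀ (L : Type) [Field L] (l : ℕ), i ≤ l → l < t →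
      ((X ^ 2 + X + 1) ^ i * P.map (Int.castRingHom L)).coeff l = 0 := by
    intro L _ l hl hlt
    have h : (X ^ 2 + X + 1 : L[X]) ^ i * P.map (Int.castRingHom L) =
        ((X ^ 2 + X + 1) ^ i * P).map (Int.castRingHom L) := by
      simp
    rw [h, coeff_map, hPw l hl hlt, map_zero]
  have hne : (u : K) + (v : K) * w ≠ 0 := by
    intro h0
    exact hP0 K (hX (P.map (Int.castRingHom K)) (natDegree_map_le.trans hPd) (hmapw K) w hw
      (by
        have := huv K w hw
        rw [h0] at this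
        exact sub_eq_zero.mp this))
  have hN : u ^ 2 - u * v + v ^ 2 ≠ 0 := by
    intro h0
    have h1 : v = 0 := by nlinarith [sq_nonneg (2 * u - v), sq_nonneg v, sq_nonneg u]
    have h2 : u = 0 := by
      rw [h1] at h0
      nlinarith
    rw [h1, h2] at hne
    simp at hne
  -- a coefficient of `P` that is nonzero in `K`
  obtain ⟨j, hjt, hjK⟩ : ∃ j : Fin (t - i + 1), ((P.coeff j : ℤ) : K) ≠ 0 ∧ True := by
    by_contra hcon
    push Not at hcon
    apply hP0 K
    ext l
    rw [coeff_map, coeff_zero]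
    by_cases hl : l < t - i + 1
    · by_contra h1
      exact hcon ⟨l, hl⟩ h1
    · rw [coeff_eq_zero_of_natDegree_lt (by omega), map_zero]
  have hTj : P.coeff j ≠ 0 := by
    intro h0
    rw [h0] at hjt
    simp at hjt
  set PK := P.map (Int.castRingHom K) with hPK
  set ε : K := (-1) ^ (i + 1) with hε
  have hε3 : ε ^ 3 = ε := by
    rw [hε, ← pow_mul, neg_one_pow_eq_pow_mod_two ((i + 1) * 3),
      neg_one_pow_eq_pow_mod_two (i + 1)]
    congr 1
    omega
  have hβ : PK.eval w - ε * PK.eval (w ^ 2) ≠ 0 := by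
    intro h0
    refine hP0 K (hX PK (natDegree_map_le.trans hPd) (hmapw K) w hw ?_)
    rw [sub_eq_zero.mp h0, mul_pow, hε3]
  have hker : ∀ x : Fin (t - i + 1) → K,
      (∀ a, ∑ b, ((winMat t i j a b : ℤ) : K) * x b = 0) → x = 0 := by
    intro x hx
    rw [winMat_sum] at hx
    obtain ⟨hx1, hx2⟩ := hx
    set B := ofVec K (t - i + 1) x with hB
    have hBd : B.natDegree ≤ t - i := by
      rw [natDegree_le_iff_coeff_eq_zero]
      intro n hn
      rw [hB, ofVec_coeff, dif_neg (by omega)]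
    set α := B.eval w - ε * B.eval (w ^ 2) with hα
    set β := PK.eval w - ε * PK.eval (w ^ 2) with hβ'
    have hD : C β * B - C α * PK = 0 := by
      refine hX _ ?_ ?_ w hw ?_
      · refine (natDegree_sub_le _ _).trans (max_le ?_ ?_)
        · exact (natDegree_C_mul_le _ _).trans hBd
        · exact (natDegree_C_mul_le _ _).trans (natDegree_map_le.trans hPd)
      · intro l hl hlt
        have h2 : (X ^ 2 + X + 1 : K[X]) ^ i * (C β * B - C α * PK) = C β *
            ((X ^ 2 + X + 1) ^ i * B) - C α * ((X ^ 2 + X + 1) ^ i * PK) := by ring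
        rw [h2, coeff_sub, coeff_C_mul, coeff_C_mul, hx1 l hl hlt, hmapw K l hl hlt]
        ring
      · have h2 : (C β * B - C α * PK).eval w = ε * (C β * B - C α * PK).eval (w ^ 2) := by
          simp only [eval_sub, eval_mul, eval_C]
          rw [hα, hβ']
          ring
        rw [h2, mul_pow, hε3]
    have h3 := congrArg (fun q : K[X] => q.coeff j) hD
    simp only [coeff_sub, coeff_C_mul, coeff_zero] at h3
    have h4 : B.coeff j = 0 := by
      rw [hB, ofVec_coeff, dif_pos j.2]
      exact hx2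
    have h5 : PK.coeff j = ((P.coeff j : ℤ) : K) := by
      rw [hPK, coeff_map]
      rfl
    rw [h4, mul_zero, zero_sub, neg_eq_zero, h5] at h3
    have hα0 : α = 0 := (mul_eq_zero.mp h3).resolve_right hjt
    rw [hα0, C_0, zero_mul, sub_zero] at hD
    have hB0 : B = 0 := (mul_eq_zero.mp hD).resolve_left (C_ne_zero.mpr hβ)
    funext b
    have h6 := congrArg (fun q : K[X] => q.coeff b) hB0
    simp only [hB, ofVec_coeff, coeff_zero] at h6
    rw [dif_pos b.2] at h6
    exact h6
  obtain ⟨p1, hp1⟩ := system_spread K (winMat t i j) hker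
  refine ⟨p1 + (P.coeff j).natAbs + (u ^ 2 - u * v + v ^ 2).natAbs + 1,
    fun p L _ _ hpp hp => ?_⟩
  have hTL : ((P.coeff j : ℤ) : L) ≠ 0 := by
    intro h4
    rw [CharP.intCast_eq_zero_iff L p] at h4
    have h5 := Nat.le_of_dvd (Int.natAbs_pos.mpr hTj) (Int.natCast_dvd.mp h4)
    omega
  have hNL : (((u ^ 2 - u * v + v ^ 2 : ℤ)) : L) ≠ 0 := by
    intro h4
    rw [CharP.intCast_eq_zero_iff L p] at h4
    have h5 := Nat.le_of_dvd (Int.natAbs_pos.mpr hN) (Int.natCast_dvd.mp h4)
    omega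
  intro B hB hwin c hc hcube
  set k := B.coeff j with hk
  set PL := P.map (Int.castRingHom L) with hPL
  have h1 : C ((P.coeff j : ℤ) : L) * B = C k * PL := by
    set D := C ((P.coeff j : ℤ) : L) * B - C k * PL with hD
    have hDd : D.natDegree ≤ t - i := by
      rw [hD]
      refine (natDegree_sub_le _ _).trans (max_le ?_ ?_)
      · exact (natDegree_C_mul_le _ _).trans hB
      · exact (natDegree_C_mul_le _ _).trans (natDegree_map_le.trans hPd)
    have h2 := hp1 p L hpp (by omega) (fun b => D.coeff b) (by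
      rw [winMat_sum, ← eq_ofVec L (t - i) D hDd]
      refine ⟨fun l hl hlt => ?_, ?_⟩
      · have h2 : (X ^ 2 + X + 1 : L[X]) ^ i * D = C ((P.coeff j : ℤ) : L) *
            ((X ^ 2 + X + 1) ^ i * B) - C k * ((X ^ 2 + X + 1) ^ i * PL) := by
          rw [hD]
          ring
        rw [h2, coeff_sub, coeff_C_mul, coeff_C_mul, hwin l hl hlt, hmapw L l hl hlt]
        ring
      · simp only [hD, coeff_sub, coeff_C_mul, hPL, coeff_map, eq_intCast, hk]
        ring)
    have h3 : D = 0 := by
      rw [eq_ofVec L (t - i) D hDd, h2]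
      ext n
      rw [ofVec_coeff]
      split_ifs <;> simp
    exact sub_eq_zero.mp h3
  have e1 := congrArg (eval c) h1
  have e2 := congrArg (eval (c ^ 2)) h1
  simp only [eval_mul, eval_C] at e1 e2
  have e3 := huv L c hc
  have h2 : k ^ 3 * ((u : L) + (v : L) * c) = 0 := by
    rw [← e3]
    have e4 : k ^ 3 * ((PL.eval c) ^ 3 - (-1) ^ (i + 1) * (PL.eval (c ^ 2)) ^ 3) =
      (k * PL.eval c) ^ 3 - (-1) ^ (i + 1) * (k * PL.eval (c ^ 2)) ^ 3 := by ring
    rw [e4, ← e1, ← e2, mul_pow, mul_pow, hcube]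
    ring
  have hc3 : c ^ 3 = 1 := cube_root L c hc
  have h3 : (u : L) + (v : L) * c ≠ 0 := by
    intro h0
    apply hNL
    push_cast
    linear_combination ((u : L) + (v : L) * c ^ 2) * h0 - (u : L) * v * hc - (v : L) ^ 2 * hc3
  have hk0 : k = 0 :=
    pow_eq_zero_iff (n := 3) (by norm_num) |>.mp ((mul_eq_zero.mp h2).resolve_right h3)
  rw [hk0, C_0, zero_mul] at h1
  exact (mul_eq_zero.mp h1).resolve_left (C_ne_zero.mpr hTL)

end Pool.Agent.Lib.MP_c1a8e2_al
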