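import Pool.Agent.Lib.MP_c1a8e2_al.h18.PalSpread
import Pool.Agent.Lib.MP_c1a8e2_al.h18.XSpread
import Pool.Agent.Lib.MP_c1a8e2_al.h18.XMul
import Pool.Agent.Lib.MP_c1a8e2_al.h18.Blk

/-!
# Two variables: products `t` of prime powers and `m + 1 = t + 1`
-/

set_option autoImplicit false

open Polynomial Finset

namespace Pool.Agent.Lib.MP_c1a8e2_al

/-- The conditions of `pal_block` and `xcond_mul` over the field `K`. -/
def CondT (K : Type) [Field K] (t : ℕ) : Prop :=
  (∀ i ≤ t, Win K t i) ∧ (∀ i ≤ t, Odd i → PalWin K (t + 1) i) ∧ (∀ i < t, XCond K t i)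

/-- The conditions hold over some field with a root of `x ^ 2 + x + 1`. -/
def GoodT (t : ℕ) : Prop :=
  ∃ (K : Type) (_ : Field K) (w : K), w ^ 2 + w + 1 = 0 ∧ CondT K t

theorem win_spread (K : Type) [Field K] (t i : ℕ) (hit : i ≤ t) (h : Win K t i) :
    ∃ p0 : ℕ, ∀ (p : ℕ) (L : Type) [Field L] [CharP L p], p.Prime → p0 ≤ p → Win L t i := by
  rcases Nat.lt_or_ge i t with h1 | h1
  · have h2 := det_of_win K t i h1 h
    have h3 : (toep i t).det ≠ 0 := by
      intro h0
      rw [h0] at h2
      simp at h2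
    refine ⟨(toep i t).det.natAbs + 1, fun p L _ _ _ hp => win_of_det L t i fun h4 => ?_⟩
    rw [CharP.intCast_eq_zero_iff L p] at h4
    have h5 := Nat.le_of_dvd (Int.natAbs_pos.mpr h3) (Int.natCast_dvd.mp h4)
    omega
  · have h2 : i = t := le_antisymm hit h1
    subst h2
    refine ⟨0, fun p L _ _ _ _ => win_of_det L i i ?_⟩
    have h5 : (toep i i).det = 1 := by
      have : IsEmpty (Fin (i - i)) := by
        rw [Nat.sub_self]
        infer_instance
      exact Matrix.det_isEmpty
    rw [h5]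
    simp

/-- The conditions pass to almost all characteristics. -/
theorem condT_spread (t : ℕ) (h : GoodT t) :
    ∃ p0 : ℕ, ∀ (p : ℕ) (L : Type) [Field L] [CharP L p], p.Prime → p0 ≤ p → CondT L t := by
  obtain ⟨K, _, w, hw, hW, hP, hX⟩ := h
  have e1 : ∀ i, ∃ p0 : ℕ, i ≤ t →
      ∀ (p : ℕ) (L : Type) [Field L] [CharP L p], p.Prime → p0 ≤ p → Win L t i := by
    intro i
    by_cases hi : i ≤ t
    · obtain ⟨p0, h⟩ := win_spread K t i hi (hW i hi)
      exact ⟨p0, fun _ => h⟩
    · exact ⟨0, fun h => absurd h hi⟩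
  have e2 : ∀ i, ∃ p0 : ℕ, i ≤ t → Odd i →
      ∀ (p : ℕ) (L : Type) [Field L] [CharP L p], p.Prime → p0 ≤ p → PalWin L (t + 1) i := by
    intro i
    by_cases hi : i ≤ t ∧ Odd i
    · obtain ⟨p0, h⟩ := palWin_spread K (t + 1) i (hP i hi.1 hi.2)
      exact ⟨p0, fun _ _ => h⟩
    · exact ⟨0, fun h h' => absurd ⟨h, h'⟩ hi⟩
  have e3 : ∀ i, ∃ p0 : ℕ, i < t →
      ∀ (p : ℕ) (L : Type) [Field L] [CharP L p], p.Prime → p0 ≤ p → XCond L t i := by
    intro i
    by_cases hi : i < t
    · obtain ⟨p0, h⟩ := xcond_spread K w hw t i hi.le (hX i hi)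
      exact ⟨p0, fun _ => h⟩
    · exact ⟨0, fun h => absurd h hi⟩
  choose f1 h1 using e1
  choose f2 h2 using e2
  choose f3 h3 using e3
  refine ⟨∑ i ∈ range (t + 1), (f1 i + f2 i + f3 i), fun p L _ _ hp hpp => ?_⟩
  have hle : ∀ i ≤ t, f1 i + f2 i + f3 i ≤ ∑ i ∈ range (t + 1), (f1 i + f2 i + f3 i) :=
    fun i hi => Finset.single_le_sum (f := fun i => f1 i + f2 i + f3 i)
      (fun _ _ => Nat.zero_le _) (Finset.mem_range.mpr (by omega))
  refine ⟨?_, ?_, ?_⟩
  · intro i hi
    have := hle i hi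
    exact h1 i hi p L hp (by omega)
  · intro i hi hodd
    have := hle i hi
    exact h2 i hi hodd p L hp (by omega)
  · intro i hi
    have := hle i hi.le
    exact h3 i hi p L hp (by omega)

/-- In characteristic `p` the conditions pass from `t` to `t * p ^ a`. -/
theorem condT_mul (L : Type) [Field L] (p a : ℕ) [hp : Fact p.Prime] [CharP L p] (hp2 : p ≠ 2)
    (hp3 : p ≠ 3) (w : L) (hw : w ^ 2 + w + 1 = 0) (t : ℕ) (h : CondT L t) :
    CondT L (t * p ^ a) := by
  have hq : 0 < p ^ a := pow_pos hp.out.pos a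
  obtain ⟨hW, hP, hX⟩ := h
  refine ⟨fun i hi => ?_, fun i hi hodd => ?_, fun i hi => ?_⟩
  · refine win_mul L p a hp3 w hw t i hi (hW _ ?_) (fun hm => hW _ ?_)
    · exact Nat.div_le_of_le_mul (by rwa [mul_comm])
    · have h1 : i / p ^ a < t := by
        rcases Nat.lt_or_ge (i / p ^ a) t with h2 | h2
        · exact h2
        · exfalso
          have h3 : t * p ^ a ≤ i / p ^ a * p ^ a := Nat.mul_le_mul_right _ h2
          have h4 := Nat.div_add_mod i (p ^ a)
          have h5 : 0 < i % p ^ a := Nat.pos_of_ne_zero hm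
          rw [mul_comm (p ^ a) (i / p ^ a)] at h4
          omega
      omega
  · exact pal_block L p a hp2 hp3 w hw t i hodd hi hW hP hX
  · exact xcond_mul L p a hp2 hp3 t i hi hW hX

theorem good_mul (t : ℕ) (h : GoodT t) :
    ∃ p0 : ℕ, ∀ p a : ℕ, p.Prime → p0 ≤ p → GoodT (t * p ^ a) := by
  obtain ⟨p0, h0⟩ := condT_spread t h
  refine ⟨p0 + 5, fun p a hp hpp => ?_⟩
  have : Fact p.Prime := ⟨hp⟩
  obtain ⟨w, hw⟩ := exists_root_f (AlgebraicClosure (ZMod p))
  exact ⟨AlgebraicClosure (ZMod p), inferInstance, w, hw,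
    condT_mul _ p a (by omega) (by omega) w hw t (h0 p _ hp (by omega))⟩

theorem good_nonsing (t : ℕ) (h : GoodT t) : Nonsing 2 t := by
  obtain ⟨K, _, w, hw, hW, hP, hX⟩ := h
  exact nonsing_of_odd t fun s hs hst => ⟨K, inferInstance, w, hw, hP s hst hs⟩

theorem condT_one (K : Type) [Field K] (h2 : (2 : K) ≠ 0) : CondT K 1 := by
  have hfdeg : (X ^ 2 + X + 1 : K[X]).natDegree = 2 := by compute_degree!
  have hf0 : (X ^ 2 + X + 1 : K[X]) ≠ 0 := by
    intro h1
    rw [h1] at hfdeg
    simp at hfdeg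
  refine ⟨?_, ?_, ?_⟩
  · intro i hi
    refine win_of_det _ 1 i ?_
    interval_cases i
    · have : (toep 0 1).det = 1 := by
        rw [Matrix.det_fin_one]
        simp [toep]
      rw [this]
      simp
    · have : (toep 1 1).det = 1 := Matrix.det_fin_zero
      rw [this]
      simp
  · intro i hi hodd
    have hi1 : i = 1 := by
      have := hodd.pos
      omega
    subst hi1
    refine (win_of_det _ 2 1 ?_).pal
    have : (toep 1 2).det = 1 := by
      rw [Matrix.det_fin_one]
      simp [toep, coeff_X, coeff_one]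
    rw [this]
    simp
  · intro i hi B hB hwin c hc hcube
    have hi0 : i = 0 := by omega
    subst hi0
    have h0 := hwin 0 le_rfl (by norm_num)
    rw [pow_zero, one_mul] at h0
    obtain ⟨a, b, rfl⟩ := exists_eq_X_add_C_of_natDegree_le_one hB
    have hb : b = 0 := by simpa using h0
    subst hb
    have hc3 : c ^ 3 = 1 := cube_root K c hc
    have e1 : (C a * X + C (0 : K)).eval c = a * c := by simp
    have e2 : (C a * X + C (0 : K)).eval (c ^ 2) = a * c ^ 2 := by simp
    rw [e1, e2] at hcube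
    have h3 : 2 * a ^ 3 = 0 := by
      have e3 : (a * c) ^ 3 = a ^ 3 := by rw [mul_pow, hc3, mul_one]
      have e4 : (a * c ^ 2) ^ 3 = a ^ 3 := by
        rw [mul_pow, ← pow_mul, mul_comm 2 3, pow_mul, hc3, one_pow, mul_one]
      rw [e3, e4] at hcube
      linear_combination hcube
    have h4 : a = 0 := pow_eq_zero_iff (by norm_num) |>.mp ((mul_eq_zero.mp h3).resolve_left h2)
    rw [h4]
    simp

theorem good_prime_power (r b : ℕ) (hr : r.Prime) (hr5 : 5 ≤ r) : GoodT (r ^ b) := by
  have : Fact r.Prime := ⟨hr⟩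
  obtain ⟨w, hw⟩ := exists_root_f (AlgebraicClosure (ZMod r))
  have h := condT_mul (AlgebraicClosure (ZMod r)) r b (by omega) (by omega) w hw 1
    (condT_one _ (two_ne _ r (by omega)))
  rw [one_mul] at h
  exact ⟨AlgebraicClosure (ZMod r), inferInstance, w, hw, h⟩

theorem condT_two (L : Type) [Field L] (p : ℕ) [hp : Fact p.Prime] [CharP L p] (hp2 : p ≠ 2)
    (hp3 : p ≠ 3) (w : L) (hw : w ^ 2 + w + 1 = 0) : CondT L 2 := by
  have h2 := two_ne L p hp2
  refine ⟨?_, ?_, ?_⟩
  · intro i hi
    refine win_of_det _ 2 i ?_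
    interval_cases i
    · have : (toep 0 2).det = 1 := by
        rw [Matrix.det_fin_two]
        simp [toep]
      rw [this]
      simp
    · have : (toep 1 2).det = 1 := by
        rw [Matrix.det_fin_one]
        simp [toep, coeff_X, coeff_one]
      rw [this]
      simp
    · have : (toep 2 2).det = 1 := Matrix.det_fin_zero
      rw [this]
      simp
  · intro i hi hodd
    have hi1 : i = 1 := by
      obtain ⟨j, hj⟩ := hodd
      omega
    subst hi1
    exact palWin_one' L h2 w hw 3 (by norm_num)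
  · intro i hi B hB hwin c hc hcube
    have hc3 : c ^ 3 = 1 := cube_root L c hc
    interval_cases i
    · have h0 := hwin 0 le_rfl (by norm_num)
      have h1 := hwin 1 (by norm_num) (by norm_num)
      rw [pow_zero, one_mul] at h0 h1
      have hB' : B = C (B.coeff 2) * X ^ 2 := by
        conv_lhs => rw [B.as_sum_range_C_mul_X_pow' (n := 3) (by omega)]
        simp only [Finset.sum_range_succ, Finset.sum_range_zero, h0, h1]
        simp
      generalize B.coeff 2 = k at hB'
      subst hB'
      have e1 : (C k * X ^ 2).eval c = k * c ^ 2 := by simp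
      have e2 : (C k * X ^ 2).eval (c ^ 2) = k * (c ^ 2) ^ 2 := by simp
      rw [e1, e2] at hcube
      have h3 : 2 * k ^ 3 = 0 := by
        have e3 : (k * c ^ 2) ^ 3 = k ^ 3 := by
          rw [mul_pow, ← pow_mul, mul_comm 2 3, pow_mul, hc3, one_pow, mul_one]
        have e4 : (k * (c ^ 2) ^ 2) ^ 3 = k ^ 3 := by
          rw [mul_pow, ← pow_mul, ← pow_mul, show 2 * (2 * 3) = 3 * 4 by norm_num, pow_mul, hc3,
            one_pow, mul_one]
        rw [e3, e4] at hcube
        linear_combination hcube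
      have h4 : k = 0 :=
        pow_eq_zero_iff (by norm_num) |>.mp ((mul_eq_zero.mp h3).resolve_left h2)
      rw [h4]
      simp
    · have h1 := hwin 1 le_rfl (by norm_num)
      obtain ⟨a, b, rfl⟩ := exists_eq_X_add_C_of_natDegree_le_one hB
      have h2' : (X ^ 2 + X + 1 : L[X]) ^ 1 * (C a * X + C b) =
          C a * X ^ 3 + C (a + b) * X ^ 2 + C (a + b) * X + C b := by
        rw [pow_one, C_add]
        ring
      rw [h2', coeff_add, coeff_add, coeff_add, coeff_C_mul_X_pow, coeff_C_mul_X_pow,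
        coeff_C_mul_X, coeff_C, if_neg (by norm_num), if_neg (by norm_num), if_pos rfl,
        if_neg (by norm_num)] at h1
      have hab : a + b = 0 := by linear_combination h1
      have hb : b = -a := by linear_combination hab
      subst hb
      have e1 : (C a * X + C (-a)).eval c = a * (c - 1) := by
        simp
        ring
      have e2 : (C a * X + C (-a)).eval (c ^ 2) = a * (c ^ 2 - 1) := by
        simp
        ring
      rw [e1, e2] at hcube
      have hd : (c - 1) ≠ 0 := by
        intro h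
        have hc1 : c = 1 := by linear_combination h
        rw [hc1] at hc
        apply three_ne L p hp3
        linear_combination hc
      have h3 : (2 * (c - 1) ^ 3) * a ^ 3 = 0 := by
        have e3 : c ^ 2 - 1 = -(c ^ 2 * (c - 1)) := by
          linear_combination (c - 1) * hc
        rw [e3] at hcube
        have e4 : (a * -(c ^ 2 * (c - 1))) ^ 3 = -(a ^ 3 * (c ^ 3) ^ 2 * (c - 1) ^ 3) := by ring
        rw [e4, hc3] at hcube
        linear_combination hcube
      have h4 : a = 0 := by
        refine pow_eq_zero_iff (n := 3) (by norm_num) |>.mp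
          ((mul_eq_zero.mp h3).resolve_left ?_)
        exact mul_ne_zero h2 (pow_ne_zero 3 hd)
      rw [h4]
      simp

theorem good_two_mul (r b : ℕ) (hr : r.Prime) (hr5 : 5 ≤ r) : GoodT (2 * r ^ b) := by
  have : Fact r.Prime := ⟨hr⟩
  obtain ⟨w, hw⟩ := exists_root_f (AlgebraicClosure (ZMod r))
  exact ⟨AlgebraicClosure (ZMod r), inferInstance, w, hw,
    condT_mul _ r b (by omega) (by omega) w hw 2 (condT_two _ r (by omega) (by omega) w hw)⟩

end Pool.Agent.Lib.MP_c1a8e2_al
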