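import Pool.Agent.Lib.MP_c1a8e2_al.h18.Good
import Pool.Agent.Lib.MP_c1a8e2_al.h18.Blk

/-!
# Two variables: the conditions for `t = 4`
-/

set_option autoImplicit false

open Polynomial Finset

namespace Pool.Agent.Lib.MP_c1a8e2_al

/-- The cube condition from one explicit polynomial. -/
theorem xcond_of_poly (L : Type) [Field L] (i t : ℕ) (hit : i < t) (hW : Win L t i) (P : L[X])
    (hPd : P.natDegree ≤ t - i) (hPc : P.coeff (t - i) ≠ 0)
    (hPw : ∀ l, i ≤ l → l < t → ((X ^ 2 + X + 1) ^ i * P).coeff l = 0)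
    (hP : ∀ c : L, c ^ 2 + c + 1 = 0 →
      (P.eval c) ^ 3 ≠ (-1) ^ (i + 1) * (P.eval (c ^ 2)) ^ 3) : XCond L t i := by
  intro B hB hwin c hc hcube
  have hfdeg : (X ^ 2 + X + 1 : L[X]).natDegree = 2 := by compute_degree!
  have hf0 : (X ^ 2 + X + 1 : L[X]) ≠ 0 := by
    intro h1
    rw [h1] at hfdeg
    simp at hfdeg
  set T := P.coeff (t - i) with hT
  set k := B.coeff (t - i) with hk
  set D : L[X] := C T * B - C k * P with hD
  have hDc : D.coeff (t - i) = 0 := by
    rw [hD, coeff_sub, coeff_C_mul, coeff_C_mul]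
    ring
  have hDd : D.natDegree ≤ t - i := by
    rw [hD]
    refine (natDegree_sub_le _ _).trans (max_le ?_ ?_)
    · exact (natDegree_C_mul_le _ _).trans hB
    · exact (natDegree_C_mul_le _ _).trans hPd
  have hDd' : D.natDegree ≤ t - i - 1 := by
    rw [natDegree_le_iff_coeff_eq_zero]
    intro n hn
    rcases Nat.lt_or_ge (t - i) n with h1 | h1
    · exact coeff_eq_zero_of_natDegree_lt (by omega)
    · rw [show n = t - i by omega]
      exact hDc
  have h1 := hW ((X ^ 2 + X + 1) ^ i * D) (dvd_mul_right _ _) ?_ ?_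
  · have h2 : C T * B = C k * P :=
      sub_eq_zero.mp ((mul_eq_zero.mp h1).resolve_left (pow_ne_zero _ hf0))
    have e1 := congrArg (eval c) h2
    have e2 := congrArg (eval (c ^ 2)) h2
    simp only [eval_mul, eval_C] at e1 e2
    have h3 : k ^ 3 * ((P.eval c) ^ 3 - (-1) ^ (i + 1) * (P.eval (c ^ 2)) ^ 3) = 0 := by
      have e4 : k ^ 3 * ((P.eval c) ^ 3 - (-1) ^ (i + 1) * (P.eval (c ^ 2)) ^ 3) =
        (k * P.eval c) ^ 3 - (-1) ^ (i + 1) * (k * P.eval (c ^ 2)) ^ 3 := by ring
      rw [e4, ← e1, ← e2, mul_pow, mul_pow, hcube]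
      ring
    have hk0 : k = 0 := pow_eq_zero_iff (n := 3) (by norm_num) |>.mp
      ((mul_eq_zero.mp h3).resolve_right (sub_ne_zero.mpr (hP c hc)))
    rw [hk0, C_0, zero_mul] at h2
    exact (mul_eq_zero.mp h2).resolve_left (C_ne_zero.mpr hPc)
  · intro n hn
    apply coeff_eq_zero_of_natDegree_lt
    refine lt_of_le_of_lt (natDegree_mul_le) ?_
    rw [natDegree_pow, hfdeg]
    omega
  · intro n hn hnt
    have h2 : (X ^ 2 + X + 1 : L[X]) ^ i * D = C T *
        ((X ^ 2 + X + 1) ^ i * B) - C k * ((X ^ 2 + X + 1) ^ i * P) := by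
      rw [hD]
      ring
    rw [h2, coeff_sub, coeff_C_mul, coeff_C_mul, hwin n hn hnt, hPw n hn hnt]
    ring

theorem condT_four (L : Type) [Field L] (p : ℕ) [hp : Fact p.Prime] [CharP L p] (hp2 : p ≠ 2)
    (hp3 : p ≠ 3) (hp5 : p ≠ 5) (hp7 : p ≠ 7) (hp13 : p ≠ 13) : CondT L 4 := by
  have hW : ∀ i ≤ 4, Win L 4 i := win_four L p hp5 hp7
  have h2 : (2 : L) ≠ 0 := two_ne L p hp2
  have h3 : (3 : L) ≠ 0 := three_ne L p hp3
  have hcast : ∀ q : ℕ, q.Prime → p ≠ q → ((q : ℕ) : L) ≠ 0 := by
    intro q hq hpq h0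
    rw [CharP.cast_eq_zero_iff L p] at h0
    exact hpq ((Nat.prime_dvd_prime_iff_eq hp.out hq).mp h0)
  have h5 : (5 : L) ≠ 0 := by exact_mod_cast hcast 5 (by norm_num) hp5
  have h7 : (7 : L) ≠ 0 := by exact_mod_cast hcast 7 (by norm_num) hp7
  have h13 : (13 : L) ≠ 0 := by exact_mod_cast hcast 13 (by norm_num) hp13
  refine ⟨hW, ?_, ?_⟩
  · intro i hi hodd
    interval_cases i
    · exact absurd hodd (by decide)
    · exact palWin_five_one L
    · exact absurd hodd (by decide)
    · exact palWin_five_three L p hp13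
    · exact absurd hodd (by decide)
  · have hne : ∀ c : L, c ^ 2 + c + 1 = 0 → c - c ^ 2 ≠ 0 := by
      intro c hc h
      have h1 : c * (1 - c) = 0 := by linear_combination h
      rcases mul_eq_zero.mp h1 with h2 | h2
      · rw [h2] at hc
        apply one_ne_zero (α := L)
        linear_combination hc
      · have h3' : c = 1 := by linear_combination -h2
        rw [h3'] at hc
        apply h3
        linear_combination hc
    intro i hi
    interval_cases i
    · refine xcond_of_poly L 0 4 (by norm_num) (hW 0 (by norm_num)) (X ^ 4) ?_ ?_ ?_ ?_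
      · simp
      · simp
      · intro l _ hl
        rw [pow_zero, one_mul, coeff_X_pow, if_neg (by omega)]
      · intro c hc h
        have hc3 : c ^ 3 = 1 := cube_root L c hc
        simp only [eval_pow, eval_X] at h
        have h1 : (c ^ 4) ^ 3 = (c ^ 3) ^ 4 := by ring
        have h2' : ((c ^ 2) ^ 4) ^ 3 = (c ^ 3) ^ 8 := by ring
        rw [h1, h2', hc3] at h
        apply h2
        linear_combination h
    · refine xcond_of_poly L 1 4 (by norm_num) (hW 1 (by norm_num)) (X ^ 3 - X + 1) ?_ ?_ ?_ ?_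
      · compute_degree
      · norm_num [coeff_X, coeff_one, coeff_X_pow]
      · intro l hl hl4
        have h1 : (X ^ 2 + X + 1 : L[X]) ^ 1 * (X ^ 3 - X + 1) = X ^ 5 + X ^ 4 + 1 := by ring
        rw [h1]
        interval_cases l <;> simp [coeff_one, coeff_X_pow]
      · intro c hc h
        simp only [eval_add, eval_sub, eval_pow, eval_X, eval_one] at h
        apply hne c hc
        have h1 : (2 * 3 * 3) * (c - c ^ 2) = 0 := by
          have hc3 : c ^ 3 = 1 := cube_root L c hc
          have e1 : c ^ 3 - c + 1 = 2 - c := by linear_combination hc3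
          have e2 : (c ^ 2) ^ 3 - c ^ 2 + 1 = 2 - c ^ 2 := by
            linear_combination (c ^ 3 + 1) * hc3
          rw [e1, e2] at h
          have e3 : (2 - c) ^ 3 = 1 - 18 * c := by
            linear_combination (6 : L) * hc - hc3
          have e4 : (2 - c ^ 2) ^ 3 = 1 - 18 * c ^ 2 := by
            linear_combination (6 : L) * hc + (6 * c - (c ^ 3 + 1)) * hc3
          rw [e3, e4] at h
          linear_combination -h
        exact (mul_eq_zero.mp h1).resolve_left (mul_ne_zero (mul_ne_zero h2 h3) h3)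
    · refine xcond_of_poly L 2 4 (by norm_num) (hW 2 (by norm_num))
        (C 5 * X ^ 2 - C 4 * X + 1) ?_ ?_ ?_ ?_
      · compute_degree
      · have h1 : (C 5 * X ^ 2 - C 4 * X + 1 : L[X]).coeff (4 - 2) = 5 := by
          simp [coeff_one]
        rw [h1]
        exact h5
      · intro l hl hl4
        have h1 : (X ^ 2 + X + 1 : L[X]) ^ 2 * (C 5 * X ^ 2 - C 4 * X + 1) =
            C 5 * X ^ 6 + C 6 * X ^ 5 + C 8 * X ^ 4 - C 2 * X + 1 := by
          simp only [map_ofNat]
          ring
        rw [h1]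
        interval_cases l <;> simp [coeff_one]
      · intro c hc h
        simp only [eval_add, eval_sub, eval_mul, eval_C, eval_pow, eval_X, eval_one] at h
        have hc3 : c ^ 3 = 1 := cube_root L c hc
        have e1 : 5 * c ^ 2 - 4 * c + 1 = -(4 + 9 * c) := by linear_combination 5 * hc
        have e2 : 5 * (c ^ 2) ^ 2 - 4 * c ^ 2 + 1 = 5 + 9 * c := by
          linear_combination (5 * c) * hc3 - 4 * hc
        rw [e1, e2] at h
        have e3 : (4 + 9 * c) ^ 3 - (5 + 9 * c) ^ 3 = 182 := by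
          linear_combination (-243 : L) * hc
        have e4 : (2 * 7 * 13 : L) = 0 := by
          have e5 : (2 * 7 * 13 : L) = 182 := by norm_num
          rw [e5, ← e3]
          linear_combination -h
        exact mul_ne_zero (mul_ne_zero h2 h7) h13 e4
    · refine xcond_of_poly L 3 4 (by norm_num) (hW 3 (by norm_num))
        (C 6 - C 7 * X) ?_ ?_ ?_ ?_
      · compute_degree
      · have h1 : (C 6 - C 7 * X : L[X]).coeff (4 - 3) = -7 := by
          simp [coeff_C]
        rw [h1]
        exact neg_ne_zero.mpr h7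
      · intro l hl hl4
        have h1 : (X ^ 2 + X + 1 : L[X]) ^ 3 * (C 6 - C 7 * X) =
            -C 7 * X ^ 7 - C 15 * X ^ 6 - C 24 * X ^ 5 - C 13 * X ^ 4 + C 15 * X ^ 2 +
              C 11 * X + C 6 := by
          simp only [map_ofNat]
          ring
        rw [h1]
        interval_cases l
        simp
      · intro c hc h
        simp only [eval_sub, eval_mul, eval_C, eval_X] at h
        have hc3 : c ^ 3 = 1 := cube_root L c hc
        apply hne c hc
        have h1 : (2 * 3 * 3 * 7 * 13) * (c - c ^ 2) = 0 := by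
          have e3 : (6 - 7 * c) ^ 3 = -1009 - 1638 * c := by
            linear_combination (882 : L) * hc - 343 * hc3
          have e4 : (6 - 7 * c ^ 2) ^ 3 = -1009 - 1638 * c ^ 2 := by
            linear_combination (882 : L) * hc + (882 * c - 343 * (c ^ 3 + 1)) * hc3
          rw [e3, e4] at h
          linear_combination -h
        exact (mul_eq_zero.mp h1).resolve_left
          (mul_ne_zero (mul_ne_zero (mul_ne_zero (mul_ne_zero h2 h3) h3) h7) h13)

theorem good_four_mul (r b : ℕ) (hr : r.Prime) (h2 : r ≠ 2) (h3 : r ≠ 3) (h5 : r ≠ 5)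
    (h7 : r ≠ 7) (h13 : r ≠ 13) : GoodT (4 * r ^ b) := by
  have : Fact r.Prime := ⟨hr⟩
  obtain ⟨w, hw⟩ := exists_root_f (AlgebraicClosure (ZMod r))
  exact ⟨AlgebraicClosure (ZMod r), inferInstance, w, hw,
    condT_mul _ r b h2 h3 w hw 4 (condT_four _ r h2 h3 h5 h7 h13)⟩

end Pool.Agent.Lib.MP_c1a8e2_al
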