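import Pool.Agent.Lib.MP_c1a8e2_al.h18.XMul

/-!
# Two variables: `m + 1 = t q - 1`, `q` a power of a prime `p ≥ 5`
-/

set_option autoImplicit false

open Polynomial Finset

namespace Pool.Agent.Lib.MP_c1a8e2_al

/-- The blocks of `X H` from the blocks of `H`. -/
noncomputable def shiftA (L : Type) [Field L] (q : ℕ) (A : ℕ → L[X]) : ℕ → L[X] :=
  fun j => if j = 0 then X * A (q - 1) else A (j - 1)

theorem shift_sum (L : Type) [Field L] (q : ℕ) (hq : 0 < q) (A : ℕ → L[X]) (s : ℕ)
    (hs : s < q) (h : ∀ i, s ≤ i → i < q - 1 → A i = 0) :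
    X * ∑ j ∈ range q, X ^ j * expand L q (A j) =
      ∑ j ∈ range (s + 1), X ^ j * expand L q (shiftA L q A j) := by
  obtain ⟨r, rfl⟩ : ∃ r, q = r + 1 := ⟨q - 1, by omega⟩
  have h1 : ∑ j ∈ range r, X ^ j * expand L (r + 1) (A j) =
      ∑ j ∈ range s, X ^ j * expand L (r + 1) (A j) := by
    refine (Finset.sum_subset (Finset.range_subset_range.mpr (by omega)) ?_).symm
    intro j hj hj'
    rw [Finset.mem_range] at hj hj'
    rw [h j (by omega) (by omega), map_zero, mul_zero]
  rw [Finset.sum_range_succ, h1, Finset.sum_range_succ', mul_add, Finset.mul_sum]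
  congr 1
  · refine Finset.sum_congr rfl fun j _ => ?_
    simp only [shiftA, if_neg (Nat.succ_ne_zero j), Nat.add_sub_cancel]
    ring
  · simp only [shiftA, if_true, Nat.add_sub_cancel, map_mul, expand_X]
    ring

theorem pal_block_minus (L : Type) [Field L] (p a : ℕ) [hp : Fact p.Prime] [CharP L p]
    (hp2 : p ≠ 2) (hp3 : p ≠ 3) (w : L) (hw : w ^ 2 + w + 1 = 0) (t s : ℕ) (hs : Odd s)
    (hst : s + 2 ≤ t * p ^ a)
    (hW : ∀ i ≤ t, Win L t i) (hP : ∀ i ≤ t - 1, Odd i → PalWin L (t - 1) i)
    (hX : ∀ i ≤ t - 1, XCond L (t - 1) i) :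
    PalWin L (t * p ^ a - 1) s := by
  intro G hdvd hhigh hmid hpal
  have hq0 : 0 < p ^ a := pow_pos hp.out.pos a
  have hqodd : p ^ a % 2 = 1 := Nat.odd_iff.mp ((hp.out.odd_of_ne_two hp2).pow)
  have hs2 : s % 2 = 1 := Nat.odd_iff.mp hs
  have hne := ne_frob L p a hp3 w hw
  have hbr := block_root' L p a
  have hfr := frob_f L p a
  have hrf := root_frob L p a
  generalize p ^ a = q at hst hhigh hmid hpal hq0 hqodd hne hbr hfr hrf
  set f : L[X] := X ^ 2 + X + 1 with hf
  have hfdeg : f.natDegree = 2 := by rw [hf]; compute_degree!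
  have hf0 : f ≠ 0 := by
    intro h1
    rw [h1] at hfdeg
    simp at hfdeg
  obtain ⟨P, rfl⟩ := hdvd
  set s1 := s / q with hs1
  set s' := s % q with hs'
  have hs'q : s' < q := Nat.mod_lt s hq0
  have hseq : s = s' + q * s1 := (Nat.mod_add_div s q).symm
  obtain ⟨A, hA⟩ := exists_block hq0 (f ^ s' * P)
  have hG : f ^ s * P = ∑ j ∈ range q, X ^ j * expand L q (f ^ s1 * A j) := by
    have h1 : f ^ s * P = expand L q (f ^ s1) * (f ^ s' * P) := by
      rw [hseq, pow_add, pow_mul, hfr, map_pow]
      ring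
    rw [h1, hA, Finset.mul_sum]
    refine Finset.sum_congr rfl fun j _ => ?_
    rw [map_mul]
    ring
  have hco : ∀ i < q, ∀ l, (f ^ s * P).coeff (i + q * l) = (f ^ s1 * A i).coeff l := by
    intro i hi l
    rw [hG, coeff_block hq0 _ _ _ hi]
  have hs1t : s1 < t := by
    have h1 : s < q * t := by
      rw [mul_comm]
      omega
    exact Nat.div_lt_of_lt_mul h1
  obtain ⟨u, rfl⟩ : ∃ u, t = u + 1 :=
    Nat.exists_eq_succ_of_ne_zero (Nat.ne_zero_of_lt hs1t)
  rw [Nat.add_sub_cancel] at hP hX
  have hNt : (u + 1) * q = q * u + q := by ring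
  have hs1u : s1 ≤ u := by omega
  rw [hNt] at hst hhigh hmid hpal
  -- the blocks with `s' ≤ i < q - 1`
  have hbig : ∀ i, s' ≤ i → i < q - 1 → A i = 0 := by
    intro i hi hiq
    have h1 : f ^ s1 * A i = 0 := by
      refine hW s1 hs1t.le _ (dvd_mul_right _ _) ?_ ?_
      · intro l hl
        rw [← hco i (by omega) l]
        apply hhigh
        have : q * (s1 + (u + 1)) ≤ q * l := Nat.mul_le_mul_left q hl
        rw [mul_add, mul_add, mul_one] at this
        omega
      · intro l hl hlt
        rw [← hco i (by omega) l]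
        apply hmid
        · have : q * s1 ≤ q * l := Nat.mul_le_mul_left q hl
          omega
        · have : q * (l + 1) ≤ q * (u + 1) := Nat.mul_le_mul_left q hlt
          rw [mul_add, mul_add, mul_one] at this
          omega
    exact (mul_eq_zero.mp h1).resolve_left (pow_ne_zero _ hf0)
  suffices hall : ∀ i < q, A i = 0 by
    have hHz : f ^ s' * P = 0 := by
      rw [hA]
      refine Finset.sum_eq_zero fun j hj => ?_
      rw [hall j (Finset.mem_range.mp hj), map_zero, mul_zero]
    have hP0 : P = 0 := (mul_eq_zero.mp hHz).resolve_left (pow_ne_zero _ hf0)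
    rw [hP0, mul_zero]
  rcases Nat.eq_zero_or_pos s' with hs0 | hs0
  · -- `q ∣ s`
    have hs1odd : Odd s1 := by
      rw [hseq, hs0, zero_add] at hs
      exact (Nat.odd_mul.mp hs).2
    have h1 : f ^ s1 * A (q - 1) = 0 := by
      refine hP s1 hs1u hs1odd _ (dvd_mul_right _ _) ?_ ?_ ?_
      · intro l hl
        rw [← hco (q - 1) (by omega) l]
        apply hhigh
        have : q * (s1 + u) ≤ q * l := Nat.mul_le_mul_left q hl
        rw [mul_add] at this
        omega
      · intro l hl hlt
        rw [← hco (q - 1) (by omega) l]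
        apply hmid
        · have : q * s1 ≤ q * l := Nat.mul_le_mul_left q hl
          omega
        · have : q * (l + 1) ≤ q * u := Nat.mul_le_mul_left q (by omega)
          rw [mul_add, mul_one] at this
          omega
      · intro i j hij
        rw [← hco (q - 1) (by omega) i, ← hco (q - 1) (by omega) j]
        apply hpal
        have : q * (i + j + 1) = q * (s1 + u) := by
          congr 1
        rw [mul_add, mul_add, mul_add, mul_one] at this
        omega
    have h2 : A (q - 1) = 0 := (mul_eq_zero.mp h1).resolve_left (pow_ne_zero _ hf0)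
    intro i hi
    rcases Nat.lt_or_ge i (q - 1) with h3 | h3
    · exact hbig i (by omega) h3
    · rw [show i = q - 1 by omega]
      exact h2
  -- `0 < s' < q`
  have hTd : (f ^ s1 * A (q - 1)).natDegree ≤ s1 + u := by
    rw [natDegree_le_iff_coeff_eq_zero]
    intro l hl
    rw [← hco (q - 1) (by omega) l]
    apply hhigh
    have : q * (s1 + u + 1) ≤ q * l := Nat.mul_le_mul_left q hl
    rw [mul_add, mul_add, mul_one] at this
    omega
  have hTdeg : (A (q - 1)).natDegree ≤ u - s1 := by
    by_cases h1 : A (q - 1) = 0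
    · rw [h1, natDegree_zero]
      exact Nat.zero_le _
    · rw [natDegree_mul (pow_ne_zero _ hf0) h1, natDegree_pow, hfdeg] at hTd
      omega
  have hrefl : f ^ s1 * A (s' - 1) = reflect (s1 + u) (f ^ s1 * A (q - 1)) := by
    ext l
    rw [coeff_reflect]
    by_cases hl : l ≤ s1 + u
    · rw [revAt_le hl, ← hco (s' - 1) (by omega) l, ← hco (q - 1) (by omega) (s1 + u - l)]
      apply hpal
      have : q * l + q * (s1 + u - l) = q * (s1 + u) := by
        rw [← mul_add]
        congr 1
        omega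
      rw [mul_add q s1 u] at this
      omega
    · rw [revAt_eq_self_of_lt (by omega), ← hco (s' - 1) (by omega) l,
        coeff_eq_zero_of_natDegree_lt (lt_of_le_of_lt hTd (by omega))]
      apply hhigh
      have : q * (s1 + u + 1) ≤ q * l := Nat.mul_le_mul_left q (by omega)
      rw [mul_add, mul_add, mul_one] at this
      omega
  have hA0 : A (s' - 1) = reflect (u - s1) (A (q - 1)) := by
    have h1 : reflect (s1 + u) (f ^ s1 * A (q - 1)) =
        f ^ s1 * reflect (u - s1) (A (q - 1)) := by
      rw [show s1 + u = 2 * s1 + (u - s1) by omega, reflect_mul _ _ ?_ hTdeg, hf,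
        reflect_fpow L s1]
      rw [natDegree_pow, hfdeg, mul_comm]
    rw [h1] at hrefl
    exact mul_left_cancel₀ (pow_ne_zero _ hf0) hrefl
  have hXH : X * (f ^ s' * P) =
      ∑ j ∈ range (s' + 1), X ^ j * expand L q (shiftA L q A j) := by
    rw [hA]
    exact shift_sum L q hq0 A s' hs'q hbig
  -- the values at the roots
  have hval : ∀ v : L, v ^ 2 + v + 1 = 0 → ∀ j ≤ s', (shiftA L q A j).eval (v ^ q) =
      ((X - C v) ^ s' : L[X]).coeff j * (A (s' - 1)).eval (v ^ q) := by
    intro v hv j hj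
    have h3 : shiftA L q A s' = A (s' - 1) := by
      simp only [shiftA, if_neg hs0.ne']
    rw [← h3]
    refine hbr v (shiftA L q A) s' hs'q.le ?_ j hj
    rw [← hXH]
    have h1 : X - C v ∣ f := by
      rw [dvd_iff_isRoot]
      rw [hf]
      simpa using hv
    exact Dvd.dvd.mul_left (Dvd.dvd.mul_right (pow_dvd_pow_of_dvd h1 s') P) X
  have hAs : A (q - 1) = 0 := by
    have hc := hrf w hw
    have hc3 : (w ^ q) ^ 3 = 1 := cube_root L _ hc
    have hw3 : w ^ 3 = 1 := cube_root L w hw
    refine hX s1 hs1u (A (q - 1)) hTdeg ?_ (w ^ q) hc ?_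
    · intro l hl hlt
      rw [← hco (q - 1) (by omega) l]
      apply hmid
      · have : q * s1 ≤ q * l := Nat.mul_le_mul_left q hl
        omega
      · have : q * (l + 1) ≤ q * u := Nat.mul_le_mul_left q hlt
        rw [mul_add, mul_one] at this
        omega
    · have h1 := hval w hw 0 (Nat.zero_le _)
      have h0 : shiftA L q A 0 = X * A (q - 1) := by simp only [shiftA, if_true]
      rw [pow_coeff_zero, hA0, h0, eval_mul, eval_X] at h1
      set c := w ^ q with hcdef
      have hcu : c * c ^ 2 = 1 := by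
        rw [← hc3]
        ring
      have h2 : (reflect (u - s1) (A (q - 1))).eval c =
          c ^ (u - s1) * (A (q - 1)).eval (c ^ 2) := by
        exact eval_reflect L c (c ^ 2) hcu (u - s1) (A (q - 1)) hTdeg
      rw [h2] at h1
      have h3 : (c * (A (q - 1)).eval c) ^ 3 =
          ((-w) ^ s' * (c ^ (u - s1) * (A (q - 1)).eval (c ^ 2))) ^ 3 := by rw [h1]
      have h4 : (c ^ (u - s1)) ^ 3 = 1 := by
        rw [← pow_mul, mul_comm, pow_mul, hc3, one_pow]
      have h5 : ((-w) ^ s') ^ 3 = (-1) ^ (s1 + 1) := by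
        rw [← pow_mul, mul_comm, pow_mul, Odd.neg_pow (by decide), hw3]
        have h6 : s' % 2 = (s1 + 1) % 2 := by
          have h7 : (q * s1) % 2 = s1 % 2 := by
            rw [Nat.mul_mod, hqodd, one_mul, Nat.mod_mod]
          omega
        rw [neg_one_pow_eq_pow_mod_two s', neg_one_pow_eq_pow_mod_two (s1 + 1), h6]
      rw [mul_pow, mul_pow, mul_pow, h4, h5, hc3, one_mul, one_mul] at h3
      exact h3
  have hAs' : A (s' - 1) = 0 := by
    rw [hA0, hAs]
    ext l
    rw [coeff_reflect, coeff_zero, coeff_zero]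
  intro i hi
  rcases Nat.lt_or_ge i (s' - 1) with h1 | h1
  · have hz : ∀ v : L, v ^ 2 + v + 1 = 0 → (A i).eval (v ^ q) = 0 := by
      intro v hv
      have h2 := hval v hv (i + 1) (by omega)
      have h3 : shiftA L q A (i + 1) = A i := by
        simp only [shiftA, if_neg (Nat.succ_ne_zero i), Nat.add_sub_cancel]
      rw [h3, hAs', eval_zero, mul_zero] at h2
      exact h2
    have hw2 : (w ^ 2) ^ 2 + w ^ 2 + 1 = 0 := root_sq L w hw
    have h2 := hz w hw
    have h3 := hz (w ^ 2) hw2
    have h4 : (w ^ 2) ^ q = (w ^ q) ^ 2 := by ring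
    rw [h4] at h3 hne
    have h5 : f ∣ A i := f_dvd L (w ^ q) (hrf w hw) hne (A i) h2 h3
    have h6 : f ^ s1 * A i = 0 := by
      refine hW (s1 + 1) (by omega) _ ?_ ?_ ?_
      · rw [pow_succ]
        exact mul_dvd_mul_left _ h5
      · intro l hl
        rw [← hco i (by omega) l]
        apply hhigh
        have : q * (s1 + 1 + (u + 1)) ≤ q * l := Nat.mul_le_mul_left q hl
        rw [mul_add, mul_add, mul_add, mul_one] at this
        omega
      · intro l hl hlt
        rw [← hco i (by omega) l]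
        apply hmid
        · have : q * (s1 + 1) ≤ q * l := Nat.mul_le_mul_left q hl
          rw [mul_add, mul_one] at this
          omega
        · have : q * (l + 1) ≤ q * (u + 1) := Nat.mul_le_mul_left q hlt
          rw [mul_add, mul_add, mul_one] at this
          omega
    exact (mul_eq_zero.mp h6).resolve_left (pow_ne_zero _ hf0)
  rcases Nat.lt_or_ge i s' with h2 | h2
  · rw [show i = s' - 1 by omega]
    exact hAs'
  rcases Nat.lt_or_ge i (q - 1) with h3 | h3
  · exact hbig i h2 h3
  · rw [show i = q - 1 by omega]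
    exact hAs

theorem xcond_mul_minus (L : Type) [Field L] (p a : ℕ) [hp : Fact p.Prime] [CharP L p]
    (hp2 : p ≠ 2) (hp3 : p ≠ 3) (t s : ℕ) (hst : s + 1 ≤ t * p ^ a)
    (hW : ∀ i ≤ t, Win L t i) (hX : ∀ i ≤ t - 1, XCond L (t - 1) i) :
    XCond L (t * p ^ a - 1) s := by
  intro B hBd hmid c hc hcube
  have hq0 : 0 < p ^ a := pow_pos hp.out.pos a
  have hqodd : p ^ a % 2 = 1 := Nat.odd_iff.mp ((hp.out.odd_of_ne_two hp2).pow)
  have hc2 : (c ^ 2) ^ 2 + c ^ 2 + 1 = 0 := root_sq L c hc
  have hc3 : c ^ 3 = 1 := cube_root L c hc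
  have hne := ne_frob L p a hp3 c hc
  have hbr := block_root' L p a
  have hbv := block_value L p a
  have hfr := frob_f L p a
  have hrf := root_frob L p a
  generalize p ^ a = q at hst hBd hmid hq0 hqodd hne hbr hbv hfr hrf
  set f : L[X] := X ^ 2 + X + 1 with hf
  have hfdeg : f.natDegree = 2 := by rw [hf]; compute_degree!
  have hf0 : f ≠ 0 := by
    intro h1
    rw [h1] at hfdeg
    simp at hfdeg
  set s1 := s / q with hs1
  set s' := s % q with hs'
  have hs'q : s' < q := Nat.mod_lt s hq0
  have hseq : s = s' + q * s1 := (Nat.mod_add_div s q).symm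
  have hs1t : s1 < t := by
    have h1 : s < q * t := by
      rw [mul_comm]
      omega
    exact Nat.div_lt_of_lt_mul h1
  obtain ⟨u, rfl⟩ : ∃ u, t = u + 1 :=
    Nat.exists_eq_succ_of_ne_zero (Nat.ne_zero_of_lt hs1t)
  rw [Nat.add_sub_cancel] at hX
  have hNt : (u + 1) * q = q * u + q := by ring
  have hs1u : s1 ≤ u := by omega
  rw [hNt] at hst hBd hmid
  have hhigh : ∀ n, s + (q * u + q) ≤ n → (f ^ s * B).coeff n = 0 := by
    intro n hn
    apply coeff_eq_zero_of_natDegree_lt
    refine lt_of_le_of_lt natDegree_mul_le ?_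
    rw [natDegree_pow, hfdeg]
    omega
  obtain ⟨A, hA⟩ := exists_block hq0 (f ^ s' * B)
  have hG : f ^ s * B = ∑ j ∈ range q, X ^ j * expand L q (f ^ s1 * A j) := by
    have h1 : f ^ s * B = expand L q (f ^ s1) * (f ^ s' * B) := by
      rw [hseq, pow_add, pow_mul, hfr, map_pow]
      ring
    rw [h1, hA, Finset.mul_sum]
    refine Finset.sum_congr rfl fun j _ => ?_
    rw [map_mul]
    ring
  have hco : ∀ i < q, ∀ l, (f ^ s * B).coeff (i + q * l) = (f ^ s1 * A i).coeff l := by
    intro i hi l
    rw [hG, coeff_block hq0 _ _ _ hi]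
  -- the blocks with `s' ≤ i < q - 1`
  have hbig : ∀ i, s' ≤ i → i < q - 1 → A i = 0 := by
    intro i hi hiq
    have h1 : f ^ s1 * A i = 0 := by
      refine hW s1 hs1t.le _ (dvd_mul_right _ _) ?_ ?_
      · intro l hl
        rw [← hco i (by omega) l]
        apply hhigh
        have : q * (s1 + (u + 1)) ≤ q * l := Nat.mul_le_mul_left q hl
        rw [mul_add, mul_add, mul_one] at this
        omega
      · intro l hl hlt
        rw [← hco i (by omega) l]
        apply hmid
        · have : q * s1 ≤ q * l := Nat.mul_le_mul_left q hl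
          omega
        · have : q * (l + 1) ≤ q * (u + 1) := Nat.mul_le_mul_left q hlt
          rw [mul_add, mul_add, mul_one] at this
          omega
    exact (mul_eq_zero.mp h1).resolve_left (pow_ne_zero _ hf0)
  have hXH : X * (f ^ s' * B) =
      ∑ j ∈ range (s' + 1), X ^ j * expand L q (shiftA L q A j) := by
    rw [hA]
    exact shift_sum L q hq0 A s' hs'q hbig
  have hTd : (f ^ s1 * A (q - 1)).natDegree ≤ s1 + u := by
    rw [natDegree_le_iff_coeff_eq_zero]
    intro l hl
    rw [← hco (q - 1) (by omega) l]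
    apply hhigh
    have : q * (s1 + u + 1) ≤ q * l := Nat.mul_le_mul_left q hl
    rw [mul_add, mul_add, mul_one] at this
    omega
  have hTdeg : (A (q - 1)).natDegree ≤ u - s1 := by
    by_cases h1 : A (q - 1) = 0
    · rw [h1, natDegree_zero]
      exact Nat.zero_le _
    · rw [natDegree_mul (pow_ne_zero _ hf0) h1, natDegree_pow, hfdeg] at hTd
      omega
  -- the values at the roots
  have hfv : ∀ v : L, v ^ 2 + v + 1 = 0 → f = (X - C v) * (X - C (v ^ 2)) := by
    intro v hv
    have hv3 := cube_root L v hv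
    have e1 : (C v * C (v ^ 2) : L[X]) = 1 := by
      rw [← C_mul, ← pow_succ', hv3, C_1]
    have e2 : (C v + C (v ^ 2) : L[X]) = -1 := by
      rw [← C_add]
      have : v + v ^ 2 = -1 := by linear_combination hv
      rw [this]
      simp
    rw [hf]
    linear_combination (-1 : L[X]) * e1 + X * e2
  have hdv : ∀ v : L, v ^ 2 + v + 1 = 0 → (X - C v) ^ s' ∣
      ∑ j ∈ range (s' + 1), X ^ j * expand L q (shiftA L q A j) := by
    intro v hv
    rw [← hXH, hfv v hv, mul_pow]
    exact Dvd.dvd.mul_left (by rw [mul_assoc]; exact dvd_mul_right _ _) X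
  have h0 : shiftA L q A 0 = X * A (q - 1) := by simp only [shiftA, if_true]
  have hval : ∀ v : L, v ^ 2 + v + 1 = 0 →
      v ^ q * (A (q - 1)).eval (v ^ q) = (-v) ^ s' * (v * ((v - v ^ 2) ^ s' * B.eval v)) := by
    intro v hv
    have h1 : (X - C v) ^ s' * (X * ((X - C (v ^ 2)) ^ s' * B)) =
        ∑ j ∈ range (s' + 1), X ^ j * expand L q (shiftA L q A j) := by
      rw [← hXH, hfv v hv, mul_pow]
      ring
    have h2 := hbv v (shiftA L q A) s' hs'q _ h1
    have h3 := hbr v (shiftA L q A) s' hs'q.le (hdv v hv) 0 (Nat.zero_le _)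
    rw [← h2, h0, eval_mul, eval_X, pow_coeff_zero] at h3
    rw [h3, eval_mul, eval_mul, eval_X, eval_pow, eval_sub, eval_X, eval_C]
  have hAs : A (q - 1) = 0 := by
    have e1 := hval c hc
    have e2 := hval (c ^ 2) hc2
    have hce := hrf c hc
    have he3 : (c ^ q) ^ 3 = 1 := cube_root L _ hce
    refine hX s1 hs1u (A (q - 1)) hTdeg ?_ (c ^ q) hce ?_
    · intro l hl hlt
      rw [← hco (q - 1) (by omega) l]
      apply hmid
      · have : q * s1 ≤ q * l := Nat.mul_le_mul_left q hl
        omega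
      · have : q * (l + 1) ≤ q * u := Nat.mul_le_mul_left q hlt
        rw [mul_add, mul_one] at this
        omega
    · have h4 : (c ^ 2) ^ q = (c ^ q) ^ 2 := by ring
      rw [h4] at e2
      have h5 : (c ^ 2 - (c ^ 2) ^ 2) = -(c - c ^ 2) := by
        have : (c ^ 2) ^ 2 = c := by linear_combination c * hc3
        rw [this]
        ring
      rw [h5] at e2
      generalize (A (q - 1)).eval ((c ^ q) ^ 2) = y2 at e2 ⊢
      generalize (A (q - 1)).eval (c ^ q) = y1 at e1 ⊢
      generalize c ^ q = e at e1 e2 he3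
      have k1 : y1 ^ 3 = (-1) ^ s' * ((c - c ^ 2) ^ s' * B.eval c) ^ 3 := by
        have h6 : (e * y1) ^ 3 = ((-c) ^ s' * (c * ((c - c ^ 2) ^ s' * B.eval c))) ^ 3 := by
          rw [e1]
        have h7 : ((-c) ^ s') ^ 3 = (-1) ^ s' := by
          rw [← pow_mul, mul_comm, pow_mul, Odd.neg_pow (by decide), hc3]
        rw [mul_pow, he3, one_mul, mul_pow, h7, mul_pow c, hc3, one_mul] at h6
        exact h6
      have k2 : y2 ^ 3 = (-1) ^ s' * ((-(c - c ^ 2)) ^ s' * B.eval (c ^ 2)) ^ 3 := by
        have h6 : (e ^ 2 * y2) ^ 3 =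
            ((-c ^ 2) ^ s' * (c ^ 2 * ((-(c - c ^ 2)) ^ s' * B.eval (c ^ 2)))) ^ 3 := by
          rw [e2]
        have h8 : (c ^ 2) ^ 3 = 1 := by
          rw [← pow_mul, mul_comm, pow_mul, hc3, one_pow]
        have h9 : (e ^ 2) ^ 3 = 1 := by
          rw [← pow_mul, mul_comm, pow_mul, he3, one_pow]
        have h7 : ((-c ^ 2) ^ s') ^ 3 = (-1) ^ s' := by
          rw [← pow_mul, mul_comm, pow_mul, Odd.neg_pow (by decide), h8]
        rw [mul_pow, h9, one_mul, mul_pow, h7, mul_pow (c ^ 2), h8, one_mul] at h6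
        exact h6
      rw [k1, k2, mul_pow, mul_pow, hcube, neg_pow (c - c ^ 2) s']
      have h6 : (-1 : L) ^ (s + 1) = (-1) ^ (s1 + 1) * ((-1) ^ s') ^ 3 := by
        rw [← pow_mul, ← pow_add, neg_one_pow_eq_pow_mod_two (s + 1),
          neg_one_pow_eq_pow_mod_two (s1 + 1 + s' * 3)]
        congr 1
        have h7 : (q * s1) % 2 = s1 % 2 := by
          rw [Nat.mul_mod, hqodd, one_mul, Nat.mod_mod]
        omega
      rw [h6]
      ring
  have hz : ∀ v : L, v ^ 2 + v + 1 = 0 → ∀ i < s', (A i).eval (v ^ q) = 0 := by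
    intro v hv i hi
    have h1 := hbr v (shiftA L q A) s' hs'q.le (hdv v hv)
    have hv0 : v ≠ 0 := by
      intro h
      rw [h] at hv
      simp at hv
    have h2 := h1 0 (Nat.zero_le _)
    rw [h0, hAs, mul_zero, eval_zero, pow_coeff_zero] at h2
    have h3 : (shiftA L q A s').eval (v ^ q) = 0 := by
      refine (mul_eq_zero.mp h2.symm).resolve_left (pow_ne_zero _ ?_)
      simpa using hv0
    have h4 := h1 (i + 1) hi
    have h5 : shiftA L q A (i + 1) = A i := by
      simp only [shiftA, if_neg (Nat.succ_ne_zero i), Nat.add_sub_cancel]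
    rw [h3, mul_zero, h5] at h4
    exact h4
  have hall : ∀ i < q, A i = 0 := by
    intro i hiq
    rcases Nat.lt_or_ge i s' with h1 | h1
    · have h2 := hz c hc i h1
      have h3 := hz (c ^ 2) hc2 i h1
      have h4 : (c ^ 2) ^ q = (c ^ q) ^ 2 := by ring
      rw [h4] at h3 hne
      have h5 : f ∣ A i := f_dvd L (c ^ q) (hrf c hc) hne (A i) h2 h3
      have h6 : f ^ s1 * A i = 0 := by
        refine hW (s1 + 1) (by omega) _ ?_ ?_ ?_
        · rw [pow_succ]
          exact mul_dvd_mul_left _ h5
        · intro l hl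
          rw [← hco i (by omega) l]
          apply hhigh
          have : q * (s1 + 1 + (u + 1)) ≤ q * l := Nat.mul_le_mul_left q hl
          rw [mul_add, mul_add, mul_add, mul_one] at this
          omega
        · intro l hl hlt
          rw [← hco i (by omega) l]
          apply hmid
          · have : q * (s1 + 1) ≤ q * l := Nat.mul_le_mul_left q hl
            rw [mul_add, mul_one] at this
            omega
          · have : q * (l + 1) ≤ q * (u + 1) := Nat.mul_le_mul_left q hlt
            rw [mul_add, mul_add, mul_one] at this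
            omega
      exact (mul_eq_zero.mp h6).resolve_left (pow_ne_zero _ hf0)
    rcases Nat.lt_or_ge i (q - 1) with h2 | h2
    · exact hbig i h1 h2
    · rw [show i = q - 1 by omega]
      exact hAs
  have hHz : f ^ s' * B = 0 := by
    rw [hA]
    refine Finset.sum_eq_zero fun j hj => ?_
    rw [hall j (Finset.mem_range.mp hj), map_zero, mul_zero]
  exact (mul_eq_zero.mp hHz).resolve_left (pow_ne_zero _ hf0)

end Pool.Agent.Lib.MP_c1a8e2_al
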