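import Pool.Agent.Lib.MP_c1a8e2_al.h18.GoodFour
import Pool.Agent.Lib.MP_c1a8e2_al.h18.Minus

/-!
# Two variables: products `t` of prime powers and `m + 1 = t - 1`
-/

set_option autoImplicit false

open Polynomial Finset

namespace Pool.Agent.Lib.MP_c1a8e2_al

/-- The conditions of `pal_block_minus` and `xcond_mul_minus` over the field `K`. -/
def CondM (K : Type) [Field K] (t : ℕ) : Prop :=
  (∀ i ≤ t, Win K t i) ∧ (∀ i ≤ t - 1, Odd i → PalWin K (t - 1) i) ∧
    (∀ i ≤ t - 1, XCond K (t - 1) i)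

/-- The conditions hold over some field with a root of `x ^ 2 + x + 1`. -/
def GoodM (t : ℕ) : Prop :=
  ∃ (K : Type) (_ : Field K) (w : K), w ^ 2 + w + 1 = 0 ∧ CondM K t

/-- The conditions pass to almost all characteristics. -/
theorem condM_spread (t : ℕ) (h : GoodM t) :
    ∃ p0 : ℕ, ∀ (p : ℕ) (L : Type) [Field L] [CharP L p], p.Prime → p0 ≤ p → CondM L t := by
  obtain ⟨K, _, w, hw, hW, hP, hX⟩ := h
  have e1 : ∀ i, ∃ p0 : ℕ, i ≤ t →
      ∀ (p : ℕ) (L : Type) [Field L] [CharP L p], p.Prime → p0 ≤ p → Win L t i := by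
    intro i
    by_cases hi : i ≤ t
    · obtain ⟨p0, h⟩ := win_spread K t i hi (hW i hi)
      exact ⟨p0, fun _ => h⟩
    · exact ⟨0, fun h => absurd h hi⟩
  have e2 : ∀ i, ∃ p0 : ℕ, i ≤ t - 1 → Odd i →
      ∀ (p : ℕ) (L : Type) [Field L] [CharP L p], p.Prime → p0 ≤ p → PalWin L (t - 1) i := by
    intro i
    by_cases hi : i ≤ t - 1 ∧ Odd i
    · obtain ⟨p0, h⟩ := palWin_spread K (t - 1) i (hP i hi.1 hi.2)
      exact ⟨p0, fun _ _ => h⟩
    · exact ⟨0, fun h h' => absurd ⟨h, h'⟩ hi⟩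
  have e3 : ∀ i, ∃ p0 : ℕ, i ≤ t - 1 →
      ∀ (p : ℕ) (L : Type) [Field L] [CharP L p], p.Prime → p0 ≤ p → XCond L (t - 1) i := by
    intro i
    by_cases hi : i ≤ t - 1
    · obtain ⟨p0, h⟩ := xcond_spread K w hw (t - 1) i hi (hX i hi)
      exact ⟨p0, fun _ => h⟩
    · exact ⟨0, fun h => absurd h hi⟩
  choose f1 h1 using e1
  choose f2 h2 using e2
  choose f3 h3 using e3
  refine ⟨∑ i ∈ range (t + 1), (f1 i + f2 i + f3 i), fun p L _ _ hp hpp => ?_⟩
  have hle : ∀ i ≤ t, f1 i + f2 i + f3 i ≤ ∑ i ∈ range (t + 1), (f1 i + f2 i + f3 i) :=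
    fun i hi => Finset.single_le_sum (f := fun i => f1 i + f2 i + f3 i)
      (fun _ _ => Nat.zero_le _) (Finset.mem_range.mpr (by omega))
  refine ⟨?_, ?_, ?_⟩
  · intro i hi
    have := hle i hi
    exact h1 i hi p L hp (by omega)
  · intro i hi hodd
    have := hle i (by omega)
    exact h2 i hi hodd p L hp (by omega)
  · intro i hi
    have := hle i (by omega)
    exact h3 i hi p L hp (by omega)

/-- In characteristic `p` the conditions pass from `t` to `t * p ^ a`. -/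
theorem condM_mul (L : Type) [Field L] (p a : ℕ) [hp : Fact p.Prime] [CharP L p] (hp2 : p ≠ 2)
    (hp3 : p ≠ 3) (w : L) (hw : w ^ 2 + w + 1 = 0) (t : ℕ) (ht : 1 ≤ t) (h : CondM L t) :
    CondM L (t * p ^ a) := by
  have hq : 0 < p ^ a := pow_pos hp.out.pos a
  have htq : 1 ≤ t * p ^ a := Nat.mul_pos ht hq
  obtain ⟨hW, hP, hX⟩ := h
  refine ⟨fun i hi => ?_, fun i hi hodd => ?_, fun i hi => ?_⟩
  · refine win_mul L p a hp3 w hw t i hi (hW _ ?_) (fun hm => hW _ ?_)
    · exact Nat.div_le_of_le_mul (by rwa [mul_comm])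
    · have h1 : i / p ^ a < t := by
        rcases Nat.lt_or_ge (i / p ^ a) t with h2 | h2
        · exact h2
        · exfalso
          have h3 : t * p ^ a ≤ i / p ^ a * p ^ a := Nat.mul_le_mul_right _ h2
          have h4 := Nat.div_add_mod i (p ^ a)
          have h5 : 0 < i % p ^ a := Nat.pos_of_ne_zero hm
          rw [mul_comm (p ^ a) (i / p ^ a)] at h4
          omega
      omega
  · rcases Nat.lt_or_ge i (t * p ^ a - 1) with h1 | h1
    · exact pal_block_minus L p a hp2 hp3 w hw t i hodd (by omega) hW hP hX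
    · -- `i` is the whole length
      have h2 : i = t * p ^ a - 1 := le_antisymm hi h1
      rw [← h2]
      exact (win_self L i).pal
  · exact xcond_mul_minus L p a hp2 hp3 t i (by omega) hW hX

theorem goodM_mul (t : ℕ) (ht : 1 ≤ t) (h : GoodM t) :
    ∃ p0 : ℕ, ∀ p a : ℕ, p.Prime → p0 ≤ p → GoodM (t * p ^ a) := by
  obtain ⟨p0, h0⟩ := condM_spread t h
  refine ⟨p0 + 5, fun p a hp hpp => ?_⟩
  have : Fact p.Prime := ⟨hp⟩
  obtain ⟨w, hw⟩ := exists_root_f (AlgebraicClosure (ZMod p))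
  exact ⟨AlgebraicClosure (ZMod p), inferInstance, w, hw,
    condM_mul _ p a (by omega) (by omega) w hw t ht (h0 p _ hp (by omega))⟩

theorem goodM_nonsing (t : ℕ) (ht : 2 ≤ t) (h : GoodM t) : Nonsing 2 (t - 2) := by
  obtain ⟨K, _, w, hw, hW, hP, hX⟩ := h
  refine nonsing_of_odd (t - 2) fun s hs hst => ⟨K, inferInstance, w, hw, ?_⟩
  rw [show t - 2 + 1 = t - 1 by omega]
  exact hP s (by omega) hs

/-- `i = t`: constants -/
theorem xcond_top (L : Type) [Field L] (h2 : (2 : L) ≠ 0) (t : ℕ) (ht : Even t) :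
    XCond L t t := by
  intro B hB _ c hc hcube
  rw [Nat.sub_self, Nat.le_zero, natDegree_eq_zero] at hB
  obtain ⟨k, rfl⟩ := hB
  rw [eval_C, eval_C, Odd.neg_one_pow ht.add_one] at hcube
  have h3 : 2 * k ^ 3 = 0 := by linear_combination hcube
  have h4 : k = 0 :=
    pow_eq_zero_iff (n := 3) (by norm_num) |>.mp ((mul_eq_zero.mp h3).resolve_left h2)
  rw [h4, C_0]

theorem condM_one (L : Type) [Field L] (h2 : (2 : L) ≠ 0) : CondM L 1 := by
  refine ⟨fun i hi => ?_, fun i hi hodd => ?_, fun i hi => ?_⟩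
  · interval_cases i
    · exact win_zero L 1
    · exact win_self L 1
  · have h1 : i = 0 := by omega
    subst h1
    exact absurd hodd (by decide)
  · have h1 : i = 0 := by omega
    subst h1
    exact xcond_top L h2 0 (by decide)

theorem condM_five (L : Type) [Field L] (p : ℕ) [hp : Fact p.Prime] [CharP L p] (hp2 : p ≠ 2)
    (hp3 : p ≠ 3) (hp5 : p ≠ 5) (hp7 : p ≠ 7) (hp13 : p ≠ 13) (hp19 : p ≠ 19) :
    CondM L 5 := by
  obtain ⟨hW, -, hX⟩ := condT_four L p hp2 hp3 hp5 hp7 hp13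
  refine ⟨win_five L p hp2 hp13 hp19, fun i hi _ => (hW i hi).pal, fun i hi => ?_⟩
  rcases Nat.lt_or_ge i 4 with h1 | h1
  · exact hX i h1
  · have h2 : i = 4 := by omega
    subst h2
    exact xcond_top L (two_ne L p hp2) 4 (by decide)

theorem goodM_prime_power (r b : ℕ) (hr : r.Prime) (hr5 : 5 ≤ r) : GoodM (r ^ b) := by
  have : Fact r.Prime := ⟨hr⟩
  obtain ⟨w, hw⟩ := exists_root_f (AlgebraicClosure (ZMod r))
  have h := condM_mul (AlgebraicClosure (ZMod r)) r b (by omega) (by omega) w hw 1 le_rfl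
    (condM_one _ (two_ne _ r (by omega)))
  rw [one_mul] at h
  exact ⟨AlgebraicClosure (ZMod r), inferInstance, w, hw, h⟩

theorem goodM_five_mul (r b : ℕ) (hr : r.Prime) (h2 : r ≠ 2) (h3 : r ≠ 3) (h5 : r ≠ 5)
    (h7 : r ≠ 7) (h13 : r ≠ 13) (h19 : r ≠ 19) : GoodM (5 * r ^ b) := by
  have : Fact r.Prime := ⟨hr⟩
  obtain ⟨w, hw⟩ := exists_root_f (AlgebraicClosure (ZMod r))
  exact ⟨AlgebraicClosure (ZMod r), inferInstance, w, hw,
    condM_mul _ r b h2 h3 w hw 5 (by norm_num) (condM_five _ r h2 h3 h5 h7 h13 h19)⟩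

end Pool.Agent.Lib.MP_c1a8e2_al
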