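import Pool.Agent.Lib.MP_c1a8e2_al.h18.XDefs

/-!
# Two variables: `PalWin` passes from one field to almost all characteristics
-/

set_option autoImplicit false

open Polynomial Finset

namespace Pool.Agent.Lib.MP_c1a8e2_al

/-- If an integer system has only the trivial solution over one field then also over the fields
of almost all characteristics. -/
theorem system_spread (K : Type) [Field K] {ι : Type} [Fintype ι] {n : ℕ}
    (M : Matrix ι (Fin n) ℤ)
    (h : ∀ v : Fin n → K, (∀ a, ∑ j, ((M a j : ℤ) : K) * v j = 0) → v = 0) :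
    ∃ p0 : ℕ, ∀ (p : ℕ) (L : Type) [Field L] [CharP L p], p.Prime → p0 ≤ p →
      ∀ v : Fin n → L, (∀ a, ∑ j, ((M a j : ℤ) : L) * v j = 0) → v = 0 := by
  classical
  have hdet : (M.transpose * M).det ≠ 0 := by
    intro h0
    obtain ⟨v, hv, hv0⟩ := Matrix.exists_mulVec_eq_zero_iff.mpr h0
    have hMv : M.mulVec v = 0 := by
      have h1 : dotProduct (M.mulVec v) (M.mulVec v) = 0 := by
        rw [← Matrix.mulVec_mulVec] at hv0
        have h2 : dotProduct v (M.transpose.mulVec (M.mulVec v)) =
            dotProduct (M.mulVec v) (M.mulVec v) := by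
          rw [Matrix.dotProduct_mulVec, Matrix.vecMul_transpose]
        rw [← h2, hv0, dotProduct_zero]
      exact dotProduct_self_eq_zero.mp h1
    obtain ⟨g, hg, hg1⟩ := Finset.extract_gcd v (s := Finset.univ) (by
      by_contra hne
      rw [Finset.not_nonempty_iff_eq_empty] at hne
      apply hv
      funext j
      exact absurd (Finset.mem_univ j) (by rw [hne]; simp))
    have hd : Finset.univ.gcd v ≠ 0 := by
      intro h2
      rw [Finset.gcd_eq_zero_iff] at h2
      exact hv (funext fun j => h2 j (Finset.mem_univ j))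
    have hMg : ∀ a, ∑ j, M a j * g j = 0 := by
      intro a
      have h2 := congrFun hMv a
      simp only [Matrix.mulVec, dotProduct, Pi.zero_apply] at h2
      have h3 : ∑ j, M a j * v j = Finset.univ.gcd v * ∑ j, M a j * g j := by
        rw [Finset.mul_sum]
        refine Finset.sum_congr rfl fun j hj => ?_
        rw [hg j hj]
        ring
      rw [h3] at h2
      exact (mul_eq_zero.mp h2).resolve_left hd
    have h4 := h (fun j => ((g j : ℤ) : K)) (by
      intro a
      have h5 := congrArg (fun x : ℤ => (x : K)) (hMg a)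
      push_cast at h5
      exact h5)
    have h6 : ∀ j, ((ringChar K : ℕ) : ℤ) ∣ g j := by
      intro j
      have h7 := congrFun h4 j
      simp only [Pi.zero_apply] at h7
      rwa [CharP.intCast_eq_zero_iff K (ringChar K)] at h7
    have h8 : ((ringChar K : ℕ) : ℤ) ∣ 1 := by
      rw [← hg1]
      exact Finset.dvd_gcd fun j _ => h6 j
    have h9 : ringChar K = 1 := by
      have := Int.natCast_dvd.mp h8
      simpa using this
    exact CharP.ringChar_ne_one h9
  refine ⟨(M.transpose * M).det.natAbs + 1, fun p L _ _ _ hp v hv => ?_⟩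
  by_contra hne
  have h1 : ((Int.castRingHom L).mapMatrix (M.transpose * M)).det = 0 := by
    apply Matrix.exists_mulVec_eq_zero_iff.mp
    refine ⟨v, hne, ?_⟩
    have h2 : ((Int.castRingHom L).mapMatrix (M.transpose * M)) =
        (M.map (Int.castRingHom L)).transpose * (M.map (Int.castRingHom L)) := by
      rw [RingHom.mapMatrix_apply, Matrix.map_mul, Matrix.transpose_map]
    rw [h2, ← Matrix.mulVec_mulVec]
    have h3 : (M.map (Int.castRingHom L)).mulVec v = 0 := by
      funext a
      exact hv a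
    rw [h3, Matrix.mulVec_zero]
  rw [← RingHom.map_det] at h1
  have h2 : (((M.transpose * M).det : ℤ) : L) = 0 := h1
  rw [CharP.intCast_eq_zero_iff L p] at h2
  have h5 := Nat.le_of_dvd (Int.natAbs_pos.mpr hdet) (Int.natCast_dvd.mp h2)
  omega

/-- coefficients of `f ^ s X ^ j` -/
theorem fX_map (L : Type) [Field L] (s j n : ℕ) :
    ((X ^ 2 + X + 1 : L[X]) ^ s * X ^ j).coeff n =
      ((((X ^ 2 + X + 1 : ℤ[X]) ^ s * X ^ j).coeff n : ℤ) : L) := by
  rw [coeff_mul_X_pow', coeff_mul_X_pow']
  split_ifs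
  · exact f_map L s _
  · simp

theorem coeff_f_ofVec (L : Type) [Field L] (s m : ℕ) (v : Fin m → L) (n : ℕ) :
    ((X ^ 2 + X + 1) ^ s * ofVec L m v).coeff n =
      ∑ j : Fin m, ((((X ^ 2 + X + 1 : ℤ[X]) ^ s * X ^ (j : ℕ)).coeff n : ℤ) : L) * v j := by
  rw [ofVec, Finset.mul_sum, Polynomial.finsetSum_coeff]
  refine Finset.sum_congr rfl fun b _ => ?_
  have h1 : (X ^ 2 + X + 1 : L[X]) ^ s * (C (v b) * X ^ (b : ℕ)) =
      C (v b) * ((X ^ 2 + X + 1) ^ s * X ^ (b : ℕ)) := by ring
  rw [h1, coeff_C_mul, fX_map, mul_comm]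

/-- The integer system of `PalWin`. -/
noncomputable def palMat (N s : ℕ) : Matrix (Fin (s + N) ⊕ Fin (s + N)) (Fin (N - s)) ℤ :=
  fun a j => Sum.elim
    (fun l : Fin (s + N) => if s ≤ (l : ℕ) ∧ (l : ℕ) < N then
      ((X ^ 2 + X + 1 : ℤ[X]) ^ s * X ^ (j : ℕ)).coeff l else 0)
    (fun l : Fin (s + N) => ((X ^ 2 + X + 1 : ℤ[X]) ^ s * X ^ (j : ℕ)).coeff l -
      ((X ^ 2 + X + 1 : ℤ[X]) ^ s * X ^ (j : ℕ)).coeff (s + N - 1 - l)) a

theorem palWin_iff (L : Type) [Field L] (N s : ℕ) :
    PalWin L N s ↔ ∀ v : Fin (N - s) → L,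
      (∀ a, ∑ j, ((palMat N s a j : ℤ) : L) * v j = 0) → v = 0 := by
  have hfdeg : (X ^ 2 + X + 1 : L[X]).natDegree = 2 := by compute_degree!
  have hf0 : (X ^ 2 + X + 1 : L[X]) ≠ 0 := by
    intro h1
    rw [h1] at hfdeg
    simp at hfdeg
  have key1 : ∀ (v : Fin (N - s) → L) (l : Fin (s + N)),
      ∑ j, ((palMat N s (Sum.inl l) j : ℤ) : L) * v j =
        if s ≤ (l : ℕ) ∧ (l : ℕ) < N then
          ((X ^ 2 + X + 1) ^ s * ofVec L (N - s) v).coeff l else 0 := by
    intro v l
    simp only [palMat, Sum.elim_inl]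
    split_ifs with h
    · rw [coeff_f_ofVec]
    · simp
  have key2 : ∀ (v : Fin (N - s) → L) (l : Fin (s + N)),
      ∑ j, ((palMat N s (Sum.inr l) j : ℤ) : L) * v j =
          ((X ^ 2 + X + 1) ^ s * ofVec L (N - s) v).coeff l -
          ((X ^ 2 + X + 1) ^ s * ofVec L (N - s) v).coeff (s + N - 1 - l) := by
    intro v l
    simp only [palMat, Sum.elim_inr]
    rw [coeff_f_ofVec, coeff_f_ofVec, ← Finset.sum_sub_distrib]
    refine Finset.sum_congr rfl fun j _ => ?_
    push_cast
    ring
  constructor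
  · intro h v hv
    have hV : (X ^ 2 + X + 1) ^ s * ofVec L (N - s) v = 0 := by
      refine h _ (dvd_mul_right _ _) ?_ ?_ ?_
      · intro n hn
        by_cases hNs : N - s = 0
        · have : ofVec L (N - s) v = 0 := by
            ext b
            rw [ofVec_coeff, dif_neg (by omega), coeff_zero]
          rw [this, mul_zero, coeff_zero]
        · apply coeff_eq_zero_of_natDegree_lt
          have hVd : (ofVec L (N - s) v).natDegree ≤ N - s - 1 := by
            rw [natDegree_le_iff_coeff_eq_zero]
            intro n hn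
            rw [ofVec_coeff, dif_neg (by omega)]
          refine lt_of_le_of_lt (natDegree_mul_le) ?_
          rw [natDegree_pow, hfdeg]
          omega
      · intro n hn hnN
        have h1 := hv (Sum.inl ⟨n, by omega⟩)
        rw [key1, if_pos ⟨hn, hnN⟩] at h1
        exact h1
      · intro i j hij
        have h1 := hv (Sum.inr ⟨i, by omega⟩)
        rw [key2] at h1
        simp only at h1
        rw [show s + N - 1 - i = j by omega] at h1
        exact sub_eq_zero.mp h1
    have h2 := (mul_eq_zero.mp hV).resolve_left (pow_ne_zero _ hf0)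
    funext b
    have h3 := congrArg (fun g : L[X] => g.coeff b) h2
    simp only [ofVec_coeff, coeff_zero] at h3
    rw [dif_pos b.2] at h3
    exact h3
  · intro h G hdvd hhigh hmid hpal
    obtain ⟨P, rfl⟩ := hdvd
    by_cases hP0 : P = 0
    · rw [hP0, mul_zero]
    exfalso
    have hdeg : P.natDegree < N - s := by
      have h1 : ((X ^ 2 + X + 1 : L[X]) ^ s * P).natDegree = s * 2 + P.natDegree := by
        rw [natDegree_mul (pow_ne_zero s hf0) hP0, natDegree_pow, hfdeg]
      by_contra hc
      have h2 := hhigh _ (show s + N ≤ ((X ^ 2 + X + 1 : L[X]) ^ s * P).natDegree by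
        rw [h1]; omega)
      rw [coeff_natDegree, leadingCoeff_eq_zero] at h2
      exact (mul_ne_zero (pow_ne_zero s hf0) hP0) h2
    have hPv : P = ofVec L (N - s) (fun b => P.coeff b) := by
      ext n
      rw [ofVec_coeff]
      by_cases hn : n < N - s
      · rw [dif_pos hn]
      · rw [dif_neg hn]
        exact coeff_eq_zero_of_natDegree_lt (by omega)
    have h1 := h (fun b => P.coeff b) (by
      intro a
      rcases a with l | l
      · rw [key1, ← hPv]
        split_ifs with hl
        · exact hmid _ hl.1 hl.2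
        · rfl
      · rw [key2, ← hPv]
        have := l.2
        rw [hpal l (s + N - 1 - l) (by omega), sub_self])
    apply hP0
    rw [hPv, h1]
    ext n
    rw [ofVec_coeff]
    split_ifs <;> simp

theorem palWin_spread (K : Type) [Field K] (N s : ℕ) (h : PalWin K N s) :
    ∃ p0 : ℕ, ∀ (p : ℕ) (L : Type) [Field L] [CharP L p], p.Prime → p0 ≤ p → PalWin L N s := by
  obtain ⟨p0, h0⟩ := system_spread K (palMat N s) ((palWin_iff K N s).mp h)
  exact ⟨p0, fun p L _ _ hp hpp => (palWin_iff L N s).mpr (h0 p L hp hpp)⟩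

end Pool.Agent.Lib.MP_c1a8e2_al
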