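import Pool.Agent.Lib.MP_c1a8e2_al.h31.Near2
import Pool.Agent.Lib.MP_c1a8e2_al.h30.Final

/-!
# Two variables: characteristic three

In characteristic `3` we have `X ^ 2 + X + 1 = (X - 1) ^ 2`. If `2 t ≡ ± 1` modulo `q = 3 ^ a`,
then `X ^ (2 t) ≡ X ^ (± 1)` modulo `(X - 1) ^ q`, so `X ^ t` is a square root of `X ^ (± 1)`
there, and a square root of `X` has no Padé approximant of too high order, because
`A ^ 2 = X B ^ 2` is impossible for nonzero polynomials.
-/

set_option autoImplicit false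

open Polynomial Finset

namespace Pool.Agent.Lib.MP_c1a8e2_al

section CharThree

variable {L : Type} [Field L]

theorem f_three (h3 : (3 : L) = 0) : (X ^ 2 + X + 1 : L[X]) = (X - 1) ^ 2 := by
  have h : (3 : L[X]) = 0 := by
    have h4 : (3 : L[X]) = C (3 : L) := (map_ofNat C 3).symm
    rw [h4, h3, C_0]
  linear_combination X * h

/-- `A ^ 2 = X B ^ 2` only for `A = B = 0`. -/
theorem sq_eq_X_mul_sq (A B : L[X]) (h : A ^ 2 = X * B ^ 2) : A = 0 ∧ B = 0 := by
  by_cases hB : B = 0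
  · subst hB
    refine ⟨?_, rfl⟩
    have h1 : A ^ 2 = 0 := by rw [h]; ring
    exact pow_eq_zero_iff (two_ne_zero) |>.mp h1
  · exfalso
    have h1 := congrArg natDegree h
    rw [natDegree_pow, natDegree_X_mul (pow_ne_zero 2 hB), natDegree_pow] at h1
    omega

/-- A polynomial of degree `< 2 s` divisible by `(X - 1) ^ (2 s)` is zero. -/
theorem zero_of_dvd (E : L[X]) (s : ℕ) (hE : E.natDegree < 2 * s)
    (h : (X - 1) ^ (2 * s) ∣ E) : E = 0 := by
  by_contra h0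
  have h1 := natDegree_le_of_dvd h h0
  have h2 : ((X - 1 : L[X]) ^ (2 * s)).natDegree = 2 * s := by
    rw [natDegree_pow, ← C_1, natDegree_X_sub_C, mul_one]
  omega

theorem pow_dvd_sub [CharP L 3] [Fact (Nat.Prime 3)] (a j s : ℕ) (h2s : 2 * s ≤ 3 ^ a) :
    (X - 1 : L[X]) ^ (2 * s) ∣ X ^ (3 ^ a * j) - 1 := by
  have h1 : (X - 1 : L[X]) ^ (3 ^ a) = X ^ (3 ^ a) - 1 := by
    rw [sub_pow_char_pow, one_pow]
  generalize 3 ^ a = q at h1 h2s ⊢
  have h2 : (X ^ q - 1 : L[X]) ∣ (X ^ q) ^ j - 1 := by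
    have h5 := sub_dvd_pow_sub_pow (X ^ q : L[X]) 1 j
    rwa [one_pow] at h5
  have h4 : (X : L[X]) ^ (q * j) = (X ^ q) ^ j := pow_mul _ _ _
  rw [h4]
  refine dvd_trans ?_ h2
  rw [← h1]
  exact pow_dvd_pow _ h2s

theorem natDegree_lt_of_coeff (A : L[X]) (s : ℕ) (hs : 0 < s) (h : ∀ n, s ≤ n → A.coeff n = 0) :
    A.natDegree < s := by
  have h1 : A.natDegree ≤ s - 1 := by
    rw [natDegree_le_iff_coeff_eq_zero]
    intro n hn
    exact h n (by omega)
  omega

theorem deg_aux (A B : L[X]) (s : ℕ) (hA : A.natDegree < s) (hB : B.natDegree < s) :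
    (A ^ 2 - X * B ^ 2).natDegree < 2 * s := by
  refine lt_of_le_of_lt (natDegree_sub_le _ _) ?_
  have d1 : (X * B ^ 2).natDegree ≤ 1 + 2 * B.natDegree := by
    refine natDegree_mul_le.trans ?_
    rw [natDegree_pow]
    exact Nat.add_le_add natDegree_X_le le_rfl
  have d2 : (A ^ 2).natDegree = 2 * A.natDegree := natDegree_pow _ _
  rw [max_lt_iff]
  omega

/-- the window property in characteristic three -/
theorem win_three [CharP L 3] [Fact (Nat.Prime 3)] (a s t : ℕ) (hst : s ≤ t)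
    (h2s : 2 * s ≤ 3 ^ a)
    (ht : ∃ j, 2 * t + 1 = 3 ^ a * j ∨ 2 * t = 3 ^ a * j + 1) : Win L t s := by
  intro G hdvd hhigh hmid
  have h30 : (3 : L) = 0 := by
    have h := CharP.cast_eq_zero L 3
    exact_mod_cast h
  rcases Nat.eq_zero_or_pos s with hs0 | hs
  · subst hs0
    ext n
    rw [coeff_zero]
    by_cases hn : n < t
    · exact hmid n (Nat.zero_le _) hn
    · exact hhigh n (by omega)
  obtain ⟨A, B, hA, hB, hG⟩ := split_window G s t hhigh hmid
  have hAd : A.natDegree < s := natDegree_lt_of_coeff A s hs fun n hn => by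
    rw [hA, if_neg (by omega)]
  have hBd : B.natDegree < s := natDegree_lt_of_coeff B s hs fun n hn => by
    rw [hB, if_neg (by omega)]
  rw [f_three h30, ← pow_mul] at hdvd
  have hAB : A = 0 ∧ B = 0 := by
    obtain ⟨j, hj⟩ := ht
    have hq := pow_dvd_sub (L := L) a j s h2s
    generalize 3 ^ a * j = e at hj hq
    rcases hj with hj | hj
    · -- `B ^ 2 = X A ^ 2`
      have h5 : (X : L[X]) ^ e = X * X ^ (2 * t) := by
        rw [← hj, pow_succ']
      have h1 : (X - 1 : L[X]) ^ (2 * s) ∣ B ^ 2 - X * A ^ 2 := by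
        have e1 : B ^ 2 - X * A ^ 2 =
            (-X * (A - X ^ t * B)) * G + (X ^ e - 1) * (-B ^ 2) := by
          rw [h5, hG, two_mul t, pow_add]
          ring
        rw [e1]
        exact dvd_add (Dvd.dvd.mul_left hdvd _) (Dvd.dvd.mul_right hq _)
      have h2 := zero_of_dvd _ s (deg_aux B A s hBd hAd) h1
      have h3 := sq_eq_X_mul_sq B A (sub_eq_zero.mp h2)
      exact ⟨h3.2, h3.1⟩
    · -- `A ^ 2 = X B ^ 2`
      have h5 : (X : L[X]) ^ (2 * t) = X * X ^ e := by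
        rw [hj, pow_succ']
      have h1 : (X - 1 : L[X]) ^ (2 * s) ∣ A ^ 2 - X * B ^ 2 := by
        have e1 : A ^ 2 - X * B ^ 2 =
            (A - X ^ t * B) * G + (X ^ e - 1) * (X * B ^ 2) := by
          rw [two_mul t, pow_add] at h5
          rw [hG]
          linear_combination (B ^ 2) * h5
        rw [e1]
        exact dvd_add (Dvd.dvd.mul_left hdvd _) (Dvd.dvd.mul_right hq _)
      have h2 := zero_of_dvd _ s (deg_aux A B s hAd hBd) h1
      exact sq_eq_X_mul_sq A B (sub_eq_zero.mp h2)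
  rw [hG, hAB.1, hAB.2]
  simp

end CharThree

theorem toep_three (a s t : ℕ) (hst : s < t) (h2s : 2 * s ≤ 3 ^ a)
    (ht : ∃ j, 2 * t + 1 = 3 ^ a * j ∨ 2 * t = 3 ^ a * j + 1) :
    ¬ (3 : ℤ) ∣ (toep s t).det := by
  intro h
  have : Fact (Nat.Prime 3) := ⟨Nat.prime_three⟩
  refine det_of_win (ZMod 3) t s hst (win_three a s t hst.le h2s ht) ?_
  exact (CharP.intCast_eq_zero_iff (ZMod 3) 3 _).mpr (by exact_mod_cast h)

/-- The mixed criterion. -/
theorem nonsing_mixed (m : ℕ)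
    (h : ∀ s, Odd s → 3 ≤ s → s ≤ m →
      (∃ a, 2 * s ≤ 3 ^ a ∧ ∃ j, 2 * (m + 1) + 1 = 3 ^ a * j ∨ 2 * (m + 1) = 3 ^ a * j + 1) ∨
      (∃ p a : ℕ, p.Prime ∧ p ≠ 3 ∧ p ^ a ∣ m + 1 ∧
        ¬ (p : ℤ) ∣ (toep (s / p ^ a) ((m + 1) / p ^ a)).det ∧
        ¬ (p : ℤ) ∣ (toep ((s + p ^ a - 1) / p ^ a) ((m + 1) / p ^ a)).det)) :
    Nonsing 2 m := by
  refine nonsing_of_odd3 m fun s hs hs3 hsm => ?_
  rcases h s hs hs3 hsm with ⟨a, h2s, ht⟩ | h1
  · have hw : (1 : ZMod 3) ^ 2 + 1 + 1 = 0 := by decide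
    have : Fact (Nat.Prime 3) := ⟨Nat.prime_three⟩
    exact ⟨ZMod 3, inferInstance, 1, hw, (win_three a s (m + 1) (by omega) h2s ht).pal⟩
  · exact exists_of_tensor m s hsm h1

end Pool.Agent.Lib.MP_c1a8e2_al
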