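import Pool.Agent.Lib.MP_c1a8e2_al.h31.Near2

/-!
# Two variables: `m + 1 = p + 3` and `m + 1 = p - 3`
-/

set_option autoImplicit false

open Polynomial Finset

namespace Pool.Agent.Lib.MP_c1a8e2_al

section

variable {L : Type} [Field L]

/-- The linear algebra behind `N = p ± 3`. -/
theorem core3 (v : L) (hv : v ^ 2 + v + 1 = 0) (h2 : (2 : L) ≠ 0) (h3 : (3 : L) ≠ 0)
    (s b k0 k1 k2 : L) (hb : 2 * b = s * (s - 1)) (e : ℕ) (he : e < 3)
    (c0 : e = 0 → s ≠ 0) (c1 : e = 1 → 3 * s + 2 ≠ 0 ∧ s - 1 ≠ 0)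
    (c2 : e = 2 → 3 * s - 2 ≠ 0 ∧ s + 1 ≠ 0)
    (e1 : k2 = -(v ^ e) * k0)
    (e2 : k1 - s * v * k2 = -(v ^ e) * k1 + s * v ^ e * v ^ 2 * k0)
    (e3 : k0 - s * v * k1 + b * v ^ 2 * k2 =
      -(v ^ e) * k2 + s * v ^ e * v ^ 2 * k1 - b * v ^ e * v * k0) :
    k0 = 0 ∧ k1 = 0 ∧ k2 = 0 := by
  have hv3 := cube_root L v hv
  have hv0 : v ≠ 0 := by
    rintro rfl
    simp at hv
  have hv1 : v ≠ 1 := by
    rintro rfl
    apply h3
    linear_combination hv
  have hδ : v - v ^ 2 ≠ 0 := by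
    have h : v - v ^ 2 = v * (1 - v) := by ring
    rw [h]
    exact mul_ne_zero hv0 (sub_ne_zero.mpr hv1.symm)
  have hZ : 1 + v ^ e ≠ 0 := by
    have := add_root_ne v hv3 h2 0 e
    rwa [pow_zero] at this
  have f2 : (1 + v ^ e) * k1 = s * v ^ e * (v ^ 2 - v) * k0 := by
    linear_combination e2 + (s * v) * e1
  have f3 : k0 * (1 - (v ^ e) ^ 2 + b * v ^ e * (v - v ^ 2)) = s * k1 * v * (1 + v ^ e * v) := by
    linear_combination e3 - (b * v ^ 2 + v ^ e) * e1
  have f4 : k0 * ((1 + v ^ e) * (1 - (v ^ e) ^ 2 + b * v ^ e * (v - v ^ 2)) +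
      s ^ 2 * v ^ e * v * (1 + v ^ e * v) * (v - v ^ 2)) = 0 := by
    linear_combination (1 + v ^ e) * f3 + s * v * (1 + v ^ e * v) * f2
  have hk0 : k0 = 0 := by
    interval_cases e
    · have h5 : k0 * (s * (v - v ^ 2)) = 0 := by
        rw [pow_zero] at f4
        linear_combination -f4 + k0 * ((v - v ^ 2) * hb + s ^ 2 * (v - v ^ 2) * hv)
      exact (mul_eq_zero.mp h5).resolve_right (mul_ne_zero (c0 rfl) hδ)
    · have h5 : k0 * ((v - v ^ 2) * ((3 * s + 2) * (s - 1))) = 0 := by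
        linear_combination (-2) * f4 + k0 * ((v - 1) * (-2 - s * (s - 1) * v +
          2 * s ^ 2 * (-v + v ^ 2 - v ^ 3))) * hv + k0 * (1 + v) * v * (v - v ^ 2) * hb
      exact (mul_eq_zero.mp h5).resolve_right
        (mul_ne_zero hδ (mul_ne_zero (c1 rfl).1 (c1 rfl).2))
    · have h5 : k0 * ((v - v ^ 2) * ((3 * s - 2) * (s + 1))) = 0 := by
        linear_combination 2 * f4 - k0 * ((v - 1) * (-2 * (v + 2 + (v - 1) * (v ^ 2 + v + 1)) +
          s * (s - 1) * (-1 + v ^ 2 - v - (v - 1) * (v ^ 2 + v + 1)) +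
          2 * s ^ 2 * (v - v ^ 2) * (3 + (v - 1) * (v ^ 2 + v + 1)))) * hv -
          k0 * (1 + v ^ 2) * v ^ 2 * (v - v ^ 2) * hb
      exact (mul_eq_zero.mp h5).resolve_right
        (mul_ne_zero hδ (mul_ne_zero (c2 rfl).1 (c2 rfl).2))
  subst hk0
  refine ⟨rfl, ?_, ?_⟩
  · rw [mul_zero] at f2
    exact (mul_eq_zero.mp f2).resolve_left hZ
  · rw [e1, mul_zero]

/-- The coefficients of `(X - v) ^ (s' + 3) (k2 X ^ 2 + k1 X + k0)`, `s'` even. -/
theorem coeff_quad (v k0 k1 k2 : L) (s' : ℕ) (hs' : Even s') :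
    ((X - C v) ^ (s' + 3) * (C k2 * X ^ 2 + C k1 * X + C k0)).coeff (s' + 5) = k2 ∧
    ((X - C v) ^ (s' + 3) * (C k2 * X ^ 2 + C k1 * X + C k0)).coeff (s' + 4) =
      k1 - (s' + 3) * v * k2 ∧
    ((X - C v) ^ (s' + 3) * (C k2 * X ^ 2 + C k1 * X + C k0)).coeff (s' + 3) =
      k0 - (s' + 3) * v * k1 + ((s' + 3).choose 2 : L) * v ^ 2 * k2 ∧
    ((X - C v) ^ (s' + 3) * (C k2 * X ^ 2 + C k1 * X + C k0)).coeff 0 = -v ^ (s' + 3) * k0 ∧
    ((X - C v) ^ (s' + 3) * (C k2 * X ^ 2 + C k1 * X + C k0)).coeff 1 =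
      -v ^ (s' + 3) * k1 + (s' + 3) * v ^ (s' + 2) * k0 ∧
    ((X - C v) ^ (s' + 3) * (C k2 * X ^ 2 + C k1 * X + C k0)).coeff 2 =
      -v ^ (s' + 3) * k2 + (s' + 3) * v ^ (s' + 2) * k1 -
        ((s' + 3).choose 2 : L) * v ^ (s' + 1) * k0 := by
  have hrw : (X - C v) ^ (s' + 3) * (C k2 * X ^ 2 + C k1 * X + C k0) =
      C k2 * (X ^ 2 * (X - C v) ^ (s' + 3)) + C k1 * (X ^ 1 * (X - C v) ^ (s' + 3)) +
        C k0 * (X - C v) ^ (s' + 3) := by ring
  have hodd : Odd (s' + 3) := by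
    have := hs'.add_odd (show Odd 3 by decide)
    exact this
  have hodd1 : Odd (s' + 1) := hs'.add_one
  have heven : Even (s' + 2) := hs'.add (by decide)
  have n1 : ((-v) ^ (s' + 3) : L) = -v ^ (s' + 3) := Odd.neg_pow hodd v
  have n2 : ((-v) ^ (s' + 2) : L) = v ^ (s' + 2) := Even.neg_pow heven v
  have n3 : ((-v) ^ (s' + 1) : L) = -v ^ (s' + 1) := Odd.neg_pow hodd1 v
  have t : ∀ k, ((X - C v) ^ (s' + 3) * (C k2 * X ^ 2 + C k1 * X + C k0)).coeff k =
      k2 * (if 2 ≤ k then (-v) ^ (s' + 3 - (k - 2)) * ((s' + 3).choose (k - 2) : L) else 0) +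
      k1 * (if 1 ≤ k then (-v) ^ (s' + 3 - (k - 1)) * ((s' + 3).choose (k - 1) : L) else 0) +
      k0 * ((-v) ^ (s' + 3 - k) * ((s' + 3).choose k : L)) := by
    intro k
    rw [hrw, coeff_add, coeff_add, coeff_C_mul, coeff_C_mul, coeff_C_mul, coeff_X_pow_mul',
      coeff_X_pow_mul', coeff_X_sub_C_pow', coeff_X_sub_C_pow', coeff_X_sub_C_pow']
  have q1 : (s' + 3).choose (s' + 3) = 1 := Nat.choose_self _
  have q2 : (s' + 3).choose (s' + 4) = 0 := Nat.choose_eq_zero_of_lt (by omega)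
  have q3 : (s' + 3).choose (s' + 5) = 0 := Nat.choose_eq_zero_of_lt (by omega)
  have q4 : (s' + 3).choose (s' + 2) = s' + 3 := by
    rw [← Nat.choose_symm (show s' + 2 ≤ s' + 3 by omega), show s' + 3 - (s' + 2) = 1 by omega,
      Nat.choose_one_right]
  have q5 : (s' + 3).choose (s' + 1) = (s' + 3).choose 2 := by
    rw [← Nat.choose_symm (show s' + 1 ≤ s' + 3 by omega), show s' + 3 - (s' + 1) = 2 by omega]
  refine ⟨?_, ?_, ?_, ?_, ?_, ?_⟩
  · rw [t, if_pos (by omega), if_pos (by omega), show s' + 5 - 2 = s' + 3 by omega,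
      show s' + 5 - 1 = s' + 4 by omega, q1, q2, q3, show s' + 3 - (s' + 3) = 0 by omega]
    simp
  · rw [t, if_pos (by omega), if_pos (by omega), show s' + 4 - 2 = s' + 2 by omega,
      show s' + 4 - 1 = s' + 3 by omega, q1, q2, q4, show s' + 3 - (s' + 3) = 0 by omega,
      show s' + 3 - (s' + 2) = 1 by omega]
    push_cast
    ring
  · rw [t, if_pos (by omega), if_pos (by omega), show s' + 3 - 2 = s' + 1 by omega,
      show s' + 3 - 1 = s' + 2 by omega, q1, q4, q5, show s' + 3 - (s' + 3) = 0 by omega,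
      show s' + 3 - (s' + 2) = 1 by omega, show s' + 3 - (s' + 1) = 2 by omega]
    push_cast
    ring
  · rw [t, if_neg (by omega), if_neg (by omega), Nat.sub_zero, n1, Nat.choose_zero_right]
    push_cast
    ring
  · rw [t, if_neg (by omega), if_pos (by omega), Nat.sub_self, Nat.sub_zero,
      show s' + 3 - 1 = s' + 2 by omega, n1, n2, Nat.choose_zero_right, Nat.choose_one_right]
    push_cast
    ring
  · rw [t, if_pos (by omega), if_pos (by omega), Nat.sub_self, Nat.sub_zero,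
      show 2 - 1 = 1 by omega,
      show s' + 3 - 1 = s' + 2 by omega, show s' + 3 - 2 = s' + 1 by omega, n1, n2, n3,
      Nat.choose_zero_right, Nat.choose_one_right]
    push_cast
    ring

theorem choose_two_cast (n : ℕ) : 2 * (((n + 3).choose 2 : ℕ) : L) =
    ((n : L) + 3) * ((n : L) + 3 - 1) := by
  have h : 2 * (n + 3).choose 2 = (n + 3) * (n + 2) := by
    rw [Nat.choose_two_right, show n + 3 - 1 = n + 2 by omega]
    exact Nat.mul_div_cancel' (Nat.even_mul_pred_self (n + 3)).two_dvd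
  have h2 : ((2 * (n + 3).choose 2 : ℕ) : L) = (((n + 3) * (n + 2) : ℕ) : L) := by rw [h]
  push_cast at h2
  linear_combination h2

/-- Palindromic up to a factor `R` and divisible by a high power of `X - v`. -/
theorem quad_zero (v : L) (hv : v ^ 2 + v + 1 = 0) (h2 : (2 : L) ≠ 0) (h3 : (3 : L) ≠ 0)
    (s' : ℕ) (hs' : Even s') (E : L[X]) (hE : ∀ n, s' + 3 + 2 < n → E.coeff n = 0)
    (hdvd : (X - C v) ^ (s' + 3) ∣ E) (R : L) (e : ℕ) (he : e < 3)
    (hR : R * v ^ (s' + 3) = v ^ e)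
    (r0 : E.coeff (s' + 5) = R * E.coeff 0) (r1 : E.coeff (s' + 4) = R * E.coeff 1)
    (r2 : E.coeff (s' + 3) = R * E.coeff 2)
    (c0 : e = 0 → ((s' + 3 : ℕ) : L) ≠ 0)
    (c1 : e = 1 → ((3 * (s' + 3) + 2 : ℕ) : L) ≠ 0 ∧ ((s' + 2 : ℕ) : L) ≠ 0)
    (c2 : e = 2 → ((3 * s' + 7 : ℕ) : L) ≠ 0 ∧ ((s' + 4 : ℕ) : L) ≠ 0) :
    E = 0 := by
  have hv3 := cube_root L v hv
  obtain ⟨K, hK, rfl⟩ := quot_deg v (s' + 3) 2 E hE hdvd
  obtain ⟨k0, k1, k2, rfl⟩ : ∃ k0 k1 k2 : L, K = C k2 * X ^ 2 + C k1 * X + C k0 := by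
    refine ⟨K.coeff 0, K.coeff 1, K.coeff 2, ?_⟩
    have h := K.as_sum_range_C_mul_X_pow' (show K.natDegree < 3 by omega)
    conv_lhs => rw [h]
    rw [Finset.sum_range_succ, Finset.sum_range_succ, Finset.sum_range_succ,
      Finset.sum_range_zero]
    ring
  obtain ⟨t5, t4, t3, u0, u1, u2⟩ := coeff_quad v k0 k1 k2 s' hs'
  rw [t5, u0] at r0
  rw [t4, u1] at r1
  rw [t3, u2] at r2
  have w2 : v ^ (s' + 2) = v ^ (s' + 3) * v ^ 2 := by
    rw [← pow_add]
    exact pow_congr3 v hv3 _ _ (by omega)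
  have w1 : v ^ (s' + 1) = v ^ (s' + 3) * v := by
    rw [← pow_succ]
    exact pow_congr3 v hv3 _ _ (by omega)
  rw [w2] at r1 r2
  rw [w1] at r2
  obtain ⟨hk0, hk1, hk2⟩ := core3 v hv h2 h3 ((s' : L) + 3) (((s' + 3).choose 2 : ℕ) : L) k0 k1 k2
    (choose_two_cast s') e he
    (fun h => by
      have := c0 h
      push_cast at this
      exact this)
    (fun h => by
      obtain ⟨ha, hb⟩ := c1 h
      push_cast at ha hb
      refine ⟨fun h' => ha (by linear_combination h'), fun h' => hb (by linear_combination h')⟩)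
    (fun h => by
      obtain ⟨ha, hb⟩ := c2 h
      push_cast at ha hb
      refine ⟨fun h' => ha (by linear_combination h'), fun h' => hb (by linear_combination h')⟩)
    (by rw [← hR]; linear_combination r0)
    (by rw [← hR]; linear_combination r1)
    (by rw [← hR]; linear_combination r2)
  rw [hk0, hk1, hk2]
  simp

end

section

variable (L : Type) [Field L] (p : ℕ) [hp : Fact p.Prime] [CharP L p]

/-- `N + 3 = p` -/
theorem pal_minus_three (hp5 : 5 ≤ p) (h9 : p % 9 ≠ 2 ∧ p % 9 ≠ 7) (w : L)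
    (hw : w ^ 2 + w + 1 = 0) (N s : ℕ) (hN : N + 3 = p) (hs : Odd s) (hs3 : 3 ≤ s)
    (hsN : s ≤ N) : PalWin L N s := by
  have hp2 : p ≠ 2 := by omega
  have hp3 : p ≠ 3 := by omega
  have hp3' : p % 3 ≠ 0 := by
    intro h
    have : 3 ∣ p := Nat.dvd_of_mod_eq_zero h
    exact hp3 ((Nat.prime_dvd_prime_iff_eq Nat.prime_three hp.out).mp this).symm
  have hpodd : p % 2 = 1 := by
    rcases hp.out.eq_two_or_odd with h | h
    · exact absurd h hp2
    · exact h
  intro G hdvd hhigh hmid hpal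
  obtain ⟨A, B, hA, hB, hG⟩ := split_window G s N hhigh hmid
  obtain ⟨s', rfl⟩ : ∃ s', s = s' + 3 := ⟨s - 3, by omega⟩
  have hs2 : s' % 2 = 0 := by
    have := Nat.odd_iff.mp hs
    omega
  have hev : Even s' := Nat.even_iff.mpr hs2
  have h3 := three_ne L p hp3
  have key : ∀ v : L, v ^ 2 + v + 1 = 0 → X ^ 3 * A + C (v ^ (p ^ 1)) * B = 0 := by
    intro v hv
    have hv3 := cube_root L v hv
    have h1 : (X - C v) ^ (s' + 3) ∣ X ^ 3 * A + C (v ^ (p ^ 1)) * B := by
      apply dvd_frob L p 1 v (X ^ 3 * A) B (s' + 3) (by rw [pow_one]; omega)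
      have h2 : X ^ 3 * A + X ^ (p ^ 1) * B = X ^ 3 * G := by
        rw [hG, pow_one, ← hN]
        ring
      rw [h2]
      exact Dvd.dvd.mul_left (root_pow_dvd L v hv _ G hdvd) _
    have hQ3 : v ^ (p ^ 1) * v ^ (2 * p) = 1 := by
      rw [pow_one, ← pow_add, show p + 2 * p = 3 * p by ring, pow_mul, hv3, one_pow]
    have zlow : ∀ i, i < 3 → (X ^ 3 * A).coeff i = 0 := by
      intro i hi
      rw [coeff_X_pow_mul', if_neg (by omega)]
    have ztop : ∀ i, i < 3 → (X ^ 3 * A).coeff (s' + 5 - i) = G.coeff (s' + 2 - i) := by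
      intro i hi
      rw [coeff_X_pow_mul', if_pos (by omega), hA, if_pos (by omega)]
      congr 1
      omega
    have zb : ∀ i, i < 3 → B.coeff (s' + 5 - i) = 0 := by
      intro i hi
      rw [hB, if_neg (by omega)]
    have yb : ∀ i, i < 3 → B.coeff i = G.coeff (s' + 2 - i) := by
      intro i hi
      rw [hB, if_pos (by omega)]
      exact hpal _ _ (by omega)
    have hr : ∀ i, i < 3 → (X ^ 3 * A + C (v ^ (p ^ 1)) * B).coeff (s' + 5 - i) =
        v ^ (2 * p) * (X ^ 3 * A + C (v ^ (p ^ 1)) * B).coeff i := by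
      intro i hi
      rw [coeff_add, coeff_add, coeff_C_mul, coeff_C_mul, zlow i hi, ztop i hi, zb i hi, yb i hi]
      linear_combination -(G.coeff (s' + 2 - i)) * hQ3
    refine quad_zero v hv (two_ne L p hp2) h3 s' hev _ ?_ h1 (v ^ (2 * p))
      ((s' + 3 + 2 * p) % 3) (Nat.mod_lt _ (by norm_num)) ?_ (hr 0 (by norm_num))
      (hr 1 (by norm_num)) (hr 2 (by norm_num)) ?_ ?_ ?_
    · intro n hn
      obtain ⟨n', rfl⟩ : ∃ n', n = n' + 3 := ⟨n - 3, by omega⟩
      rw [coeff_add, coeff_C_mul, hB (n' + 3), if_neg (by omega), mul_zero, add_zero,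
        coeff_X_pow_mul, hA n', if_neg (by omega)]
    · rw [← pow_add]
      exact pow_congr3 v hv3 _ _ (by omega)
    · intro _
      refine cast_ne L p _ (fun h => ?_)
      have := Nat.le_of_dvd (by omega) h
      omega
    · intro he
      constructor
      · refine cast_ne L p _ (fun h => ?_)
        obtain ⟨c, hc⟩ := h
        have hc3 : c < 3 := by
          by_contra h6
          have : p * 3 ≤ p * c := Nat.mul_le_mul_left p (by omega)
          omega
        interval_cases c <;> omega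
      · refine cast_ne L p _ (fun h => ?_)
        have := Nat.le_of_dvd (by omega) h
        omega
    · intro he
      constructor
      · refine cast_ne L p _ (fun h => ?_)
        obtain ⟨c, hc⟩ := h
        have hc3 : c < 3 := by
          by_contra h6
          have : p * 3 ≤ p * c := Nat.mul_le_mul_left p (by omega)
          omega
        interval_cases c <;> omega
      · refine cast_ne L p _ (fun h => ?_)
        have := Nat.le_of_dvd (by omega) h
        omega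
  obtain ⟨h1, h2⟩ := both_zero _ _ (ne_frob L p 1 hp3 w hw) (X ^ 3 * A) B (key w hw)
    (key (w ^ 2) (root_sq L w hw))
  have h4 : A = 0 := (mul_eq_zero.mp h1).resolve_left (pow_ne_zero 3 X_ne_zero)
  rw [hG, h4, h2, mul_zero, add_zero]

/-- `N = p + 3`, `s ≤ p` -/
theorem pal_plus_three (hp5 : 5 ≤ p) (h9 : p % 9 ≠ 1 ∧ p % 9 ≠ 8) (w : L)
    (hw : w ^ 2 + w + 1 = 0) (N s : ℕ) (hN : N = p + 3) (hs : Odd s) (hs3 : 3 ≤ s)
    (hsN : s ≤ p) : PalWin L N s := by
  have hp2 : p ≠ 2 := by omega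
  have hp3 : p ≠ 3 := by omega
  have hp3' : p % 3 ≠ 0 := by
    intro h
    have : 3 ∣ p := Nat.dvd_of_mod_eq_zero h
    exact hp3 ((Nat.prime_dvd_prime_iff_eq Nat.prime_three hp.out).mp this).symm
  have hpodd : p % 2 = 1 := by
    rcases hp.out.eq_two_or_odd with h | h
    · exact absurd h hp2
    · exact h
  intro G hdvd hhigh hmid hpal
  obtain ⟨A, B, hA, hB, hG⟩ := split_window G s N hhigh hmid
  obtain ⟨s', rfl⟩ : ∃ s', s = s' + 3 := ⟨s - 3, by omega⟩
  have hs2 : s' % 2 = 0 := by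
    have := Nat.odd_iff.mp hs
    omega
  have hev : Even s' := Nat.even_iff.mpr hs2
  have h3 := three_ne L p hp3
  have key : ∀ v : L, v ^ 2 + v + 1 = 0 → A + C (v ^ (p ^ 1)) * (X ^ 3 * B) = 0 := by
    intro v hv
    have hv3 := cube_root L v hv
    have h1 : (X - C v) ^ (s' + 3) ∣ A + C (v ^ (p ^ 1)) * (X ^ 3 * B) := by
      apply dvd_frob L p 1 v A (X ^ 3 * B) (s' + 3) (by rw [pow_one]; omega)
      have h2 : A + X ^ (p ^ 1) * (X ^ 3 * B) = G := by
        rw [hG, pow_one, hN]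
        ring
      rw [h2]
      exact root_pow_dvd L v hv _ G hdvd
    have zlow : ∀ i, i < 3 → (X ^ 3 * B).coeff i = 0 := by
      intro i hi
      rw [coeff_X_pow_mul', if_neg (by omega)]
    have ztop : ∀ i, i < 3 → (X ^ 3 * B).coeff (s' + 5 - i) = G.coeff i := by
      intro i hi
      rw [coeff_X_pow_mul', if_pos (by omega), hB, if_pos (by omega)]
      exact hpal _ _ (by omega)
    have za : ∀ i, i < 3 → A.coeff (s' + 5 - i) = 0 := by
      intro i hi
      rw [hA, if_neg (by omega)]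
    have ya : ∀ i, i < 3 → A.coeff i = G.coeff i := by
      intro i hi
      rw [hA, if_pos (by omega)]
    have hr : ∀ i, i < 3 → (A + C (v ^ (p ^ 1)) * (X ^ 3 * B)).coeff (s' + 5 - i) =
        v ^ (p ^ 1) * (A + C (v ^ (p ^ 1)) * (X ^ 3 * B)).coeff i := by
      intro i hi
      rw [coeff_add, coeff_add, coeff_C_mul, coeff_C_mul, zlow i hi, ztop i hi, za i hi, ya i hi]
      ring
    refine quad_zero v hv (two_ne L p hp2) h3 s' hev _ ?_ h1 (v ^ (p ^ 1))
      ((s' + 3 + p) % 3) (Nat.mod_lt _ (by norm_num)) ?_ (hr 0 (by norm_num))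
      (hr 1 (by norm_num)) (hr 2 (by norm_num)) ?_ ?_ ?_
    · intro n hn
      obtain ⟨n', rfl⟩ : ∃ n', n = n' + 3 := ⟨n - 3, by omega⟩
      rw [coeff_add, coeff_C_mul, coeff_X_pow_mul, hB n', hA (n' + 3), if_neg (by omega),
        if_neg (by omega), mul_zero, add_zero]
    · rw [← pow_add, pow_one]
      exact pow_congr3 v hv3 _ _ (by omega)
    · intro he
      refine cast_ne L p _ (fun h => ?_)
      have := Nat.le_of_dvd (by omega) h
      omega
    · intro he
      constructor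
      · refine cast_ne L p _ (fun h => ?_)
        obtain ⟨c, hc⟩ := h
        have hc3 : c < 4 := by
          by_contra h6
          have : p * 4 ≤ p * c := Nat.mul_le_mul_left p (by omega)
          omega
        interval_cases c <;> omega
      · refine cast_ne L p _ (fun h => ?_)
        have := Nat.le_of_dvd (by omega) h
        omega
    · intro he
      constructor
      · refine cast_ne L p _ (fun h => ?_)
        obtain ⟨c, hc⟩ := h
        have hc3 : c < 3 := by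
          by_contra h6
          have : p * 3 ≤ p * c := Nat.mul_le_mul_left p (by omega)
          omega
        interval_cases c <;> omega
      · refine cast_ne L p _ (fun h => ?_)
        obtain ⟨c, hc⟩ := h
        have hc3 : c < 2 := by
          by_contra h6
          have : p * 2 ≤ p * c := Nat.mul_le_mul_left p (by omega)
          omega
        interval_cases c <;> omega
  obtain ⟨h1, h2⟩ := both_zero _ _ (ne_frob L p 1 hp3 w hw) A (X ^ 3 * B) (key w hw)
    (key (w ^ 2) (root_sq L w hw))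
  have h4 : B = 0 := (mul_eq_zero.mp h2).resolve_left (pow_ne_zero 3 X_ne_zero)
  rw [hG, h1, h4, mul_zero, add_zero]

/-- `N = p + 3`, `s = p + 2` -/
theorem pal_plus_three_top (hp5 : 5 ≤ p) : PalWin L (p + 3) (p + 2) := by
  intro G hdvd hhigh hmid _
  obtain ⟨D, rfl⟩ := hdvd
  have hm : (X ^ 2 + X + 1 : L[X]).Monic := by monicity!
  have hd : (X ^ 2 + X + 1 : L[X]).natDegree = 2 := by compute_degree!
  have hmp : ((X ^ 2 + X + 1 : L[X]) ^ (p + 2)).Monic := hm.pow _
  have hdp : ((X ^ 2 + X + 1 : L[X]) ^ (p + 2)).natDegree = 2 * (p + 2) := by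
    rw [natDegree_pow, hd]
    ring
  have hD : D.natDegree = 0 := by
    by_contra hc
    have hD0 : D ≠ 0 := by
      rintro rfl
      simp at hc
    have h1 : ((X ^ 2 + X + 1 : L[X]) ^ (p + 2) * D).natDegree = 2 * (p + 2) + D.natDegree := by
      rw [hmp.natDegree_mul' hD0, hdp]
    have h2 := hhigh ((X ^ 2 + X + 1 : L[X]) ^ (p + 2) * D).natDegree (by rw [h1]; omega)
    rw [coeff_natDegree, leadingCoeff_eq_zero] at h2
    exact (mul_ne_zero hmp.ne_zero hD0) h2
  rw [natDegree_eq_zero] at hD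
  obtain ⟨d, rfl⟩ := hD
  have h1 := hmid (p + 2) (by omega) (by omega)
  have h2 : (X ^ 2 + X + 1 : L[X]) ^ (p + 2) = X ^ (2 * p) * (X ^ 2 + X + 1) ^ 2 +
      X ^ p * (X ^ 2 + X + 1) ^ 2 + (X ^ 2 + X + 1) ^ 2 := by
    have h3 := frob_f L p 1
    rw [pow_one, map_add, map_add, map_pow, expand_X, map_one] at h3
    rw [pow_add, h3]
    ring
  have h4 : ((X ^ 2 + X + 1 : L[X]) ^ 2) = C 1 * X ^ 4 + C 2 * X ^ 3 + C 3 * X ^ 2 + C 2 * X + C 1 := by
    have e2 : (C 2 : L[X]) = 2 := rfl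
    have e3 : (C 3 : L[X]) = 3 := rfl
    rw [C_1, e2, e3]
    ring
  have h5 : ((X ^ 2 + X + 1 : L[X]) ^ 2).coeff 2 = 3 := by
    rw [h4]
    simp [coeff_one, coeff_X_pow]
  have h6 : ((X ^ 2 + X + 1 : L[X]) ^ 2).coeff (p + 2) = 0 := by
    apply coeff_eq_zero_of_natDegree_lt
    rw [natDegree_pow, hd]
    omega
  rw [coeff_mul_C, h2, coeff_add, coeff_add, coeff_X_pow_mul', coeff_X_pow_mul', if_neg (by omega),
    if_pos (by omega), show p + 2 - p = 2 by omega, h5, h6, zero_add, add_zero] at h1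
  have h7 := (mul_eq_zero.mp h1).resolve_left (three_ne L p (by omega))
  rw [h7]
  simp

end

theorem nonsing_three3 (m p : ℕ) (hp : p.Prime) (hp5 : 5 ≤ p)
    (h : (m + 1 = p + 3 ∧ p % 9 ≠ 1 ∧ p % 9 ≠ 8) ∨ (m + 4 = p ∧ p % 9 ≠ 2 ∧ p % 9 ≠ 7)) :
    Nonsing 2 m := by
  have : Fact p.Prime := ⟨hp⟩
  refine nonsing_of_odd3 m fun s hs hs3 hsm => ?_
  obtain ⟨w, hw⟩ := exists_root_f (AlgebraicClosure (ZMod p))
  refine ⟨AlgebraicClosure (ZMod p), inferInstance, w, hw, ?_⟩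
  rcases h with ⟨h, h9⟩ | ⟨h, h9⟩
  · rw [h]
    have hpodd : p % 2 = 1 := by
      rcases hp.eq_two_or_odd with h | h
      · omega
      · exact h
    have hs2 : s % 2 = 1 := Nat.odd_iff.mp hs
    by_cases hsp : s ≤ p
    · exact pal_plus_three _ p hp5 h9 w hw (p + 3) s rfl hs hs3 hsp
    · have h1 : s = p + 2 := by omega
      rw [h1]
      exact pal_plus_three_top _ p hp5
  · exact pal_minus_three _ p hp5 h9 w hw (m + 1) s (by omega) hs hs3 (by omega)

end Pool.Agent.Lib.MP_c1a8e2_al
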