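import Pool.Agent.Lib.MP_c1a8e2_al.h18.TwoPlus

/-!
# Two variables: `m + 1 = 2 p - 2`
-/

set_option autoImplicit false

open Polynomial Finset

namespace Pool.Agent.Lib.MP_c1a8e2_al

section

variable {L : Type} [Field L]

theorem core_two (v R ε : L) (hv : v ^ 2 + v + 1 = 0) (s : ℕ) (hs1 : 1 ≤ s)
    (hε2 : ε ^ 2 = 1) (hpar : (-1 : L) ^ s = ε) (a b : L)
    (hpal0 : ((X - C v) ^ s * (C a * X + C b)).coeff (s + 1) =
      R * ((X - C v) ^ s * (C a * X + C b)).coeff 0)
    (hpal1 : ((X - C v) ^ s * (C a * X + C b)).coeff s =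
      R * ((X - C v) ^ s * (C a * X + C b)).coeff 1)
    (e : ℕ) (hZ : R * v ^ s = v ^ e)
    (hbr : 1 - v ^ (2 * e) + (-ε * s) * v ^ e * (v - v ^ 2) ≠ 0) : a = 0 ∧ b = 0 := by
  have hv3 := cube_root L v hv
  obtain ⟨r, rfl⟩ : ∃ r, s = r + 1 := ⟨s - 1, by omega⟩
  have hrw : (X - C v) ^ (r + 1) * (C a * X + C b) =
      C a * ((X - C v) ^ (r + 1) * X) + C b * (X - C v) ^ (r + 1) := by ring
  have hr : (-1 : L) ^ r = -ε := by
    rw [← hpar, pow_succ]
    ring
  have hvr : v ^ r = v ^ (r + 1) * v ^ 2 := by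
    rw [← pow_add]
    exact pow_congr3 v hv3 _ _ (by omega)
  have f0 : ((X - C v) ^ (r + 1) : L[X]).coeff 0 = ε * v ^ (r + 1) := by
    rw [pow_coeff_zero, neg_pow, hpar]
  have f1 : ((X - C v) ^ (r + 1) : L[X]).coeff 1 =
      -ε * (v ^ (r + 1) * v ^ 2) * ((r + 1 : ℕ) : L) := by
    rw [coeff_X_sub_C_pow', Nat.choose_one_right, Nat.add_sub_cancel, neg_pow, hr, hvr]
  have ft : ((X - C v) ^ (r + 1) : L[X]).coeff (r + 1) = 1 := pow_coeff_top v (r + 1)
  have ft1 : ((X - C v) ^ (r + 1) : L[X]).coeff r = -v * ((r + 1 : ℕ) : L) := by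
    rw [coeff_X_sub_C_pow', Nat.choose_succ_self_right, show r + 1 - r = 1 by omega, pow_one]
  have fbig : ((X - C v) ^ (r + 1) : L[X]).coeff (r + 1 + 1) = 0 := by
    apply coeff_eq_zero_of_natDegree_lt
    rw [natDegree_pow, natDegree_X_sub_C, mul_one]
    omega
  rw [hrw, coeff_add, coeff_C_mul, coeff_C_mul, coeff_mul_X, fbig, ft, coeff_add, coeff_C_mul,
    coeff_C_mul, mul_coeff_zero, coeff_X_zero, f0] at hpal0
  rw [hrw, coeff_add, coeff_C_mul, coeff_C_mul, coeff_mul_X, ft, ft1, coeff_add, coeff_C_mul,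
    coeff_C_mul, show (1 : ℕ) = 0 + 1 from rfl, coeff_mul_X, f0, zero_add, f1] at hpal1
  have ha : a = ε * v ^ e * b := by
    linear_combination hpal0 + ε * b * hZ
  have hb : b * (1 - v ^ (2 * e) + (-ε * ((r + 1 : ℕ) : L)) * v ^ e * (v - v ^ 2)) = 0 := by
    have h2e : v ^ (2 * e) = (v ^ e) ^ 2 := by rw [← pow_mul, mul_comm]
    rw [h2e]
    rw [ha] at hpal1
    generalize v ^ e = z at *
    generalize ((r + 1 : ℕ) : L) = x at *
    generalize v ^ (r + 1) = S at *
    linear_combination hpal1 + (ε * (ε * z * b) - ε * v ^ 2 * x * b) * hZ + z ^ 2 * b * hε2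
  have hb0 : b = 0 := (mul_eq_zero.mp hb).resolve_right hbr
  exact ⟨by rw [ha, hb0, mul_zero], hb0⟩

end

section

variable (L : Type) [Field L] (p : ℕ) [hp : Fact p.Prime] [CharP L p]

/-- `N = 2 p - 2`, `s ≤ p` -/
theorem pal_two_minus_low (hp5 : 5 ≤ p) (w : L) (hw : w ^ 2 + w + 1 = 0)
    (N s : ℕ) (hN : N + 2 = 2 * p) (hs : Odd s) (hs3 : 3 ≤ s) (hsN : s ≤ p) : PalWin L N s := by
  intro G hdvd hhigh hmid hpal
  obtain ⟨A, B, hA, hB, hG⟩ := split_window G s N hhigh hmid
  have hp2 : p ≠ 2 := by omega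
  have hp3 : p ≠ 3 := by omega
  have h3 := three_ne L p hp3
  have hp3' : p % 3 ≠ 0 := by
    intro h
    have : 3 ∣ p := Nat.dvd_of_mod_eq_zero h
    exact hp3 ((Nat.prime_dvd_prime_iff_eq Nat.prime_three hp.out).mp this).symm
  have hpodd : p % 2 = 1 := by
    rcases hp.out.eq_two_or_odd with h | h
    · exact absurd h hp2
    · exact h
  have hs2 : s % 2 = 1 := Nat.odd_iff.mp hs
  have key : ∀ v : L, v ^ 2 + v + 1 = 0 → X ^ 2 * A + C (v ^ (p ^ 1 * 2)) * B = 0 := by
    intro v hv
    have hv3 := cube_root L v hv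
    have h1 : (X - C v) ^ s ∣ X ^ 2 * A + C (v ^ (p ^ 1 * 2)) * B := by
      apply dvd_frob_mul L p 1 v (X ^ 2 * A) B s 2 (by rw [pow_one]; omega)
      have h2 : X ^ 2 * A + X ^ (p ^ 1 * 2) * B = X ^ 2 * G := by
        rw [hG, pow_one, mul_comm p 2, ← hN]
        ring
      rw [h2]
      exact Dvd.dvd.mul_left (root_pow_dvd L v hv _ G hdvd) _
    obtain ⟨K, hK, hE⟩ := quot_deg v s 1 _ (by
      intro n hn
      obtain ⟨n', rfl⟩ : ∃ n', n = n' + 2 := ⟨n - 2, by omega⟩
      rw [coeff_add, coeff_C_mul, hB (n' + 2), if_neg (by omega), mul_zero, add_zero,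
        coeff_X_pow_mul, hA n', if_neg (by omega)]) h1
    obtain ⟨a, b, rfl⟩ := exists_eq_X_add_C_of_natDegree_le_one hK
    have hvv : v ^ p * v ^ (p ^ 1 * 2) = 1 := by
      rw [← pow_add]
      exact (pow_congr3 v hv3 (p + p ^ 1 * 2) 0 (by rw [pow_one]; omega)).trans (pow_zero v)
    have hcast : ∀ n : ℕ, ((n : ℕ) : L) = 0 ↔ p ∣ n := fun n => CharP.cast_eq_zero_iff L p n
    have hab := core_two v (v ^ p) (-1) hv s (by omega) (by ring) (Odd.neg_one_pow hs) a b
      (by
        rw [← hE, coeff_add, coeff_C_mul, coeff_add, coeff_C_mul, coeff_X_pow_mul',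
          coeff_X_pow_mul', if_pos (by omega), if_neg (by omega), hB, if_neg (by omega), hB,
          if_pos (by omega), hA, if_pos (by omega), show s + 1 - 2 = s - 1 by omega,
          hpal (s - 1) (N + 0) (by omega)]
        linear_combination (-(G.coeff (N + 0))) * hvv)
      (by
        rw [← hE, coeff_add, coeff_C_mul, coeff_add, coeff_C_mul, coeff_X_pow_mul',
          coeff_X_pow_mul', if_pos (by omega), if_neg (by omega), hB, if_neg (by omega), hB,
          if_pos (by omega), hA, if_pos (by omega), hpal (s - 2) (N + 1) (by omega)]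
        linear_combination (-(G.coeff (N + 1))) * hvv)
      ((s + p) % 3)
      (by
        rw [← pow_add]
        exact pow_congr3 v hv3 _ _ (by omega))
      (by
        have he := Nat.mod_lt (s + p) (show 0 < 3 by norm_num)
        refine br_ne v hv h3 (-(-1) * (s : L)) ((s + p) % 3) he ?_ ?_ ?_
        · intro he0 h
          have h4 : ((s : ℕ) : L) = 0 := by linear_combination h
          rw [hcast] at h4
          have h5 := Nat.le_of_dvd (by omega) h4
          omega
        · intro he1 h
          have h4 : ((s - 1 : ℕ) : L) = 0 := by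
            rw [Nat.cast_sub (by omega), Nat.cast_one]
            linear_combination h
          rw [hcast] at h4
          have h5 := Nat.eq_zero_of_dvd_of_lt h4 (by omega)
          omega
        · intro he2 h
          have h4 : ((s + 1 : ℕ) : L) = 0 := by
            push_cast
            linear_combination h
          rw [hcast] at h4
          obtain ⟨c, hc⟩ := h4
          have hc1 : c = 1 := by
            have : c < 2 := by
              by_contra h6
              have : p * 2 ≤ p * c := Nat.mul_le_mul_left p (by omega)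
              omega
            have : c ≠ 0 := by
              rintro rfl
              omega
            omega
          rw [hc1, mul_one] at hc
          omega)
    rw [hE, hab.1, hab.2, C_0, zero_mul, zero_add, mul_zero]
  obtain ⟨h1, h2⟩ := both_zero _ _ (ne_frob_two L p 1 hp3 w hw) (X ^ 2 * A) B (key w hw)
    (key (w ^ 2) (root_sq L w hw))
  have h4 : A = 0 := (mul_eq_zero.mp h1).resolve_left (pow_ne_zero 2 X_ne_zero)
  rw [hG, h4, h2, mul_zero, add_zero]

/-- `N = 2 p - 2`, `s = p + s'`, `2 ≤ s' ≤ p - 3` even -/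
theorem pal_two_minus_high (hp5 : 5 ≤ p) (w : L) (hw : w ^ 2 + w + 1 = 0)
    (N s s' : ℕ) (hN : N + 2 = 2 * p) (hss : s = p + s') (hs'2 : 2 ≤ s')
    (hs'p : s' + 3 ≤ p) (hev : Even s') : PalWin L N s := by
  intro G hdvd hhigh hmid hpal
  have hp2 : p ≠ 2 := by omega
  have hp3 : p ≠ 3 := by omega
  have h3 := three_ne L p hp3
  have hp3' : p % 3 ≠ 0 := by
    intro h
    have : 3 ∣ p := Nat.dvd_of_mod_eq_zero h
    exact hp3 ((Nat.prime_dvd_prime_iff_eq Nat.prime_three hp.out).mp this).symm
  have hfr := frob_f L p 1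
  rw [pow_one] at hfr
  obtain ⟨D, hD⟩ := hdvd
  set P : L[X] := (X ^ 2 + X + 1) ^ s' * D with hP
  have hexp : (X ^ (2 * p) + X ^ p + 1 : L[X]) = (X ^ 2 + X + 1) ^ p := by
    rw [hfr, map_add, map_add, map_pow, expand_X, map_one, ← pow_mul, mul_comm p 2]
  have hGP : G = (X ^ (2 * p) + X ^ p + 1) * P := by
    rw [hD, hss, pow_add, hexp, hP]
    ring
  have hPhigh : ∀ n, p + s' - 2 ≤ n → P.coeff n = 0 := by
    by_cases hP0 : P = 0
    · intro n _
      rw [hP0, coeff_zero]
    have hdeg : P.natDegree < p + s' - 2 := by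
      by_contra hc
      have hm : (X ^ (2 * p) + X ^ p + 1 : L[X]).natDegree = 2 * p := by
        have e2 : (X ^ 2 + X + 1 : L[X]).natDegree = 2 := by compute_degree!
        rw [hexp, natDegree_pow, e2, mul_comm]
      have hm0 : (X ^ (2 * p) + X ^ p + 1 : L[X]) ≠ 0 := by
        intro h0
        rw [h0] at hm
        simp at hm
        omega
      have h1 : G.natDegree = 2 * p + P.natDegree := by
        rw [hGP, natDegree_mul hm0 hP0, hm]
      have h2 := hhigh G.natDegree (by omega)
      rw [coeff_natDegree, leadingCoeff_eq_zero, hGP] at h2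
      exact (mul_ne_zero hm0 hP0) h2
    intro n hn
    exact coeff_eq_zero_of_natDegree_lt (by omega)
  obtain ⟨P0, P1, hP0, hP1, hPP⟩ := split_window P (p + s') p
    (fun n hn => hPhigh n (by omega)) (fun n h1 h2 => by omega)
  have hP0' : ∀ n, p ≤ n → P0.coeff n = 0 := fun n hn => by
    rw [hP0, if_neg (by omega)]
  have hP1' : ∀ n, s' ≤ n + 2 → P1.coeff n = 0 := fun n hn => by
    rw [hP1]
    by_cases h : n < p + s'
    · rw [if_pos h]
      exact hPhigh _ (by omega)
    · rw [if_neg h]
  have hGc : ∀ n, G.coeff n = P0.coeff n + (if p ≤ n then (P0 + P1).coeff (n - p) else 0) +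
      (if 2 * p ≤ n then (P0 + P1).coeff (n - 2 * p) else 0) +
      (if 3 * p ≤ n then P1.coeff (n - 3 * p) else 0) := by
    intro n
    have h1 : G = P0 + X ^ p * (P0 + P1) + X ^ (2 * p) * (P0 + P1) + X ^ (3 * p) * P1 := by
      rw [hGP, hPP]
      ring
    rw [h1, coeff_add, coeff_add, coeff_add, coeff_X_pow_mul', coeff_X_pow_mul',
      coeff_X_pow_mul']
  set U : L[X] := P0 + P1 with hU
  have hUmid : ∀ m, s' ≤ m → m + 2 < p → U.coeff m = 0 := by
    intro m hm hmp
    have h1 := hmid (p + m) (by omega) (by omega)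
    rw [hGc, if_pos (by omega), if_neg (by omega), if_neg (by omega), hP0' _ (by omega),
      Nat.add_sub_cancel_left] at h1
    linear_combination h1
  have hUhigh : ∀ m, p ≤ m → U.coeff m = 0 := by
    intro m hm
    rw [hU, coeff_add, hP0' m hm, hP1' m (by omega), add_zero]
  obtain ⟨q, hq⟩ : ∃ q, p = q + 2 := ⟨p - 2, by omega⟩
  have hu0 : U.coeff (s' - 1) = U.coeff q := by
    have h1 := hpal (s' - 1) (3 * p - 2) (by omega)
    rw [hGc, hGc, if_neg (by omega), if_neg (by omega), if_neg (by omega), if_pos (by omega),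
      if_pos (by omega), if_neg (by omega), hP0' (3 * p - 2) (by omega),
      hUhigh (3 * p - 2 - p) (by omega), show 3 * p - 2 - 2 * p = q by omega] at h1
    rw [hU, coeff_add, hP1' (s' - 1) (by omega), ← hU]
    linear_combination h1
  have hu1 : U.coeff (s' - 2) = U.coeff (q + 1) := by
    have h1 := hpal (s' - 2) (3 * p - 1) (by omega)
    rw [hGc, hGc, if_neg (by omega), if_neg (by omega), if_neg (by omega), if_pos (by omega),
      if_pos (by omega), if_neg (by omega), hP0' (3 * p - 1) (by omega),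
      hUhigh (3 * p - 1 - p) (by omega), show 3 * p - 1 - 2 * p = q + 1 by omega] at h1
    rw [hU, coeff_add, hP1' (s' - 2) (by omega), ← hU]
    linear_combination h1
  set u0 := U.coeff q with hu0d
  set u1 := U.coeff (q + 1) with hu1d
  -- the low part of `U`
  set V : L[X] := U - X ^ q * (C u1 * X + C u0) with hV
  have hW : ∀ n, (X ^ q * (C u1 * X + C u0)).coeff n =
      if n = q then u0 else if n = q + 1 then u1 else 0 := by
    intro n
    rw [coeff_X_pow_mul']
    by_cases h1 : q ≤ n
    · rw [if_pos h1]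
      obtain ⟨j, rfl⟩ := Nat.exists_eq_add_of_le h1
      rw [Nat.add_sub_cancel_left]
      rcases j with _ | _ | j
      · simp
      · simp
      · rw [if_neg (by omega), if_neg (by omega), coeff_add, coeff_C_mul, coeff_X,
          if_neg (by omega), coeff_C, if_neg (by omega)]
        ring
    · rw [if_neg h1, if_neg (by omega), if_neg (by omega)]
  have hVhigh : ∀ m, s' ≤ m → V.coeff m = 0 := by
    intro m hm
    rw [hV, coeff_sub, hW]
    by_cases h1 : m = q
    · rw [if_pos h1, h1, ← hu0d, sub_self]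
    · rw [if_neg h1]
      by_cases h2 : m = q + 1
      · rw [if_pos h2, h2, ← hu1d, sub_self]
      · rw [if_neg h2, sub_zero]
        by_cases h3 : m < p
        · exact hUmid m hm (by omega)
        · exact hUhigh m (by omega)
  have hVlow : ∀ m, m < s' → V.coeff m = U.coeff m := by
    intro m hm
    rw [hV, coeff_sub, hW, if_neg (by omega), if_neg (by omega), sub_zero]
  have key : ∀ v : L, v ^ 2 + v + 1 = 0 →
      (X ^ 2 * (V - P1)) + C (v ^ (p ^ 1)) * (C u1 * X + C u0 + X ^ 2 * P1) = 0 := by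
    intro v hv
    have hv3 := cube_root L v hv
    have h1 : (X - C v) ^ s' ∣
        (X ^ 2 * (V - P1)) + C (v ^ (p ^ 1)) * (C u1 * X + C u0 + X ^ 2 * P1) := by
      apply dvd_frob L p 1 v _ _ s' (by rw [pow_one]; omega)
      have h2 : (X ^ 2 * (V - P1)) + X ^ (p ^ 1) * (C u1 * X + C u0 + X ^ 2 * P1) =
          X ^ 2 * P := by
        rw [hPP, pow_one, hV, hU]
        have h3 : (X : L[X]) ^ p = X ^ 2 * X ^ q := by rw [hq, pow_add, mul_comm]
        rw [h3]
        ring
      rw [h2]
      exact Dvd.dvd.mul_left (root_pow_dvd L v hv s' P ⟨D, rfl⟩) _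
    have hEc : ∀ n, ((X ^ 2 * (V - P1)) +
        C (v ^ (p ^ 1)) * (C u1 * X + C u0 + X ^ 2 * P1)).coeff n =
        (if 2 ≤ n then V.coeff (n - 2) - P1.coeff (n - 2) else 0) + v ^ p *
        ((if n = 1 then u1 else if n = 0 then u0 else 0) +
          (if 2 ≤ n then P1.coeff (n - 2) else 0)) := by
      intro n
      rw [coeff_add, coeff_C_mul, coeff_X_pow_mul', coeff_add, coeff_add, coeff_C_mul,
        coeff_X_pow_mul', pow_one, coeff_sub, coeff_X, coeff_C]
      rcases n with _ | _ | n <;> simp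
    obtain ⟨K, hK, hE⟩ := quot_deg v s' 1 _ (by
      intro n hn
      rw [hEc, if_pos (by omega), if_neg (by omega), if_neg (by omega), if_pos (by omega),
        hVhigh _ (by omega), hP1' _ (by omega)]
      ring) h1
    obtain ⟨a, b, rfl⟩ := exists_eq_X_add_C_of_natDegree_le_one hK
    have hvv : v ^ (2 * p) * v ^ p = 1 := by
      rw [← pow_add]
      exact (pow_congr3 v hv3 (2 * p + p) 0 (by omega)).trans (pow_zero v)
    have hcast : ∀ n : ℕ, ((n : ℕ) : L) = 0 ↔ p ∣ n := fun n => CharP.cast_eq_zero_iff L p n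
    have hab := core_two v (v ^ (2 * p)) 1 hv s' (by omega) (by ring) (Even.neg_one_pow hev) a b
      (by
        rw [← hE, hEc, hEc, if_pos (by omega), if_neg (by omega), if_neg (by omega),
          if_pos (by omega), if_neg (by omega), if_neg (by omega), if_pos rfl,
          if_neg (by omega), hP1' _ (by omega), show s' + 1 - 2 = s' - 1 by omega,
          hVlow _ (by omega), hu0]
        linear_combination (-u0) * hvv)
      (by
        rw [← hE, hEc, hEc, if_pos (by omega), if_neg (by omega), if_neg (by omega),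
          if_pos (by omega), if_neg (by omega), if_pos rfl,
          if_neg (by omega), hP1' _ (by omega), hVlow _ (by omega), hu1]
        linear_combination (-u1) * hvv)
      ((s' + 2 * p) % 3)
      (by
        rw [← pow_add]
        exact pow_congr3 v hv3 _ _ (by omega))
      (by
        have he := Nat.mod_lt (s' + 2 * p) (show 0 < 3 by norm_num)
        refine br_ne v hv h3 (-1 * (s' : L)) ((s' + 2 * p) % 3) he ?_ ?_ ?_
        · intro he0 h
          have h4 : ((s' : ℕ) : L) = 0 := by linear_combination -h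
          rw [hcast] at h4
          have h5 := Nat.le_of_dvd (by omega) h4
          omega
        · intro he1 h
          have h4 : ((s' + 1 : ℕ) : L) = 0 := by
            push_cast
            linear_combination -h
          rw [hcast] at h4
          have h5 := Nat.le_of_dvd (by omega) h4
          omega
        · intro he2 h
          have h4 : ((s' - 1 : ℕ) : L) = 0 := by
            rw [Nat.cast_sub (by omega), Nat.cast_one]
            linear_combination -h
          rw [hcast] at h4
          have h5 := Nat.le_of_dvd (by omega) h4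
          omega)
    rw [hE, hab.1, hab.2, C_0, zero_mul, zero_add, mul_zero]
  obtain ⟨h1, h2⟩ := both_zero _ _ (ne_frob L p 1 hp3 w hw) _ _ (key w hw)
    (key (w ^ 2) (root_sq L w hw))
  have h4 : V - P1 = 0 := (mul_eq_zero.mp h1).resolve_left (pow_ne_zero 2 X_ne_zero)
  have hz0 : u0 = 0 := by
    have := congrArg (fun g : L[X] => g.coeff 0) h2
    simp only [coeff_add, coeff_C_mul, coeff_X_pow_mul', coeff_zero] at this
    simpa using this
  have hz1 : u1 = 0 := by
    have := congrArg (fun g : L[X] => g.coeff 1) h2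
    simp only [coeff_add, coeff_C_mul, coeff_X_pow_mul', coeff_zero] at this
    simpa [coeff_C] using this
  have hP10 : P1 = 0 := by
    rw [hz0, hz1, C_0, zero_mul, zero_add, zero_add] at h2
    exact (mul_eq_zero.mp h2).resolve_left (pow_ne_zero 2 X_ne_zero)
  have hV0 : V = 0 := by rw [sub_eq_zero.mp h4, hP10]
  have hU0 : U = 0 := by
    have : U = V + X ^ q * (C u1 * X + C u0) := by rw [hV]; ring
    rw [this, hV0, hz0, hz1]
    simp
  have hP00 : P0 = 0 := by
    have : P0 = U - P1 := by rw [hU]; ring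
    rw [this, hU0, hP10, sub_zero]
  rw [hGP, hPP, hP00, hP10]
  ring

end

/-- `m + 1 = 2 p - 2` -/
theorem nonsing_two_minus (m p : ℕ) (hp : p.Prime) (hp5 : 5 ≤ p) (h : m + 3 = 2 * p) :
    Nonsing 2 m := by
  have : Fact p.Prime := ⟨hp⟩
  refine nonsing_of_odd3 m fun s hs hs3 hsm => ?_
  obtain ⟨w, hw⟩ := exists_root_f (AlgebraicClosure (ZMod p))
  refine ⟨AlgebraicClosure (ZMod p), inferInstance, w, hw, ?_⟩
  have hpodd : p % 2 = 1 := by
    rcases hp.eq_two_or_odd with h | h
    · omega
    · exact h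
  have hs2 : s % 2 = 1 := Nat.odd_iff.mp hs
  rcases Nat.lt_or_ge p s with h1 | h1
  · exact pal_two_minus_high _ p hp5 w hw (m + 1) s (s - p) (by omega) (by omega) (by omega)
      (by omega) (Nat.even_iff.mpr (by omega))
  · exact pal_two_minus_low _ p hp5 w hw (m + 1) s (by omega) hs hs3 h1

end Pool.Agent.Lib.MP_c1a8e2_al
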