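import Pool.Agent.Lib.MP_c1a8e2_al.h31.Near2

/-!
# Two variables: `m + 1 = 2 q + 1`, `q` a power of a prime `p ≥ 5`
-/

set_option autoImplicit false

open Polynomial Finset

namespace Pool.Agent.Lib.MP_c1a8e2_al

section

variable (L : Type) [Field L] (p a : ℕ) [hp : Fact p.Prime] [CharP L p]

/-- `(X - v) ^ s ∣ A + X ^ (j q) B` gives `(X - v) ^ s ∣ A + v ^ (j q) B`, `s ≤ q`. -/
theorem dvd_frob_mul (v : L) (A B : L[X]) (s j : ℕ) (hs : s ≤ p ^ a)
    (h : (X - C v) ^ s ∣ A + X ^ (p ^ a * j) * B) :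
    (X - C v) ^ s ∣ A + C (v ^ (p ^ a * j)) * B := by
  have h1 : (X : L[X]) ^ (p ^ a) - C (v ^ (p ^ a)) = (X - C v) ^ (p ^ a) := by
    rw [sub_pow_char_pow, C_pow]
  have h2 : (X - C v) ^ (p ^ a) ∣ (X : L[X]) ^ (p ^ a * j) - C (v ^ (p ^ a * j)) := by
    have h5 := sub_dvd_pow_sub_pow (X ^ (p ^ a) : L[X]) (C (v ^ (p ^ a))) j
    rw [← pow_mul, ← C_pow, ← pow_mul, h1] at h5
    exact h5
  have h3 : A + C (v ^ (p ^ a * j)) * B = (A + X ^ (p ^ a * j) * B) -
      ((X : L[X]) ^ (p ^ a * j) - C (v ^ (p ^ a * j))) * B := by ring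
  rw [h3]
  exact dvd_sub h (Dvd.dvd.mul_right (dvd_trans (pow_dvd_pow _ hs) h2) B)

theorem ne_frob_two (hp3 : p ≠ 3) (w : L) (hw : w ^ 2 + w + 1 = 0) :
    w ^ (p ^ a * 2) ≠ (w ^ 2) ^ (p ^ a * 2) := by
  have hc : Nat.Coprime (p ^ a * 2) 3 := by
    refine Nat.Coprime.mul_left ?_ (by norm_num)
    exact Nat.Coprime.pow_left a ((Nat.coprime_primes hp.out Nat.prime_three).mpr hp3)
  exact root_pow_ne L (three_ne L p hp3) w hw _ hc

/-- `N = 2 q + 1`, `s ≤ q` -/
theorem pal_two_low (hp2 : p ≠ 2) (hp3 : p ≠ 3) (w : L) (hw : w ^ 2 + w + 1 = 0)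
    (N s : ℕ) (hN : N = p ^ a * 2 + 1) (hs : Odd s) (hsN : s ≤ p ^ a) : PalWin L N s := by
  intro G hdvd hhigh hmid hpal
  have hs1 : 1 ≤ s := hs.pos
  obtain ⟨A, B, hA, hB, hG⟩ := split_window G s N hhigh hmid
  have key : ∀ v : L, v ^ 2 + v + 1 = 0 → A + C (v ^ (p ^ a * 2)) * (X * B) = 0 := by
    intro v hv
    have hv3 := cube_root L v hv
    have h1 : (X - C v) ^ s ∣ A + C (v ^ (p ^ a * 2)) * (X * B) := by
      apply dvd_frob_mul L p a v A (X * B) s 2 hsN
      have h2 : A + X ^ (p ^ a * 2) * (X * B) = G := by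
        rw [hG, hN, pow_succ]
        ring
      rw [h2]
      exact root_pow_dvd L v hv s G hdvd
    obtain ⟨K, hK, hE⟩ := quot_deg v s 0 _ (by
      intro n hn
      obtain ⟨n', rfl⟩ : ∃ n', n = n' + 1 := ⟨n - 1, by omega⟩
      rw [coeff_add, coeff_C_mul, coeff_X_mul, hB n', hA (n' + 1), if_neg (by omega),
        if_neg (by omega), mul_zero, add_zero]) h1
    rw [Nat.le_zero, natDegree_eq_zero] at hK
    obtain ⟨k, rfl⟩ := hK
    have e1 := congrArg (fun g : L[X] => g.coeff s) hE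
    have e2 := congrArg (fun g : L[X] => g.coeff 0) hE
    simp only [coeff_add, coeff_C_mul, coeff_mul_C, pow_coeff_top, pow_coeff_zero] at e1 e2
    obtain ⟨s', rfl⟩ : ∃ s', s = s' + 1 := ⟨s - 1, by omega⟩
    have a1 : A.coeff (s' + 1) = 0 := by rw [hA, if_neg (by omega)]
    have b1 : B.coeff s' = G.coeff (N + s') := by rw [hB, if_pos (by omega)]
    have a0 : A.coeff 0 = G.coeff 0 := by rw [hA, if_pos (by omega)]
    rw [coeff_X_mul, a1, b1] at e1
    rw [mul_coeff_zero, coeff_X_zero, a0] at e2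
    have hgg : G.coeff 0 = G.coeff (N + s') := hpal 0 (N + s') (by omega)
    rw [hgg, Odd.neg_pow hs] at e2
    have h3 : G.coeff (N + s') * (v ^ (p ^ a * 2 + (s' + 1)) + v ^ 0) = 0 := by
      rw [pow_add v (p ^ a * 2) (s' + 1)]
      linear_combination e2 + v ^ (s' + 1) * e1
    have h4 : G.coeff (N + s') = 0 :=
      (mul_eq_zero.mp h3).resolve_right (add_root_ne v hv3 (two_ne L p hp2) _ _)
    rw [h4] at e1
    have h5 : k = 0 := by linear_combination -e1
    rw [hE, h5, C_0, mul_zero]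
  obtain ⟨h1, h2⟩ := both_zero _ _ (ne_frob_two L p a hp3 w hw) A (X * B) (key w hw)
    (key (w ^ 2) (root_sq L w hw))
  have h3 : B = 0 := (mul_eq_zero.mp h2).resolve_left X_ne_zero
  rw [hG, h1, h3, mul_zero, add_zero]

/-- `N = 2 q + 1`, `s = q + s'`, `0 < s' < q` even -/
theorem pal_two_high (hp2 : p ≠ 2) (hp3 : p ≠ 3) (w : L) (hw : w ^ 2 + w + 1 = 0)
    (N s s' : ℕ) (hN : N = p ^ a * 2 + 1) (hss : s = p ^ a + s') (hs'0 : 0 < s')
    (hs'q : s' < p ^ a) (hev : Even s') : PalWin L N s := by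
  intro G hdvd hhigh hmid hpal
  have hfr := frob_f L p a
  have hroot1 : ∀ v : L, v ^ 2 + v + 1 = 0 → v ^ (p ^ a) ≠ 1 := by
    intro v hv h
    have h1 := root_frob L p a v hv
    rw [h] at h1
    apply three_ne L p hp3
    linear_combination h1
  have hne := ne_frob L p a hp3 w hw
  have hdf := dvd_frob L p a
  generalize p ^ a = q at hN hss hs'q hfr hroot1 hne hdf
  obtain ⟨D, hD⟩ := hdvd
  -- `P`
  set P : L[X] := (X ^ 2 + X + 1) ^ s' * D with hP
  have hGP : G = (X ^ (2 * q) + X ^ q + 1) * P := by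
    rw [hD, hss, pow_add, hfr, hP, map_add, map_add, map_pow, expand_X, map_one, ← pow_mul,
      mul_comm q 2]
    ring
  have hPhigh : ∀ n, q + s' + 1 ≤ n → P.coeff n = 0 := by
    have hdeg : P.natDegree ≤ q + s' := by
      by_contra hc
      have hP0 : P ≠ 0 := by
        intro h0
        rw [h0] at hc
        simp at hc
      have hm : (X ^ (2 * q) + X ^ q + 1 : L[X]).natDegree = 2 * q := by
        have e1 : (X ^ (2 * q) + X ^ q + 1 : L[X]) = (X ^ 2 + X + 1) ^ q := by
          rw [hfr, map_add, map_add, map_pow, expand_X, map_one, ← pow_mul, mul_comm q 2]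
        have e2 : (X ^ 2 + X + 1 : L[X]).natDegree = 2 := by compute_degree!
        rw [e1, natDegree_pow, e2, mul_comm]
      have hm0 : (X ^ (2 * q) + X ^ q + 1 : L[X]) ≠ 0 := by
        intro h0
        rw [h0] at hm
        simp at hm
        omega
      have h1 : G.natDegree = 2 * q + P.natDegree := by
        rw [hGP, natDegree_mul hm0 hP0, hm]
      have h2 := hhigh G.natDegree (by omega)
      rw [coeff_natDegree, leadingCoeff_eq_zero, hGP] at h2
      exact (mul_ne_zero hm0 hP0) h2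
    intro n hn
    exact coeff_eq_zero_of_natDegree_lt (by omega)
  obtain ⟨P0, P1, hP0, hP1, hPP⟩ := split_window P (q + s' + 1) q
    (fun n hn => hPhigh n (by omega)) (fun n h1 h2 => by omega)
  have hP0' : ∀ n, q ≤ n → P0.coeff n = 0 := fun n hn => by
    rw [hP0, if_neg (by omega)]
  have hP1' : ∀ n, s' < n → P1.coeff n = 0 := fun n hn => by
    rw [hP1]
    by_cases h : n < q + s' + 1
    · rw [if_pos h]
      exact hPhigh _ (by omega)
    · rw [if_neg h]
  have hGc : ∀ n, G.coeff n = P0.coeff n + (if q ≤ n then (P0 + P1).coeff (n - q) else 0) +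
      (if 2 * q ≤ n then (P0 + P1).coeff (n - 2 * q) else 0) +
      (if 3 * q ≤ n then P1.coeff (n - 3 * q) else 0) := by
    intro n
    have h1 : G = P0 + X ^ q * (P0 + P1) + X ^ (2 * q) * (P0 + P1) + X ^ (3 * q) * P1 := by
      rw [hGP, hPP]
      ring
    rw [h1, coeff_add, coeff_add, coeff_add, coeff_X_pow_mul', coeff_X_pow_mul',
      coeff_X_pow_mul']
  set U : L[X] := P0 + P1 with hU
  have hUhigh : ∀ m, s' ≤ m → U.coeff m = 0 := by
    intro m hm
    by_cases hmq : m < q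
    · have h1 := hmid (q + m) (by omega) (by omega)
      rw [hGc, if_pos (by omega), if_neg (by omega), if_neg (by omega), hP0' _ (by omega),
        Nat.add_sub_cancel_left] at h1
      linear_combination h1
    · rw [hU, coeff_add, hP0' m (by omega), hP1' m (by omega), add_zero]
  have hU0 : U.coeff 0 = 0 := by
    have h1 := hmid (2 * q) (by omega) (by omega)
    rw [hGc, if_pos (by omega), if_pos (by omega), if_neg (by omega), hP0' _ (by omega),
      hUhigh (2 * q - q) (by omega), Nat.sub_self] at h1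
    linear_combination h1
  have hpal0 : P0.coeff 0 = P1.coeff s' := by
    have h1 := hpal 0 (3 * q + s') (by omega)
    rw [hGc, hGc, if_neg (by omega), if_neg (by omega), if_neg (by omega), if_pos (by omega),
      if_pos (by omega), if_pos (by omega), hP0' (3 * q + s') (by omega),
      hUhigh (3 * q + s' - q) (by omega), hUhigh (3 * q + s' - 2 * q) (by omega),
      Nat.add_sub_cancel_left] at h1
    linear_combination h1
  have hg : P1.coeff s' = -P1.coeff 0 := by
    rw [hU, coeff_add] at hU0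
    rw [← hpal0]
    linear_combination hU0
  have key : ∀ v : L, v ^ 2 + v + 1 = 0 → (U - P1) + C (v ^ q) * P1 = 0 := by
    intro v hv
    have hv3 := cube_root L v hv
    have h1 : (X - C v) ^ s' ∣ (U - P1) + C (v ^ q) * P1 := by
      apply hdf v (U - P1) P1 s' (by omega)
      have h2 : (U - P1) + X ^ q * P1 = P := by
        rw [hPP, hU]
        ring
      rw [h2]
      exact root_pow_dvd L v hv s' P ⟨D, rfl⟩
    obtain ⟨K, hK, hE⟩ := quot_deg v s' 0 _ (by
      intro n hn
      rw [coeff_add, coeff_C_mul, coeff_sub, hUhigh n (by omega), hP1' n (by omega)]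
      ring) h1
    rw [Nat.le_zero, natDegree_eq_zero] at hK
    obtain ⟨k, rfl⟩ := hK
    have e1 := congrArg (fun g : L[X] => g.coeff s') hE
    have e2 := congrArg (fun g : L[X] => g.coeff 0) hE
    simp only [coeff_add, coeff_sub, coeff_C_mul, coeff_mul_C, pow_coeff_top,
      pow_coeff_zero] at e1 e2
    rw [hUhigh s' le_rfl, hg] at e1
    rw [hU0, Even.neg_pow hev] at e2
    have h3 : (P1.coeff 0 * (v ^ q - 1)) * (v ^ s' + v ^ 0) = 0 := by
      rw [pow_zero]
      linear_combination e2 - v ^ s' * e1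
    have h4 : P1.coeff 0 * (v ^ q - 1) = 0 :=
      (mul_eq_zero.mp h3).resolve_right (add_root_ne v hv3 (two_ne L p hp2) _ _)
    have h5 : P1.coeff 0 = 0 :=
      (mul_eq_zero.mp h4).resolve_right (sub_ne_zero.mpr (hroot1 v hv))
    rw [h5] at e1
    have h6 : k = 0 := by linear_combination -e1
    rw [hE, h6, C_0, mul_zero]
  obtain ⟨h1, h2⟩ := both_zero _ _ hne (U - P1) P1 (key w hw)
    (key (w ^ 2) (root_sq L w hw))
  have h3 : P0 = 0 := by
    have : P0 = U - P1 := by rw [hU]; ring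
    rw [this, h1]
  rw [hGP, hPP, h2, h3]
  ring

end

/-- `m + 1 = 2 q + 1` -/
theorem nonsing_two_plus (m p a : ℕ) (hp : p.Prime) (hp5 : 5 ≤ p) (h : m = 2 * p ^ a) :
    Nonsing 2 m := by
  have : Fact p.Prime := ⟨hp⟩
  refine nonsing_of_odd m fun s hs hsm => ?_
  obtain ⟨w, hw⟩ := exists_root_f (AlgebraicClosure (ZMod p))
  have hp2 : p ≠ 2 := by omega
  have hp3 : p ≠ 3 := by omega
  refine ⟨AlgebraicClosure (ZMod p), inferInstance, w, hw, ?_⟩
  have hodd : Odd (p ^ a) := (hp.odd_of_ne_two hp2).pow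
  rcases Nat.lt_or_ge (p ^ a) s with h1 | h1
  · have hev : Even (s - p ^ a) := Nat.Odd.sub_odd hs hodd
    have hlt : s - p ^ a < p ^ a := by
      rcases Nat.lt_or_ge (s - p ^ a) (p ^ a) with h2 | h2
      · exact h2
      · exfalso
        have h3 : s - p ^ a = p ^ a := by omega
        rw [h3] at hev
        exact (Nat.not_even_iff_odd.mpr hodd) hev
    exact pal_two_high _ p a hp2 hp3 w hw (m + 1) s (s - p ^ a) (by omega) (by omega) (by omega)
      hlt hev
  · exact pal_two_low _ p a hp2 hp3 w hw (m + 1) s (by omega) hs h1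

end Pool.Agent.Lib.MP_c1a8e2_al
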