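import Pool.Agent.Lib.MP_c1a8e2_al.h18.Block

/-!
# Two variables: the cube condition
-/

set_option autoImplicit false

open Polynomial Finset

namespace Pool.Agent.Lib.MP_c1a8e2_al

/-- The cube condition of `pal_block`. -/
def XCond (L : Type) [Field L] (t i : ℕ) : Prop :=
  ∀ B : L[X], B.natDegree ≤ t - i →
    (∀ l, i ≤ l → l < t → ((X ^ 2 + X + 1) ^ i * B).coeff l = 0) →
    ∀ c : L, c ^ 2 + c + 1 = 0 →
    (B.eval c) ^ 3 = (-1) ^ (i + 1) * (B.eval (c ^ 2)) ^ 3 → B = 0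

end Pool.Agent.Lib.MP_c1a8e2_al
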